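import Pool.Agent.Lib_helper91.SRCH.VFin
import Pool.Agent.Lib_helper55.M1.Point

set_option autoImplicit false

/-! # Case (IIIA), `m = 1`, honest child with `l ≥ 21` leaves -/

namespace Pool.Agent.Lib_helper91.SRCH

open PowerSeries Pool.Agent.Lib_helper36.SRC Pool.Agent.Lib_helper36.SRC.RT

theorem goodJ_honest_large {l n : ℕ} (hl : 21 ≤ l) (hn : GoodUpTo n) (c W : RT)
    (hc : Pool.Agent.Lib_helper55.M1.Honest l c)
    (hs : size (node 0 [c]) + size W ≤ n + 1) (hW : t W ≤ 1 / 8) : GoodJ (node 0 [c]) W := by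
  obtain ⟨a, G, ha, h0, hA, hB⟩ := cert_large l hl (t W) (t_pos W).le hW
  exact Pool.Agent.Lib_helper55.M1.goodJ_m1_one_scaled hn c W hc hs a ha G h0 hA hB

end Pool.Agent.Lib_helper91.SRCH
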