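import Mathlib

set_option autoImplicit false

/-! # Real inequalities for the levels of the honest star -/

namespace Pool.Agent.Lib_helper91.SRCH

open Finset

lemma bern1 (k : ℕ) (s : ℝ) (hs : 0 ≤ s) : s ^ k * ((k : ℝ) + 1 - s) ≤ (k : ℝ) ^ k := by
  rcases Nat.eq_zero_or_pos k with rfl | hk
  · simpa using hs
  have hk' : (0 : ℝ) < k := by exact_mod_cast hk
  rcases hs.eq_or_lt with rfl | hs
  · rw [zero_pow hk.ne', zero_mul]; positivity
  · have h1 : 1 + (k : ℝ) * ((k : ℝ) / s - 1) ≤ (1 + ((k : ℝ) / s - 1)) ^ k := by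
      apply one_add_mul_le_pow
      have : 0 ≤ (k : ℝ) / s := by positivity
      linarith
    have h2 : (1 + ((k : ℝ) / s - 1)) ^ k = (k : ℝ) ^ k / s ^ k := by
      rw [← div_pow]; congr 1; ring
    have h3 : (k : ℝ) + 1 - s ≤ 1 + (k : ℝ) * ((k : ℝ) / s - 1) := by
      have : (k : ℝ) * ((k : ℝ) / s - 1) - ((k : ℝ) - s) = ((k : ℝ) - s) ^ 2 / s := by
        field_simp
      have h4 : 0 ≤ ((k : ℝ) - s) ^ 2 / s := by positivity
      linarith
    have h5 : (k : ℝ) + 1 - s ≤ (k : ℝ) ^ k / s ^ k := by rw [← h2]; linarith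
    have h6 : 0 < s ^ k := by positivity
    calc s ^ k * ((k : ℝ) + 1 - s) ≤ s ^ k * ((k : ℝ) ^ k / s ^ k) :=
          mul_le_mul_of_nonneg_left h5 h6.le
      _ = (k : ℝ) ^ k := by field_simp

lemma bern2 (k : ℕ) (hk : 1 ≤ k) (c : ℝ) (hc : 0 ≤ c) : (k : ℝ) ^ k * (1 + c) ≤ ((k : ℝ) + c) ^ k := by
  have hk' : (0 : ℝ) < k := by exact_mod_cast hk
  have h1 : 1 + (k : ℝ) * (c / k) ≤ (1 + c / k) ^ k := by
    apply one_add_mul_le_pow
    have : 0 ≤ c / (k : ℝ) := by positivity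
    linarith
  have h2 : (k : ℝ) * (c / k) = c := by field_simp
  rw [h2] at h1
  calc (k : ℝ) ^ k * (1 + c) ≤ (k : ℝ) ^ k * (1 + c / k) ^ k :=
        mul_le_mul_of_nonneg_left h1 (by positivity)
    _ = ((k : ℝ) + c) ^ k := by rw [← mul_pow]; congr 1; field_simp

lemma bern3 (k : ℕ) (N : ℝ) (h : (k : ℝ) ≤ N - 1) (hN : 1 < N) :
    N ^ k ≤ Real.exp 1 * (N - 1) ^ k := by
  have h0 : 0 < N - 1 := by linarith
  have h1 : N ≤ (N - 1) * Real.exp (1 / (N - 1)) := by
    have := Real.add_one_le_exp (1 / (N - 1))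
    calc N = (N - 1) * (1 / (N - 1) + 1) := by field_simp; ring
      _ ≤ (N - 1) * Real.exp (1 / (N - 1)) := mul_le_mul_of_nonneg_left this h0.le
  have h2 : N ^ k ≤ ((N - 1) * Real.exp (1 / (N - 1))) ^ k :=
    pow_le_pow_left₀ (by linarith) h1 k
  rw [mul_pow, ← Real.exp_nat_mul] at h2
  have h3 : (k : ℝ) * (1 / (N - 1)) ≤ 1 := by
    rw [mul_one_div, div_le_one h0]; exact h
  have h4 := Real.exp_le_exp.2 h3
  calc N ^ k ≤ (N - 1) ^ k * Real.exp ((k : ℝ) * (1 / (N - 1))) := h2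
    _ ≤ (N - 1) ^ k * Real.exp 1 := mul_le_mul_of_nonneg_left h4 (by positivity)
    _ = Real.exp 1 * (N - 1) ^ k := by ring

/-- the integral bound -/
lemma int_bound (k : ℕ) (N m K : ℝ) (hm : 0 ≤ m)
    (hK : ∀ r : ℝ, 0 ≤ r → r ≤ m → (N - r) ^ k * ((k : ℝ) + 1 - (N - r)) ≤ K) :
    - (K * (1 - Real.exp (-m))) ≤ (N - m) ^ (k + 1) - Real.exp (-m) * N ^ (k + 1) := by
  let f : ℝ → ℝ := fun r => Real.exp r * ((N - r) ^ (k + 1) + K)
  have hd : ∀ r : ℝ, HasDerivAt f (Real.exp r * ((N - r) ^ (k + 1) + K)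
      + Real.exp r * (((k + 1 : ℕ) : ℝ) * (N - r) ^ k * (-1))) r := by
    intro r
    have h1 : HasDerivAt (fun r : ℝ => (N - r)) (-1) r := by
      simpa using (hasDerivAt_id r).const_sub N
    have h2 := (h1.pow (k + 1)).add_const K
    have h3 : HasDerivAt f _ r := (Real.hasDerivAt_exp r).mul h2
    refine h3.congr_deriv ?_
    simp
  have hmono : MonotoneOn f (Set.Icc 0 m) := by
    apply monotoneOn_of_deriv_nonneg (convex_Icc 0 m)
    · exact fun r _ => (hd r).continuousAt.continuousWithinAt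
    · exact fun r _ => (hd r).differentiableAt.differentiableWithinAt
    · intro r hr
      rw [interior_Icc] at hr
      rw [(hd r).deriv]
      have := hK r hr.1.le hr.2.le
      have e : Real.exp r * ((N - r) ^ (k + 1) + K)
          + Real.exp r * (((k + 1 : ℕ) : ℝ) * (N - r) ^ k * (-1))
          = Real.exp r * (K - (N - r) ^ k * ((k : ℝ) + 1 - (N - r))) := by
        push_cast; ring
      rw [e]
      apply mul_nonneg (Real.exp_pos r).le
      linarith
  have h := hmono (Set.left_mem_Icc.2 hm) (Set.right_mem_Icc.2 hm) hm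
  simp only [f, Real.exp_zero, sub_zero, one_mul] at h
  have h5 : Real.exp (-m) * (N ^ (k + 1) + K) ≤ (N - m) ^ (k + 1) + K := by
    calc Real.exp (-m) * (N ^ (k + 1) + K)
        ≤ Real.exp (-m) * (Real.exp m * ((N - m) ^ (k + 1) + K)) :=
          mul_le_mul_of_nonneg_left h (Real.exp_pos _).le
      _ = (N - m) ^ (k + 1) + K := by
          rw [← mul_assoc, ← Real.exp_add, neg_add_cancel, Real.exp_zero, one_mul]
  linarith

/-- `m > N` -/
lemma caseB (m q a N w E : ℝ) (k : ℕ) (hk : 1 ≤ k) (hq : q = (1 + w) / 2) (ha : a = m + q)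
    (hw0 : 0 ≤ w) (hw : w ≤ 1 / 8) (hmw : 2 * m * w ≤ 3 / 8) (hN : N = k + 2 - q) (hmN : N < m)
    (hE0 : 0 ≤ E) (hE : E ≤ 1) :
    0 ≤ 2 * m * m ^ (k + 1) + 2 * a * (1 - a) * (N - m) ^ k + ((N - m) ^ (k + 1) - E * N ^ (k + 1))
      - q * E * N ^ k := by
  have hk1 : (1 : ℝ) ≤ k := by exact_mod_cast hk
  have hN1 : 2 ≤ N := by rw [hN, hq]; linarith
  have hm1 : 2 < m := by linarith
  have hm0 : 0 < m := by linarith
  have hq0 : 0 ≤ q := by rw [hq]; linarith
  have hq1 : q ≤ 1 := by rw [hq]; linarith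
  have hd : 0 < m - N := by linarith
  have hdm : m - N ≤ m := by linarith
  have e1 : E * N ^ (k + 1) ≤ m ^ (k + 1) := by
    calc E * N ^ (k + 1) ≤ 1 * m ^ (k + 1) := by gcongr
      _ = m ^ (k + 1) := one_mul _
  have e2 : q * E * N ^ k ≤ m ^ k := by
    calc q * E * N ^ k ≤ (1 * 1) * m ^ k := by gcongr
      _ = m ^ k := by ring
  have hmk : 0 < m ^ k := by positivity
  have hpow : m ^ (k + 1) = m * m ^ k := by ring
  rcases Nat.even_or_odd k with he | ho
  · -- even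
    have h1 : (N - m) ^ k = (m - N) ^ k := by
      rw [← he.neg_pow]; congr 1; ring
    have h2 : (N - m) ^ (k + 1) = - ((m - N) * (m - N) ^ k) := by
      rw [pow_succ, h1]; ring
    have hk2 : 2 ≤ k := by
      rcases he with ⟨j, hj⟩; omega
    have hk2' : (2 : ℝ) ≤ k := by exact_mod_cast hk2
    have hN3 : 3 ≤ N := by rw [hN, hq]; linarith
    obtain ⟨j, rfl⟩ : ∃ j, k = j + 2 := ⟨k - 2, by omega⟩
    have h3 : (m - N) ^ (j + 2) ≤ (m - N) ^ 2 * m ^ j := by
      rw [pow_add, mul_comm]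
      have : (m - N) ^ j ≤ m ^ j := pow_le_pow_left₀ hd.le hdm j
      exact mul_le_mul_of_nonneg_left this (by positivity)
    have h4 : 2 * a * (a - 1) + (m - N) ≤ 2 * m ^ 2 + m := by
      rw [ha, hq]; nlinarith
    have h5 : 0 ≤ 2 * a * (a - 1) + (m - N) := by
      have : 1 ≤ a := by linarith
      have : 0 ≤ 2 * a * (a - 1) := by nlinarith
      linarith
    have h6 : (2 * a * (a - 1) + (m - N)) * (m - N) ^ (j + 2)
        ≤ (2 * m ^ 2 + m) * ((m - N) ^ 2 * m ^ j) := by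
      apply mul_le_mul h4 h3 (by positivity) (by positivity)
    have h7 : (m - N) ^ 2 ≤ m ^ 2 - N * m := by nlinarith
    have h8 : (2 * m ^ 2 + m) * (m - N) ^ 2 ≤ 2 * m ^ 4 - (2 * N - 1) * m ^ 3 := by
      have : (2 * m ^ 2 + m) * (m - N) ^ 2 ≤ (2 * m ^ 2 + m) * (m ^ 2 - N * m) :=
        mul_le_mul_of_nonneg_left h7 (by positivity)
      nlinarith [mul_nonneg (show (0 : ℝ) ≤ N by linarith) (sq_nonneg m)]
    have h9 : (2 * m ^ 2 + m) * ((m - N) ^ 2 * m ^ j)
        ≤ (2 * m ^ 4 - (2 * N - 1) * m ^ 3) * m ^ j := by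
      rw [← mul_assoc]
      exact mul_le_mul_of_nonneg_right h8 (by positivity)
    have h10 : 0 ≤ ((2 * N - 1) * m ^ 3 - m ^ 3 - m ^ 2) * m ^ j := by
      apply mul_nonneg _ (by positivity)
      nlinarith [sq_nonneg m, pow_pos hm0 3, mul_nonneg (show (0:ℝ) ≤ m - 1 by linarith) (sq_nonneg m),
        mul_nonneg (show (0:ℝ) ≤ N - 3 by linarith) (pow_pos hm0 3).le]
    rw [h2, h1]
    have e3 : m ^ (j + 2 + 1) = m ^ 3 * m ^ j := by ring
    have e4 : m ^ (j + 2) = m ^ 2 * m ^ j := by ring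
    have e5 : 2 * m * m ^ (j + 2 + 1) = 2 * m ^ 4 * m ^ j := by ring
    rw [e5]
    rw [e3] at e1
    rw [e4] at e2
    nlinarith
  · -- odd
    have h1 : (N - m) ^ k = - (m - N) ^ k := by
      rw [← ho.neg_pow]; congr 1; ring
    have h2 : 0 ≤ (N - m) ^ (k + 1) := by
      have : Even (k + 1) := by exact ho.add_one
      exact this.pow_nonneg _
    have h3 : 0 ≤ 2 * a * (1 - a) * (N - m) ^ k := by
      rw [h1]
      have : 1 ≤ a := by linarith
      have h4 : 0 ≤ 2 * a * (a - 1) := by nlinarith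
      have h5 : 0 ≤ (m - N) ^ k := by positivity
      nlinarith
    have h6 : m ^ k ≤ m ^ (k + 1) := by rw [hpow]; nlinarith
    have h7 : 2 * m ^ (k + 1) ≤ 2 * m * m ^ (k + 1) := by
      have : 0 < m ^ (k + 1) := by positivity
      nlinarith
    linarith

lemma exp_half_neg : Real.exp (-(3 / 2 : ℝ)) ≤ 0.2232 := by
  have h1 : (2.718 : ℝ) ≤ Real.exp 1 := by
    have := Real.exp_one_gt_d9; linarith
  have h2 : Real.exp (-(3 / 2 : ℝ)) ^ 2 * Real.exp 1 ^ 3 = 1 := by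
    rw [← Real.exp_nat_mul, ← Real.exp_nat_mul, ← Real.exp_add]; norm_num
  have h3 : 0 < Real.exp (-(3 / 2 : ℝ)) := Real.exp_pos _
  by_contra hc
  push Not at hc
  have h4 : (2.718 : ℝ) ^ 3 ≤ Real.exp 1 ^ 3 := pow_le_pow_left₀ (by norm_num) h1 3
  have h5 : (0.2232 : ℝ) ^ 2 < Real.exp (-(3 / 2 : ℝ)) ^ 2 := by
    apply pow_lt_pow_left₀ hc (by norm_num) (by norm_num)
  nlinarith [sq_nonneg (Real.exp (-(3 / 2 : ℝ)))]

/-- `l ≥ 4`, `m ≤ N` -/
lemma caseA1 (m q a N w E : ℝ) (j : ℕ) (hq : q = (1 + w) / 2) (ha : a = m + q)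
    (hw0 : 0 ≤ w) (hw : w ≤ 1 / 16) (hm : 3 / 2 ≤ m) (hN : N = ((j + 1 : ℕ) : ℝ) + 2 - q)
    (hmN : m ≤ N) (hE : E = Real.exp (-m)) :
    0 ≤ 2 * m * ((1 - q) * N ^ (j + 1) + ((j + 1 : ℕ) + 1 : ℝ) * m * (1 - q) * (N - 1) ^ j)
      + 2 * a * (1 - a) * (N - m) ^ (j + 1) + ((N - m) ^ (j + 2) - E * N ^ (j + 2))
      - q * E * N ^ (j + 1) := by
  have hj0 : (0 : ℝ) ≤ j := Nat.cast_nonneg j
  have hN' : N = j + 3 - q := by rw [hN]; push_cast; ring
  have hq0 : 0 ≤ q := by rw [hq]; linarith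
  have hq1 : q ≤ 17 / 32 := by rw [hq]; linarith
  have hN2 : 2 ≤ N := by rw [hN']; linarith
  set M : ℝ := N ^ (j + 1) with hM
  have hM0 : 0 < M := by positivity
  -- `k^k`
  have hk : (((j + 1 : ℕ) : ℝ)) ^ (j + 1) * (3 - q) ≤ M := by
    have := bern2 (j + 1) (by omega) (2 - q) (by linarith)
    have e : ((j + 1 : ℕ) : ℝ) + (2 - q) = N := by rw [hN]; ring
    rw [e] at this
    calc (((j + 1 : ℕ) : ℝ)) ^ (j + 1) * (3 - q) = (((j + 1 : ℕ) : ℝ)) ^ (j + 1) * (1 + (2 - q)) := by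
          ring
      _ ≤ M := this
  have hkk : (((j + 1 : ℕ) : ℝ)) ^ (j + 1) ≤ M / (3 - q) := by
    rw [le_div_iff₀ (by linarith)]; exact hk
  set K : ℝ := (((j + 1 : ℕ) : ℝ)) ^ (j + 1) with hKdef
  have hK0 : 0 ≤ K := by positivity
  -- the difference
  have h1 : - K ≤ (N - m) ^ (j + 2) - E * N ^ (j + 2) := by
    have := int_bound (j + 1) N m K (by linarith) (fun r h0 h1 => bern1 (j + 1) (N - r) (by linarith))
    rw [← hE] at this
    have hE1 : 0 ≤ E := by rw [hE]; exact (Real.exp_pos _).le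
    have : K * (1 - E) ≤ K := by nlinarith
    have e : (j + 1 + 1) = j + 2 := by ring
    rw [e] at *
    linarith
  -- the main negative term
  have h2 : (a - 1) * (N - m) ^ (j + 1) ≤ K := by
    have := bern1 (j + 1) (N - m) (by linarith)
    have e : ((j + 1 : ℕ) : ℝ) + 1 - (N - m) = a - 1 := by rw [hN, ha]; ring
    rw [e] at this
    linarith
  have ha0 : 0 ≤ 2 * a := by rw [ha]; linarith
  have h3 : 2 * a * (a - 1) * (N - m) ^ (j + 1) ≤ 2 * a * K := by
    rw [mul_assoc]; exact mul_le_mul_of_nonneg_left h2 ha0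
  -- the second positive term
  have h4 : M ≤ Real.exp 1 * (N - 1) ^ (j + 1) := bern3 (j + 1) N (by rw [hN']; push_cast; linarith)
    (by linarith)
  have he1 : Real.exp 1 < 2.7182818286 := Real.exp_one_lt_d9
  have h5 : 0.3678 * M ≤ (N - 1) ^ (j + 1) := by
    have h0 : 0 < (N - 1) ^ (j + 1) := by
      have : 0 < N - 1 := by linarith
      positivity
    nlinarith
  have h6 : 0.3678 * M ≤ (((j + 1 : ℕ) : ℝ) + 1) * (N - 1) ^ j := by
    have h0 : 0 ≤ (N - 1) ^ j := by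
      have : 0 ≤ N - 1 := by linarith
      positivity
    have : (N - 1) ^ (j + 1) ≤ (((j + 1 : ℕ) : ℝ) + 1) * (N - 1) ^ j := by
      rw [pow_succ, mul_comm]
      apply mul_le_mul_of_nonneg_right _ h0
      rw [hN']; push_cast; linarith
    linarith
  have hEb : E ≤ 0.2232 := by
    rw [hE]
    refine le_trans (Real.exp_le_exp.2 ?_) exp_half_neg
    linarith
  have hE0 : 0 ≤ E := by rw [hE]; exact (Real.exp_pos _).le
  have h7 : 2 * m * ((1 - q) * M + m * (1 - q) * (0.3678 * M))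
      ≤ 2 * m * ((1 - q) * M + (((j + 1 : ℕ) : ℝ) + 1) * m * (1 - q) * (N - 1) ^ j) := by
    apply mul_le_mul_of_nonneg_left _ (by linarith)
    have : m * (1 - q) * (0.3678 * M) ≤ m * (1 - q) * ((((j + 1 : ℕ) : ℝ) + 1) * (N - 1) ^ j) := by
      apply mul_le_mul_of_nonneg_left h6
      apply mul_nonneg <;> linarith
    linarith
  have h8 : q * E * M ≤ q * 0.2232 * M := by
    apply mul_le_mul_of_nonneg_right _ hM0.le
    exact mul_le_mul_of_nonneg_left hEb hq0
  have h9 : (2 * a + 1) * K ≤ (2 * a + 1) * (M / (3 - q)) :=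
    mul_le_mul_of_nonneg_left hkk (by linarith)
  have h10 : (2 * a + 1) * (M / (3 - q)) + q * 0.2232 * M
      ≤ 2 * m * ((1 - q) * M + m * (1 - q) * (0.3678 * M)) := by
    have h3q : 0 < 3 - q := by linarith
    rw [← mul_div_assoc, ← sub_nonneg]
    have e : 2 * m * ((1 - q) * M + m * (1 - q) * (0.3678 * M)) - ((2 * a + 1) * M / (3 - q)
        + q * 0.2232 * M) = (M / (3 - q)) * ((3 - q) * (2 * m * (1 - q) * (1 + 0.3678 * m))
          - (2 * a + 1) - (3 - q) * q * 0.2232) := by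
      field_simp
      ring
    rw [e]
    apply mul_nonneg (by positivity)
    rw [ha]
    -- the worst case is `m = 3/2`, `q = 17/32`
    have u1 : (3 - 17 / 32) * (1 - 17 / 32) ≤ (3 - q) * (1 - q) := by nlinarith
    have u2 : 0 ≤ 2 * m * (1 + 0.3678 * m) := by nlinarith
    have u3 : ((3 - 17 / 32) * (1 - 17 / 32)) * (2 * m * (1 + 0.3678 * m))
        ≤ ((3 - q) * (1 - q)) * (2 * m * (1 + 0.3678 * m)) := mul_le_mul_of_nonneg_right u1 u2
    have u4 : (3 - q) * q ≤ (3 - 17 / 32) * (17 / 32) := by nlinarith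
    nlinarith
  linarith

/-- `l = 3` -/
lemma caseA2 (q a N E : ℝ) (j : ℕ) (hq : q = 9 / 16) (ha : a = 25 / 16)
    (hN : N = ((j + 1 : ℕ) : ℝ) + 2 - q) (hE : E = Real.exp (-1)) :
    0 ≤ 2 * ((1 - q) * N ^ (j + 1) + ((j + 1 : ℕ) + 1 : ℝ) * 1 * (1 - q) * (N - 1) ^ j)
      + 2 * a * (1 - a) * (N - 1) ^ (j + 1) + ((N - 1) ^ (j + 2) - E * N ^ (j + 2))
      - q * E * N ^ (j + 1) := by
  have hj0 : (0 : ℝ) ≤ j := Nat.cast_nonneg j
  have hN' : N = j + 39 / 16 := by rw [hN, hq]; push_cast; ring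
  have hN1 : 0 < N - 1 := by rw [hN']; linarith
  have hE1 : E * Real.exp 1 = 1 := by rw [hE, ← Real.exp_add]; norm_num
  have he1 : Real.exp 1 < 2.7182818286 := Real.exp_one_lt_d9
  have he2 : 2.7182818283 < Real.exp 1 := Real.exp_one_gt_d9
  have hE0 : 0 < E := by rw [hE]; exact Real.exp_pos _
  have hEu : E ≤ 0.3679 := by nlinarith
  have hEl : 0.3678 ≤ E := by nlinarith
  set z : ℝ := (N - 1) ^ j with hz
  have hz0 : 0 < z := by positivity
  have e1 : (N - 1) ^ (j + 1) = (N - 1) * z := by rw [pow_succ]; ring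
  -- Bernoulli
  have h1 : (N - 1) * z + (j + 1 : ℝ) * z ≤ N ^ (j + 1) := by
    have := one_add_mul_le_pow (a := 1 / (N - 1)) (by
      have : 0 < 1 / (N - 1) := by positivity
      linarith) (j + 1)
    have e : N ^ (j + 1) = ((N - 1) * z) * (1 + 1 / (N - 1)) ^ (j + 1) := by
      rw [← e1, ← mul_pow]; congr 1; field_simp; ring
    rw [e]
    calc (N - 1) * z + (j + 1 : ℝ) * z = ((N - 1) * z) * (1 + ((j + 1 : ℕ) : ℝ) * (1 / (N - 1))) := by
          push_cast; field_simp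
      _ ≤ _ := mul_le_mul_of_nonneg_left this (by positivity)
  -- the difference
  have h2 : - (q * ((N - 1) * z) * (1 - E)) ≤ (N - 1) ^ (j + 2) - E * N ^ (j + 2) := by
    rw [hE]
    apply int_bound (j + 1) N 1 (q * ((N - 1) * z)) (by norm_num)
    intro r h0 h1
    have hNr : 0 < N - r := by linarith
    have hb := one_add_mul_le_pow (a := - ((1 - r) / (N - r))) (by
      have : (1 - r) / (N - r) ≤ 1 := by rw [div_le_one hNr]; linarith
      linarith) (j + 1)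
    have e : (N - 1) ^ (j + 1) = (N - r) ^ (j + 1) * (1 + -((1 - r) / (N - r))) ^ (j + 1) := by
      rw [← mul_pow]; congr 1; field_simp; ring
    rw [← e1, e]
    have hp : 0 < (N - r) ^ (j + 1) := by positivity
    have hb2 : r ≤ 1 + ((j + 1 : ℕ) : ℝ) * -((1 - r) / (N - r)) := by
      have : ((j + 1 : ℕ) : ℝ) * ((1 - r) / (N - r)) ≤ 1 - r := by
        rw [← mul_div_assoc, div_le_iff₀ hNr]
        have : ((j + 1 : ℕ) : ℝ) ≤ N - r := by rw [hN']; push_cast; linarith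
        nlinarith
      linarith
    have hb3 : ((j + 1 : ℕ) : ℝ) + 1 - (N - r) ≤ q * (1 + -((1 - r) / (N - r))) ^ (j + 1) := by
      have : ((j + 1 : ℕ) : ℝ) + 1 - (N - r) = r - 1 + q := by rw [hN]; ring
      rw [this]
      have h3 : q * r ≤ q * (1 + -((1 - r) / (N - r))) ^ (j + 1) := by
        apply mul_le_mul_of_nonneg_left _ (by rw [hq]; norm_num)
        linarith
      rw [hq] at h3 ⊢
      linarith
    calc (N - r) ^ (j + 1) * (((j + 1 : ℕ) : ℝ) + 1 - (N - r))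
        ≤ (N - r) ^ (j + 1) * (q * (1 + -((1 - r) / (N - r))) ^ (j + 1)) :=
          mul_le_mul_of_nonneg_left hb3 hp.le
      _ = q * ((N - r) ^ (j + 1) * (1 + -((1 - r) / (N - r))) ^ (j + 1)) := by ring
  rw [e1]
  set M : ℝ := N ^ (j + 1) with hM
  have h3 : q * ((N - 1) * z) * (1 - E) ≤ q * ((N - 1) * z) * (1 - 0.3678) := by
    apply mul_le_mul_of_nonneg_left _ (by rw [hq]; positivity)
    linarith
  have hM0 : 0 < M := by
    have : 0 < N := by linarith
    positivity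
  have h4 : q * E * M ≤ q * 0.3679 * M := by
    apply mul_le_mul_of_nonneg_right _ hM0.le
    apply mul_le_mul_of_nonneg_left hEu (by rw [hq]; norm_num)
  push_cast
  have hjz : 0 ≤ j * z := by positivity
  rw [hq] at h2 h3 h4 ⊢
  rw [ha]
  rw [hN'] at h1 h2 h3 ⊢
  nlinarith

end Pool.Agent.Lib_helper91.SRCH
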