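import Pool.Agent.Lib_helper91.SRCH.RForm
import Pool.Agent.Lib_helper91.SRCH.Num

set_option autoImplicit false

/-! # The second membership for the star with all leaves honest -/

namespace Pool.Agent.Lib_helper91.SRCH

open Finset PowerSeries Pool.Agent.Lib_helper36.SRC

lemma NN.Ex {c : ℝ} (hc : 0 ≤ c) : NN (Ex c) := fun n => by rw [coeff_Ex]; positivity

lemma NN_bb : NN bb := (NN.C (by norm_num)).mul (NN.kc (by norm_num))

lemma coeff_bb_zero : coeff 0 bb = 1 := by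
  unfold bb; rw [coeff_C_mul, coeff_kc_zero]; norm_num

lemma coeff_bb_pow_zero (l : ℕ) : coeff 0 (bb ^ l) = 1 := by
  have h : constantCoeff bb = 1 := by
    rw [← coeff_zero_eq_constantCoeff_apply]; exact coeff_bb_zero
  rw [coeff_zero_eq_constantCoeff_apply, map_pow, h, one_pow]

lemma coeff_one_X_mul (f : ℝ⟦X⟧) : coeff 1 (X * f) = coeff 0 f := coeff_succ_X_mul 0 f

lemma LE_Ex_bb : LE (Ex (1 / 2)) bb := by
  intro n
  unfold bb
  rw [coeff_Ex, coeff_C_mul]
  match n with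
  | 0 => rw [coeff_kc_zero]; norm_num
  | 1 => rw [coeff_kc_one]; norm_num
  | n + 2 =>
    rw [coeff_kc, ← mul_div_assoc]
    apply div_le_div_of_nonneg_right _ (by positivity)
    have h : ((1 : ℝ) / 2) ^ n ≤ ((n : ℝ) + 2 - 1 / 2) ^ n := by
      apply pow_le_pow_left₀ (by norm_num)
      have : (0 : ℝ) ≤ n := Nat.cast_nonneg n
      linarith
    rw [pow_add]
    linarith

lemma LE_Ex_bb_pow (k : ℕ) : LE (Ex ((k : ℝ) / 2)) (bb ^ k) := by
  induction k with
  | zero => simp [Ex_zero]; exact LE.refl _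
  | succ k ih =>
    have e : Ex (((k + 1 : ℕ) : ℝ) / 2) = Ex ((k : ℝ) / 2) * Ex (1 / 2) := by
      rw [← Ex_add]; congr 1; push_cast; ring
    rw [e, pow_succ]
    exact LE.mul ih LE_Ex_bb (NN_bb.pow k) (NN.Ex (by norm_num))

/-- two terms of the product -/
lemma two_terms (r c : ℝ) (hr : 0 ≤ r) (hc : 0 ≤ c) (k : ℕ) :
    (c * (c + (k + 1)) ^ k + r ^ (k + 1)) / (k + 1).factorial
      ≤ coeff (k + 2) (Ex r * (X * ab c)) := by
  have e : Ex r * (X * ab c) = X * (Ex r * ab c) := by ring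
  rw [e, coeff_succ_X_mul, coeff_mul]
  have hsub : ({(0, k + 1), (k + 1, 0)} : Finset (ℕ × ℕ)) ⊆ antidiagonal (k + 1) := by
    intro x hx
    simp only [mem_insert, mem_singleton] at hx
    rcases hx with rfl | rfl <;> simp
  have h := sum_le_sum_of_subset_of_nonneg (f := fun x : ℕ × ℕ => coeff x.1 (Ex r) * coeff x.2 (ab c))
    hsub (fun x _ _ => mul_nonneg (NN.Ex hr _) (NN.ab hc _))
  refine le_trans (le_of_eq ?_) h
  rw [sum_pair (by simp)]
  rw [coeff_Ex, coeff_Ex, coeff_ab_succ, coeff_ab_zero]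
  simp
  ring

/-- three terms of the product -/
lemma three_terms (r c : ℝ) (hr : 0 ≤ r) (hc : 0 ≤ c) (j : ℕ) :
    (c * (c + (j + 2)) ^ (j + 1) + ((j : ℝ) + 2) * r * (c * (c + (j + 1)) ^ j) + r ^ (j + 2))
        / (j + 2).factorial
      ≤ coeff (j + 3) (Ex r * (X * ab c)) := by
  have e : Ex r * (X * ab c) = X * (Ex r * ab c) := by ring
  rw [e, coeff_succ_X_mul, coeff_mul]
  have hsub : ({(0, j + 2), (1, j + 1), (j + 2, 0)} : Finset (ℕ × ℕ)) ⊆ antidiagonal (j + 2) := by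
    intro x hx
    simp only [mem_insert, mem_singleton] at hx
    rcases hx with rfl | rfl | rfl
    · simp
    · simp; omega
    · simp
  have h := sum_le_sum_of_subset_of_nonneg (f := fun x : ℕ × ℕ => coeff x.1 (Ex r) * coeff x.2 (ab c))
    hsub (fun x _ _ => mul_nonneg (NN.Ex hr _) (NN.ab hc _))
  refine le_trans (le_of_eq ?_) h
  rw [sum_insert (by simp), sum_pair (by simp)]
  rw [coeff_Ex, coeff_Ex, coeff_Ex, coeff_ab_succ, coeff_ab_succ, coeff_ab_zero]
  have f1 : (((j + 1).factorial : ℕ) : ℝ) ≠ 0 := by exact_mod_cast (j + 1).factorial_ne_zero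
  have f2 : (j : ℝ) + 2 ≠ 0 := by positivity
  rw [Nat.factorial_succ (j + 1)]
  push_cast
  field_simp
  simp
  ring

/-- **Comparison.** -/
lemma NN_cmp (r q : ℝ) (hr : 0 ≤ r) (hq0 : 1 / 2 ≤ q) (hq : q ≤ 9 / 16) :
    NN (X * ab (1 - q - r) + Ex r * (X * ab (1 - q))) := by
  intro n
  rw [map_add]
  match n with
  | 0 => simp
  | 1 =>
    have e : Ex r * (X * ab (1 - q)) = X * (Ex r * ab (1 - q)) := by ring
    rw [e, coeff_one_X_mul, coeff_one_X_mul, coeff_ab_zero, coeff_mul]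
    simp [coeff_ab_zero, coeff_Ex]
  | k + 2 =>
    have h := two_terms r (1 - q) hr (by linarith) k
    rw [coeff_succ_X_mul, coeff_ab_succ]
    have hf : (0 : ℝ) < (k + 1).factorial := by exact_mod_cast (k + 1).factorial_pos
    have key : 0 ≤ (1 - q - r) * (1 - q - r + (k + 1)) ^ k
        + ((1 - q) * (1 - q + (k + 1)) ^ k + r ^ (k + 1)) := by
      set N : ℝ := 1 - q + (k + 1) with hN
      have hk0 : (0 : ℝ) ≤ k := Nat.cast_nonneg k
      have hN0 : 0 < N := by rw [hN]; linarith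
      have e1 : 1 - q - r + (k + 1) = N - r := by rw [hN]; ring
      rw [e1]
      have hc : 0 ≤ 1 - q := by linarith
      rcases Nat.eq_zero_or_pos k with rfl | hk
      · simp; linarith
      · have p1 : 0 ≤ (1 - q) * N ^ k := by positivity
        have p2 : 0 ≤ r ^ (k + 1) := by positivity
        rcases le_total r N with hrN | hrN
        · have h1 := bern1 k (N - r) (by linarith)
          have e2 : (k : ℝ) + 1 - (N - r) = - (1 - q - r) := by rw [hN]; ring
          rw [e2] at h1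
          have h2 := bern2 k hk (2 - q) (by linarith)
          have e3 : (k : ℝ) + (2 - q) = N := by rw [hN]; ring
          rw [e3] at h2
          have h3 : 1 ≤ (1 + (2 - q)) * (1 - q) := by nlinarith
          have h4 : 0 ≤ (k : ℝ) ^ k := by positivity
          have h5 : (k : ℝ) ^ k ≤ (1 - q) * N ^ k := by
            calc (k : ℝ) ^ k = (k : ℝ) ^ k * 1 := by ring
              _ ≤ (k : ℝ) ^ k * ((1 + (2 - q)) * (1 - q)) := mul_le_mul_of_nonneg_left h3 h4
              _ = (1 - q) * ((k : ℝ) ^ k * (1 + (2 - q))) := by ring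
              _ ≤ (1 - q) * N ^ k := mul_le_mul_of_nonneg_left h2 hc
          linarith
        · have h1 : |(1 - q - r) * (N - r) ^ k| ≤ r ^ (k + 1) := by
            rw [abs_mul, abs_pow, pow_succ, mul_comm (r ^ k)]
            have a1 : |1 - q - r| ≤ r := by
              rw [abs_le]; constructor <;> [skip; skip]
              · linarith
              · have : 1 ≤ N := by rw [hN]; have : (1 : ℝ) ≤ k := by exact_mod_cast hk
                                   linarith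
                linarith
            have a2 : |N - r| ≤ r := by
              rw [abs_le]; constructor <;> linarith
            exact mul_le_mul a1 (pow_le_pow_left₀ (abs_nonneg _) a2 k) (by positivity) hr
          have := (abs_le.1 h1).1
          linarith
    have e5 : (1 - q - r) * (1 - q - r + ((k : ℝ) + 1)) ^ k / (k + 1).factorial
        + ((1 - q) * (1 - q + (k + 1)) ^ k + r ^ (k + 1)) / (k + 1).factorial
        = ((1 - q - r) * (1 - q - r + (k + 1)) ^ k
        + ((1 - q) * (1 - q + (k + 1)) ^ k + r ^ (k + 1))) / (k + 1).factorial := by ring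
    have h6 : 0 ≤ ((1 - q - r) * (1 - q - r + (k + 1)) ^ k
        + ((1 - q) * (1 - q + (k + 1)) ^ k + r ^ (k + 1))) / (k + 1).factorial := by positivity
    linarith

lemma NN_cmp_bb (k : ℕ) (q : ℝ) (hq0 : 1 / 2 ≤ q) (hq : q ≤ 9 / 16) :
    NN (X * ab (1 - q - (k : ℝ) / 2) + bb ^ k * (X * ab (1 - q))) := by
  intro n
  have h1 := NN_cmp ((k : ℝ) / 2) q (by positivity) hq0 hq n
  have h2 := LE.mul (LE_Ex_bb_pow k) (LE.refl (X * ab (1 - q))) (NN_bb.pow k)
    (NN.X.mul (NN.ab (by linarith))) n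
  rw [map_add] at h1 ⊢
  linarith

section

variable (l : ℕ) (p : ℝ)

/-- the positive series -/
noncomputable def VV : ℝ⟦X⟧ := bb ^ (l - 1) * (X * ab (1 / 2 - p))

/-- the sum -/
noncomputable def TT : ℝ⟦X⟧ := ∑ i ∈ range l, C (p * 2 ^ (l - 1 - i)) *
  (bb ^ i * (X * ab (1 / 2 - p - ((l - 1 - i : ℕ) : ℝ) / 2)))

lemma NN_VV (hp : p ≤ 1 / 2) : NN (VV l p) := (NN_bb.pow _).mul (NN.X.mul (NN.ab (by linarith)))

lemma sum_w : ∑ i ∈ range l, p * (2 : ℝ) ^ (l - 1 - i) = p * (2 ^ l - 1) := by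
  rw [← mul_sum, sum_range_reflect (fun i => (2 : ℝ) ^ i), geom_sum_eq (by norm_num)]
  norm_num

/-- the sum is at least `- VV / 2` -/
lemma NN_TT (hp0 : 0 ≤ p) (hp : p ≤ 1 / 16) (hl : p * 2 ^ l ≤ 1 / 2) :
    NN (C 2 * TT l p + VV l p) := by
  have h1 : C 2 * TT l p + VV l p = ∑ i ∈ range l, C (2 * (p * 2 ^ (l - 1 - i))) *
      (bb ^ i * (X * ab (1 - (1 / 2 + p) - ((l - 1 - i : ℕ) : ℝ) / 2)
        + bb ^ (l - 1 - i) * (X * ab (1 - (1 / 2 + p)))))
      + C (1 - 2 * (p * (2 ^ l - 1))) * VV l p := by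
    have e1 : ∀ i ∈ range l, C (2 * (p * 2 ^ (l - 1 - i))) *
      (bb ^ i * (X * ab (1 - (1 / 2 + p) - ((l - 1 - i : ℕ) : ℝ) / 2)
        + bb ^ (l - 1 - i) * (X * ab (1 - (1 / 2 + p)))))
        = C 2 * (C (p * 2 ^ (l - 1 - i)) *
          (bb ^ i * (X * ab (1 / 2 - p - ((l - 1 - i : ℕ) : ℝ) / 2))))
          + C (2 * (p * 2 ^ (l - 1 - i))) * VV l p := by
      intro i hi
      have hi' : i < l := mem_range.1 hi
      have e2 : bb ^ (l - 1) = bb ^ i * bb ^ (l - 1 - i) := by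
        rw [← pow_add]; congr 1; omega
      have e3 : (1 : ℝ) - (1 / 2 + p) = 1 / 2 - p := by ring
      unfold VV
      rw [e2, e3, map_mul]
      ring
    rw [sum_congr rfl e1, sum_add_distrib, ← mul_sum, ← sum_mul, ← map_sum, ← mul_sum, sum_w]
    have e4 : C 2 * TT l p + VV l p = C 2 * TT l p + (C (2 * (p * (2 ^ l - 1)))
        + C (1 - 2 * (p * (2 ^ l - 1)))) * VV l p := by
      rw [← map_add]
      have : 2 * (p * (2 ^ l - 1)) + (1 - 2 * (p * ((2 : ℝ) ^ l - 1))) = 1 := by ring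
      rw [this, map_one, one_mul]
    rw [e4]
    unfold TT
    ring
  rw [h1]
  apply NN.add
  · apply NN.sum
    intro i _
    apply NN.smul (by positivity)
    exact (NN_bb.pow i).mul (NN_cmp_bb _ _ (by linarith) (by linarith))
  · apply NN.smul _ (NN_VV l p (by linarith))
    nlinarith

/-- the main series -/
noncomputable def GG (c0 : ℝ) : ℝ⟦X⟧ := bb ^ l * ab (-p) - ab (-((l : ℝ) / 2 + p))
  + X * ab (1 - ((l : ℝ) / 2 + p)) - C c0 * (X * ab (1 / 2 - p))

/-- **the form of the derivative** -/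
theorem D_GG (c0 : ℝ) (hl : 1 ≤ l) (hp : 0 ≤ p) (hpl : p * 2 ^ l = 1 / 2) :
    C 2 * D (GG l p c0) = C (l : ℝ) * VV l p + C 2 * TT l p
      + C (1 / ((l : ℝ) / 2 + p) - 2) * D (ab (-((l : ℝ) / 2 + p)))
      + C 2 * D (X * ab (1 - ((l : ℝ) / 2 + p))) - C (2 * c0) * D (X * ab (1 / 2 - p)) := by
  obtain ⟨j, rfl⟩ : ∃ j, l = j + 1 := ⟨l - 1, by omega⟩
  have ha : (((j + 1 : ℕ) : ℝ) / 2 + p) ≠ 0 := by positivity
  unfold GG
  rw [D_sub, D_add, D_sub, D_mul, D_pow, D_C_mul, D_bb, bb_pow_D _ _ ha]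
  have e1 : (C 2 : ℝ⟦X⟧) * (C ((j : ℝ) + 1) * (bb ^ j * (C (1 / 2) * (X * ab (1 / 2)))) * ab (-p))
      = C ((j + 1 : ℕ) : ℝ) * VV (j + 1) p := by
    unfold VV
    have e2 : ab (1 / 2 - p) = ab (1 / 2) * ab (-p) := by rw [← ab_add]; congr 1
    have e3 : (C 2 : ℝ⟦X⟧) * C (1 / 2) = 1 := by
      rw [← map_mul, ← map_one (C (R := ℝ))]; norm_num
    rw [e2, Nat.add_sub_cancel]
    push_cast
    calc (C 2 : ℝ⟦X⟧) * (C ((j : ℝ) + 1) * (bb ^ j * (C (1 / 2) * (X * ab (1 / 2)))) * ab (-p))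
        = (C 2 * C (1 / 2)) * (C ((j : ℝ) + 1) * (bb ^ j * (X * (ab (1 / 2) * ab (-p))))) := by ring
      _ = _ := by rw [e3, one_mul]
  have e4 : (C 2 : ℝ⟦X⟧) * (C (2 ^ (j + 1) * (p / (((j + 1 : ℕ) : ℝ) / 2 + p)))
      * D (ab (-(((j + 1 : ℕ) : ℝ) / 2 + p)))) - C 2 * D (ab (-(((j + 1 : ℕ) : ℝ) / 2 + p)))
      = C (1 / (((j + 1 : ℕ) : ℝ) / 2 + p) - 2) * D (ab (-(((j + 1 : ℕ) : ℝ) / 2 + p))) := by
    rw [map_sub, sub_mul, ← mul_assoc, ← map_mul]
    congr 3
    rw [← mul_assoc, ← mul_div_assoc]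
    congr 1
    linarith
  have e5 : ∀ A B Cc T F K : ℝ⟦X⟧, C 2 * (A + (B + T) - Cc + F - C c0 * K)
      = C 2 * A + C 2 * T + (C 2 * B - C 2 * Cc) + C 2 * F - C (2 * c0) * K := by
    intro A B Cc T F K
    rw [map_mul]; ring
  have e6 : C (((j : ℝ) + 1)) = C ((j + 1 : ℕ) : ℝ) := by push_cast; rfl
  rw [e5, e4, e1]
  rfl

/-- the coefficients, from level two on -/
theorem coeff_GG (c0 : ℝ) (hl : 1 ≤ l) (hp : 0 ≤ p) (hpl : p * 2 ^ l = 1 / 2) (k : ℕ) :
    2 * ((k : ℝ) + 2) * coeff (k + 2) (GG l p c0)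
      = l * coeff (k + 2) (VV l p) + coeff (k + 2) (C 2 * TT l p)
        + (((k : ℝ) + 2 - (l / 2 + p)) ^ (k + 1)
          + 2 * (l / 2 + p) * (1 - (l / 2 + p)) * ((k : ℝ) + 2 - (l / 2 + p)) ^ k
          - 2 * c0 * (1 / 2 - p) * ((k : ℝ) + 2) * ((k : ℝ) + 2 - (1 / 2 + p)) ^ k)
          / (k + 1).factorial := by
  have h := congrArg (coeff (k + 2)) (D_GG l p c0 hl hp hpl)
  obtain ⟨κ, hκ⟩ : ∃ κ : ℝ, κ = 1 / ((l : ℝ) / 2 + p) - 2 := ⟨_, rfl⟩
  rw [← hκ] at h
  simp only [map_add, map_sub, coeff_C_mul, coeff_D] at h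
  rw [coeff_succ_X_mul, coeff_succ_X_mul, coeff_ab_succ, coeff_ab_succ, coeff_ab_succ] at h
  have ha : ((l : ℝ) / 2 + p) ≠ 0 := by
    have : (1 : ℝ) ≤ l := by exact_mod_cast hl
    positivity
  rw [coeff_C_mul]
  have f0 : (((k + 1).factorial : ℕ) : ℝ) ≠ 0 := by exact_mod_cast (k + 1).factorial_ne_zero
  have f1 : ((k : ℝ) + 1 + 1) ≠ 0 := by positivity
  have e1 : (-((l : ℝ) / 2 + p) + (((k + 1 : ℕ) : ℝ) + 1)) = (k : ℝ) + 2 - (l / 2 + p) := by
    push_cast; ring
  have e2 : (1 - ((l : ℝ) / 2 + p) + ((k : ℝ) + 1)) = (k : ℝ) + 2 - (l / 2 + p) := by ring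
  have e3 : ((1 : ℝ) / 2 - p + ((k : ℝ) + 1)) = (k : ℝ) + 2 - (1 / 2 + p) := by ring
  rw [e1, e2, e3, Nat.factorial_succ (k + 1)] at h
  push_cast at h
  set Z : ℝ := (k : ℝ) + 2 - (l / 2 + p) with hZ
  set N : ℝ := (k : ℝ) + 2 - (1 / 2 + p) with hN
  have e4 : (1 / ((l : ℝ) / 2 + p) - 2) * (((k : ℝ) + 2) * (-((l : ℝ) / 2 + p) * Z ^ (k + 1)
      / (((k : ℝ) + 1 + 1) * (k + 1).factorial)))
      = (2 * ((l : ℝ) / 2 + p) - 1) * Z ^ (k + 1) / (k + 1).factorial := by
    have e5 : (k : ℝ) + 1 + 1 = k + 2 := by ring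
    rw [e5] at f1 ⊢
    field_simp
    ring
  rw [← hκ] at e4
  rw [e4] at h
  have e6 : 2 * ((k : ℝ) + 2) * coeff (k + 2) (GG l p c0)
      = 2 * (((k : ℝ) + 2) * coeff (k + 2) (GG l p c0)) := by ring
  rw [e6, h]
  have e7 : (k : ℝ) + 2 = Z + (l / 2 + p) := by rw [hZ]; ring
  have e8 : (2 * ((l : ℝ) / 2 + p) - 1) * Z ^ (k + 1) / ((k + 1).factorial : ℝ)
      + 2 * (((k : ℝ) + 2) * ((1 - ((l : ℝ) / 2 + p)) * Z ^ k / ((k + 1).factorial : ℝ)))
      = (Z ^ (k + 1) + 2 * (l / 2 + p) * (1 - (l / 2 + p)) * Z ^ k) / ((k + 1).factorial : ℝ) := by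
    rw [e7, pow_succ]
    field_simp
    ring
  have e9 : 2 * c0 * (((k : ℝ) + 2) * ((1 / 2 - p) * N ^ k / ((k + 1).factorial : ℝ)))
      = 2 * c0 * (1 / 2 - p) * ((k : ℝ) + 2) * N ^ k / ((k + 1).factorial : ℝ) := by ring
  rw [e9, sub_div]
  linarith

end

lemma w_bounds (l : ℕ) (hl : 3 ≤ l) : ((l : ℝ) - 1) * (1 / 2) ^ l ≤ 1 / 4 := by
  induction l, hl using Nat.le_induction with
  | base => norm_num
  | succ n hn ih =>
    have h1 : (3 : ℝ) ≤ n := by exact_mod_cast hn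
    have h2 : (0 : ℝ) < (1 / 2) ^ n := by positivity
    rw [pow_succ]
    push_cast
    nlinarith

/-- **The honest star, second membership, in coefficients.** -/
theorem NN_GG (l : ℕ) (hl : 3 ≤ l) :
    NN (GG l ((1 / 2) ^ (l + 1)) (Real.exp (-(((l : ℝ) - 1) / 2)) / (1 - 2 * (1 / 2) ^ (l + 1)))) := by
  set p : ℝ := (1 / 2) ^ (l + 1) with hp
  set m : ℝ := ((l : ℝ) - 1) / 2 with hm
  set Em : ℝ := Real.exp (-m) with hEm
  have hlr : (3 : ℝ) ≤ l := by exact_mod_cast hl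
  have hp0 : 0 < p := by rw [hp]; positivity
  have hpw : 2 * p = (1 / 2) ^ l := by rw [hp, pow_succ]; ring
  have hp1 : p ≤ 1 / 16 := by
    have : ((1 : ℝ) / 2) ^ (l + 1) ≤ (1 / 2) ^ 4 :=
      pow_le_pow_of_le_one (by norm_num) (by norm_num) (by omega)
    rw [hp]; refine this.trans (by norm_num)
  have hpl : p * 2 ^ l = 1 / 2 := by
    rw [hp, pow_succ]
    have : ((1 : ℝ) / 2) ^ l * 2 ^ l = 1 := by rw [← mul_pow]; norm_num
    linear_combination (1 / 2) * this
  have hmw : m * (2 * p) ≤ 1 / 8 := by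
    have := w_bounds l hl
    rw [hpw, hm]; linarith
  have hc : 0 < 1 / 2 - p := by linarith
  have hm1 : 1 ≤ m := by rw [hm]; linarith
  have hEm0 : 0 < Em := Real.exp_pos _
  have hE1 : Real.exp (-1) * Real.exp 1 = 1 := by rw [← Real.exp_add]; norm_num
  have he2 : 2.7182818283 < Real.exp 1 := Real.exp_one_gt_d9
  have hE1u : Real.exp (-1) ≤ 0.3679 := by nlinarith [Real.exp_pos (-1)]
  have hEmu : Em ≤ 0.3679 := le_trans (Real.exp_le_exp.2 (by linarith)) hE1u
  set c0 : ℝ := Em / (1 - 2 * p) with hc0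
  have hc0' : 2 * c0 * (1 / 2 - p) = Em := by
    rw [hc0]; have : 1 - 2 * p ≠ 0 := by linarith
    field_simp
  have hTT := NN_TT l p hp0.le hp1 hpl.le
  have hVVle : LE (Ex m * (X * ab (1 / 2 - p))) (VV l p) := by
    have e : m = ((l - 1 : ℕ) : ℝ) / 2 := by
      rw [hm, Nat.cast_sub (by omega)]; norm_num
    rw [e]
    exact LE.mul (LE_Ex_bb_pow _) (LE.refl _) (NN_bb.pow _) (NN.X.mul (NN.ab hc.le))
  have hla : (l : ℝ) / 2 + p = m + (1 / 2 + p) := by rw [hm]; ring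
  have hl2m : (l : ℝ) - 1 = 2 * m := by rw [hm]; ring
  intro n
  match n with
  | 0 =>
    unfold GG
    have h0 := coeff_bb_pow_zero l
    simp only [map_sub, map_add, coeff_C_mul]
    rw [coeff_mul]
    simp [h0, coeff_ab_zero]
  | 1 =>
    have h := congrArg (coeff 1) (D_GG l p c0 (by omega) hp0.le hpl)
    have hT := hTT 1
    have hV := hVVle 1
    have hV1 : coeff 1 (Ex m * (X * ab (1 / 2 - p))) = 1 := by
      have e : Ex m * (X * ab (1 / 2 - p)) = X * (Ex m * ab (1 / 2 - p)) := by ring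
      rw [e, coeff_one_X_mul, coeff_mul]
      simp [coeff_ab_zero, coeff_Ex]
    rw [hV1] at hV
    obtain ⟨κ, hκ⟩ : ∃ κ : ℝ, κ = 1 / ((l : ℝ) / 2 + p) - 2 := ⟨_, rfl⟩
    rw [← hκ] at h
    simp only [map_add, map_sub, coeff_C_mul, coeff_D] at h hT
    have hab1 : coeff 1 (ab (-((l : ℝ) / 2 + p))) = -((l : ℝ) / 2 + p) := by
      have := coeff_ab_succ (-((l : ℝ) / 2 + p)) 0
      simpa using this
    rw [coeff_one_X_mul, coeff_one_X_mul, hab1, coeff_ab_zero, coeff_ab_zero] at h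
    have ha : ((l : ℝ) / 2 + p) ≠ 0 := by positivity
    have e1 : κ * (((1 : ℕ) : ℝ) * -((l : ℝ) / 2 + p)) = 2 * ((l : ℝ) / 2 + p) - 1 := by
      rw [hκ]
      push_cast
      field_simp
      ring
    rw [e1] at h
    have hc0b : c0 ≤ 1 := by
      rw [hc0, div_le_one (by linarith)]; linarith
    norm_num at h hT hV ⊢
    nlinarith
  | k + 2 =>
    have h := coeff_GG l p c0 (by omega) hp0.le hpl k
    rw [hc0', hla] at h
    have hT := hTT (k + 2)
    rw [map_add] at hT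
    have hV := hVVle (k + 2)
    have hfac : (0 : ℝ) < (k + 1).factorial := by exact_mod_cast (k + 1).factorial_pos
    -- it is enough to bound the numerator
    suffices hs : ∀ W : ℝ, W / (k + 1).factorial ≤ coeff (k + 2) (VV l p) →
        0 ≤ 2 * m * W + (((k : ℝ) + 2 - (m + (1 / 2 + p))) ^ (k + 1)
          + 2 * (m + (1 / 2 + p)) * (1 - (m + (1 / 2 + p))) * ((k : ℝ) + 2 - (m + (1 / 2 + p))) ^ k
          - Em * ((k : ℝ) + 2) * ((k : ℝ) + 2 - (1 / 2 + p)) ^ k) →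
        0 ≤ coeff (k + 2) (GG l p c0) by
      have hc' : (1 / 2 - p : ℝ) = 1 - (1 / 2 + p) := by ring
      rcases Nat.eq_zero_or_pos k with rfl | hk
      · -- level two
        have h2 := two_terms m (1 / 2 - p) (by linarith) hc.le 0
        apply hs _ (h2.trans hV)
        norm_num
        nlinarith
      · obtain ⟨j, rfl⟩ : ∃ j, k = j + 1 := ⟨k - 1, by omega⟩
        have h3 := three_terms m (1 / 2 - p) (by linarith) hc.le j
        apply hs _ (h3.trans hV)
        have hpm : 0 ≤ (1 / 2 - p) * (1 / 2 - p + (j + 2)) ^ (j + 1) := by positivity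
        have hpm2 : 0 ≤ ((j : ℝ) + 2) * m * ((1 / 2 - p) * (1 / 2 - p + (j + 1)) ^ j) := by positivity
        have hpm3 : 0 ≤ m ^ (j + 2) := by positivity
        set N : ℝ := ((j + 1 : ℕ) : ℝ) + 2 - (1 / 2 + p) with hN
        have hN1 : 1 / 2 - p + ((j : ℝ) + 2) = N := by rw [hN]; push_cast; ring
        have hN2 : 1 / 2 - p + ((j : ℝ) + 1) = N - 1 := by rw [hN]; push_cast; ring
        have hN3 : ((j + 1 : ℕ) : ℝ) + 2 - (m + (1 / 2 + p)) = N - m := by rw [hN]; ring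
        have hN4 : ((j + 1 : ℕ) : ℝ) + 2 = N + (1 / 2 + p) := by rw [hN]; ring
        rw [hN1, hN2, hN3, hN4]
        rw [hN1] at hpm
        rw [hN2] at hpm2
        rcases le_or_gt m N with hmN | hmN
        · rcases Nat.lt_or_ge l 4 with h4 | h4
          · have hl3 : l = 3 := by omega
            have hm' : m = 1 := by rw [hm, hl3]; norm_num
            have hp' : p = 1 / 16 := by rw [hp, hl3]; norm_num
            have key := caseA2 (1 / 2 + p) (m + (1 / 2 + p)) N Em j (by rw [hp']; norm_num)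
              (by rw [hp', hm']; norm_num) hN (by rw [hEm, hm'])
            rw [hm'] at key ⊢ hpm3 hpm2
            push_cast at key
            rw [hp'] at *
            ring_nf at key hpm3 ⊢
            nlinarith
          · have hw : 2 * p ≤ 1 / 16 := by
              rw [hpw]
              have : ((1 : ℝ) / 2) ^ l ≤ (1 / 2) ^ 4 :=
                pow_le_pow_of_le_one (by norm_num) (by norm_num) h4
              refine this.trans (by norm_num)
            have hm32 : 3 / 2 ≤ m := by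
              have : (4 : ℝ) ≤ l := by exact_mod_cast h4
              rw [hm]; linarith
            have key := caseA1 m (1 / 2 + p) (m + (1 / 2 + p)) N (2 * p) Em j (by ring) rfl
              (by linarith) hw hm32 hN hmN rfl
            have e1 : N ^ (j + 2) = N * N ^ (j + 1) := by ring
            have e2 : ((j + 1 : ℕ) : ℝ) + 1 = j + 2 := by push_cast; ring
            have e3 : (N - m) ^ (j + 1 + 1) = (N - m) ^ (j + 2) := by ring
            rw [e1, e2] at key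
            rw [e3]
            have hq' : 1 - (1 / 2 + p) = 1 / 2 - p := by ring
            rw [hq'] at key
            have : 0 ≤ 2 * m * m ^ (j + 2) := by positivity
            nlinarith
        · have key := caseB m (1 / 2 + p) (m + (1 / 2 + p)) N (2 * p) Em (j + 1) (by omega) (by ring)
            rfl (by linarith) (by linarith) (by linarith) hN hmN hEm0.le (by linarith)
          have e1 : N ^ (j + 1 + 1) = N * N ^ (j + 1) := by ring
          have e3 : m ^ (j + 1 + 1) = m ^ (j + 2) := by ring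
          rw [e1, e3] at key
          have h5 : 0 ≤ 2 * m * ((1 / 2 - p) * N ^ (j + 1)
            + ((j : ℝ) + 2) * m * ((1 / 2 - p) * (N - 1) ^ j)) := by
            apply mul_nonneg (by linarith)
            linarith
          nlinarith
    intro W hW hW2
    have h7 : 0 ≤ 2 * m * (W / (k + 1).factorial) + (((k : ℝ) + 2 - (m + (1 / 2 + p))) ^ (k + 1)
          + 2 * (m + (1 / 2 + p)) * (1 - (m + (1 / 2 + p))) * ((k : ℝ) + 2 - (m + (1 / 2 + p))) ^ k
          - Em * ((k : ℝ) + 2) * ((k : ℝ) + 2 - (1 / 2 + p)) ^ k) / (k + 1).factorial := by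
      rw [← mul_div_assoc, ← add_div]
      positivity
    have h8 : 2 * m * (W / (k + 1).factorial) ≤ 2 * m * coeff (k + 2) (VV l p) :=
      mul_le_mul_of_nonneg_left hW (by linarith)
    have h9 : 0 ≤ 2 * ((k : ℝ) + 2) * coeff (k + 2) (GG l p c0) := by
      rw [h]
      have e10 : (l : ℝ) = 2 * m + 1 := by linarith
      rw [e10]
      linarith
    have h11 : 0 < 2 * ((k : ℝ) + 2) := by positivity
    exact nonneg_of_mul_nonneg_right h9 h11

/-- **The honest star, second membership.** -/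
theorem InW_H2 (l : ℕ) (hl : 3 ≤ l) (p : ℝ) (hp : p = (1 / 2) ^ (l + 1)) :
    InW 0 (C (1 / p) * (((1 + C (1 / 2) * (X - 1)) ^ l + C (2 * p) * (X - 1)) * E (-((l : ℝ) / 2 + p)))
      - C (1 / (1 / 2 - p)) * (X * E (-(1 / 2 + p)))) := by
  have hp0 : 0 < p := by rw [hp]; positivity
  have hp1 : p ≤ 1 / 16 := by
    have : ((1 : ℝ) / 2) ^ (l + 1) ≤ (1 / 2) ^ 4 :=
      pow_le_pow_of_le_one (by norm_num) (by norm_num) (by omega)
    rw [hp]; refine this.trans (by norm_num)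
  have hpl : p * 2 ^ l = 1 / 2 := by
    rw [hp, pow_succ]
    have : ((1 : ℝ) / 2) ^ l * 2 ^ l = 1 := by rw [← mul_pow]; norm_num
    linear_combination (1 / 2) * this
  have hNN := NN_GG l hl
  rw [← hp] at hNN
  set a : ℝ := (l : ℝ) / 2 + p with ha
  set c0 : ℝ := Real.exp (-(((l : ℝ) - 1) / 2)) / (1 - 2 * p) with hc0
  refine InW.intro (τ := C (2 * Real.exp a) * GG l p c0) (hNN.smul (by positivity)) ?_
  have hbb : S bb = C 2 * ((1 + C (1 / 2) * (X - 1)) * Ex (-(1 / 2))) := by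
    unfold bb; rw [map_mul, S_C, S_kc]
  have hbbl : S (bb ^ l * ab (-p)) = C (2 ^ l) * ((1 + C (1 / 2) * (X - 1)) ^ l * Ex (-a)) := by
    rw [map_mul, map_pow, hbb, S_ab, mul_pow, mul_pow, Ex_pow, ← map_pow]
    have : Ex (-a) = Ex ((l : ℝ) * -(1 / 2)) * Ex (-p) := by
      rw [← Ex_add]; congr 1; rw [ha]; ring
    rw [this]; ring
  have h1a : S (X * ab (1 - a)) = X * Ex (-a) := by
    rw [map_mul, S_X, S_ab]
    have : Ex (-a) = Ex (-1) * Ex (1 - a) := by rw [← Ex_add]; congr 1; ring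
    rw [this]; ring
  have h1c : S (X * ab (1 / 2 - p)) = X * Ex (-(1 / 2 + p)) := by
    rw [map_mul, S_X, S_ab]
    have : Ex (-(1 / 2 + p)) = Ex (-1) * Ex (1 / 2 - p) := by rw [← Ex_add]; congr 1; ring
    rw [this]; ring
  rw [Ex_zero, one_mul, map_mul S, S_C]
  unfold GG
  rw [map_sub S, map_add S, map_sub S, map_mul S (C c0), S_C, ← ha, hbbl, h1a, h1c, S_ab, E_eq, E_eq,
    neg_neg, neg_neg]
  have k1 : (C (1 / p) : ℝ⟦X⟧) = C 2 * C (2 ^ l) := by
    rw [← map_mul]; congr 1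
    have : p ≠ 0 := hp0.ne'
    field_simp
    linarith
  have k2 : (C (1 / p) : ℝ⟦X⟧) * C (2 * p) = C 2 := by
    rw [← map_mul]; congr 1
    have : p ≠ 0 := hp0.ne'
    field_simp
  have k3 : (C (2 * Real.exp a) : ℝ⟦X⟧) = C 2 * C (Real.exp a) := by rw [map_mul]
  have k4 : (C 2 : ℝ⟦X⟧) * C (Real.exp a) * C c0 = C (1 / (1 / 2 - p)) * C (Real.exp (1 / 2 + p)) := by
    rw [← map_mul, ← map_mul, ← map_mul]; congr 1
    have h5 : Real.exp (1 / 2 + p) = Real.exp a * Real.exp (-(((l : ℝ) - 1) / 2)) := by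
      rw [← Real.exp_add]; congr 1; rw [ha]; ring
    have h6 : (1 / 2 - p) ≠ 0 := by linarith
    have h7 : (1 - 2 * p) ≠ 0 := by linarith
    rw [h5, hc0]
    field_simp
  rw [k3]
  linear_combination ((1 + C (1 / 2) * (X - 1)) ^ l * C (Real.exp a) * Ex (-a)) * k1
    + ((X - 1) * C (Real.exp a) * Ex (-a)) * k2 + (X * Ex (-(1 / 2 + p))) * k4

end Pool.Agent.Lib_helper91.SRCH
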