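import Pool.Agent.Lib_helper36.SRC.Coef

set_option autoImplicit false

/-! # The derivation `D f = X f'` on the coefficient side of the cone calculus

`S` is the substitution `t ↦ x exp (-x)`; then `S (D f) (1 - x) = x (S f)'`. -/

namespace Pool.Agent.Lib_helper91.SRCH

open Finset PowerSeries Pool.Agent.Lib_helper36.SRC

/-- `X f'` -/
noncomputable def D (f : ℝ⟦X⟧) : ℝ⟦X⟧ := X * d⁄dX ℝ f

lemma coeff_D (f : ℝ⟦X⟧) (n : ℕ) : coeff n (D f) = n * coeff n f := by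
  unfold D
  cases n with
  | zero => simp
  | succ n => rw [coeff_succ_X_mul, coeff_derivative]; push_cast; ring

lemma D_add (f g : ℝ⟦X⟧) : D (f + g) = D f + D g := by
  unfold D; rw [map_add]; ring

lemma D_sub (f g : ℝ⟦X⟧) : D (f - g) = D f - D g := by
  unfold D; rw [map_sub]; ring

lemma D_mul (f g : ℝ⟦X⟧) : D (f * g) = D f * g + f * D g := by
  unfold D; rw [Derivation.leibniz]; simp only [smul_eq_mul]; ring

lemma D_C_mul (c : ℝ) (f : ℝ⟦X⟧) : D (C c * f) = C c * D f := by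
  ext n; rw [coeff_D, coeff_C_mul, coeff_C_mul, coeff_D]; ring

lemma D_pow (f : ℝ⟦X⟧) (n : ℕ) : D (f ^ (n + 1)) = C ((n : ℝ) + 1) * (f ^ n * D f) := by
  induction n with
  | zero => simp
  | succ n ih =>
    rw [pow_succ, D_mul, ih]
    have : C (((n + 1 : ℕ) : ℝ) + 1) = C ((n : ℝ) + 1) + (1 : ℝ⟦X⟧) := by
      rw [← map_one (C (R := ℝ)), ← map_add]; push_cast; ring_nf
    rw [this]
    ring

lemma Ex_deriv (c : ℝ) : d⁄dX ℝ (Ex c) = C c * Ex c := by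
  ext n
  rw [coeff_derivative, coeff_C_mul, coeff_Ex, coeff_Ex, Nat.factorial_succ]
  push_cast
  have h1 : (n.factorial : ℝ) ≠ 0 := by exact_mod_cast n.factorial_ne_zero
  have h2 : ((n : ℝ) + 1) ≠ 0 := by positivity
  field_simp
  ring

lemma ss_deriv : d⁄dX ℝ ss = (1 - X) * Ex (-1) := by
  unfold ss
  rw [Derivation.leibniz, Ex_deriv]
  simp only [smul_eq_mul, derivative_X, map_neg, map_one]
  ring

/-- the chain rule for `S` -/
theorem S_D (f : ℝ⟦X⟧) : (1 - X) * S (D f) = X * d⁄dX ℝ (S f) := by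
  have h : d⁄dX ℝ (S f) = S (d⁄dX ℝ f) * d⁄dX ℝ ss := by
    unfold S
    rw [coe_substAlgHom]
    exact derivative_subst hasSubst_ss
  rw [h, ss_deriv]
  unfold D
  rw [map_mul, S_X]
  ring

/-- the series of `x` in powers of `x exp (-x)` -/
noncomputable def PP : ℝ⟦X⟧ := X * ab 1

lemma S_PP : S PP = X := S_X_ab

lemma one_sub_PP_ne : (1 - PP : ℝ⟦X⟧) ≠ 0 := by
  intro h
  have := congrArg (coeff 0) h
  unfold PP at this
  simp at this

theorem D_ab (c : ℝ) : (1 - PP) * D (ab c) = C c * (PP * ab c) := by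
  apply S_injective
  rw [map_mul, map_sub, map_one, S_PP, S_D, S_ab, Ex_deriv, map_mul, map_mul, S_C, S_PP, S_ab]
  ring

theorem D_kc (s : ℝ) : D (kc s) = C (s ^ 2) * (X * ab (1 - s)) := by
  ext n
  rw [coeff_D, coeff_C_mul]
  match n with
  | 0 => simp
  | 1 =>
    rw [coeff_kc_one, show (1 : ℕ) = 0 + 1 by rfl, coeff_succ_X_mul, coeff_ab_zero]; simp
  | n + 2 =>
    rw [coeff_kc, coeff_succ_X_mul, coeff_ab_succ, Nat.factorial_succ (n + 1)]
    push_cast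
    have f : (((n + 1).factorial : ℕ) : ℝ) ≠ 0 := by exact_mod_cast (n + 1).factorial_ne_zero
    have g : (n : ℝ) + 1 + 1 ≠ 0 := by positivity
    have e2 : (1 - s + ((n : ℝ) + 1)) = (n : ℝ) + 2 - s := by ring
    rw [e2, pow_succ]
    field_simp
    ring

/-- `ab c * D (ab d)` is a multiple of `D (ab (c + d))` -/
theorem ab_mul_D_ab (c d : ℝ) (h : c + d ≠ 0) :
    ab c * D (ab d) = C (d / (c + d)) * D (ab (c + d)) := by
  apply mul_left_cancel₀ one_sub_PP_ne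
  have h1 := D_ab d
  have h2 := D_ab (c + d)
  have h3 : (C d : ℝ⟦X⟧) = C (d / (c + d)) * C (c + d) := by
    rw [← map_mul]; congr 1; field_simp
  rw [ab_add] at h2 ⊢
  calc (1 - PP) * (ab c * D (ab d)) = ab c * ((1 - PP) * D (ab d)) := by ring
    _ = C (d / (c + d)) * (C (c + d) * (PP * (ab c * ab d))) := by rw [h1, h3]; ring
    _ = C (d / (c + d)) * ((1 - PP) * D (ab c * ab d)) := by rw [h2]
    _ = (1 - PP) * (C (d / (c + d)) * D (ab c * ab d)) := by ring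

/-- `(1 + x) exp (-x/2)` -/
noncomputable def bb : ℝ⟦X⟧ := C 2 * kc (1 / 2)

lemma D_bb : D bb = C (1 / 2) * (X * ab (1 / 2)) := by
  unfold bb
  rw [D_C_mul, D_kc, ← mul_assoc, ← map_mul]
  norm_num

lemma bb_sub : bb - C 2 * ab (-(1 / 2)) = - (ab (-(1 / 2)) * (1 - PP)) := by
  unfold bb kc PP
  have e1 : ab (1 - 1 / 2) = ab 1 * ab (-(1 / 2)) := by rw [← ab_add]; norm_num
  have e2 : (C 2 : ℝ⟦X⟧) * C (1 - 1 / 2) = 1 := by rw [← map_mul, ← map_one (C (R := ℝ))]; norm_num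
  have e3 : (C 2 : ℝ⟦X⟧) * C (1 / 2) = 1 := by rw [← map_mul, ← map_one (C (R := ℝ))]; norm_num
  have e4 : (C 2 : ℝ⟦X⟧) = 2 := by
    have : (2 : ℝ⟦X⟧) = 1 + 1 := by norm_num
    rw [this, ← map_one (C (R := ℝ)), ← map_add]; norm_num
  rw [e1]
  calc C 2 * (C (1 - 1 / 2) * ab (-(1 / 2)) + C (1 / 2) * (X * (ab 1 * ab (-(1 / 2))))) -
      C 2 * ab (-(1 / 2))
      = (C 2 * C (1 - 1 / 2)) * ab (-(1 / 2)) + (C 2 * C (1 / 2)) * (X * (ab 1 * ab (-(1 / 2))))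
        - C 2 * ab (-(1 / 2)) := by ring
    _ = - (ab (-(1 / 2)) * (1 - X * ab 1)) := by rw [e2, e3, e4]; ring

/-- the telescoping of `b ^ l` -/
theorem bb_pow_D (l : ℕ) (p : ℝ) (hp : (l : ℝ) / 2 + p ≠ 0) :
    bb ^ l * D (ab (-p)) = C (2 ^ l * (p / ((l : ℝ) / 2 + p))) * D (ab (-((l : ℝ) / 2 + p)))
      + ∑ i ∈ range l, C (p * 2 ^ (l - 1 - i)) *
          (bb ^ i * (X * ab (1 / 2 - p - ((l - 1 - i : ℕ) : ℝ) / 2))) := by
  have h1 : (∑ i ∈ range l, bb ^ i * (C 2 * ab (-(1 / 2))) ^ (l - 1 - i)) *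
      (bb - C 2 * ab (-(1 / 2))) = bb ^ l - (C 2 * ab (-(1 / 2))) ^ l :=
    (Commute.all _ _).geom_sum₂_mul l
  have h2 : (C 2 * ab (-(1 / 2))) ^ l = C (2 ^ l) * ab (-((l : ℝ) / 2)) := by
    rw [mul_pow, ab_pow, map_pow]; congr 2; ring
  have h3 : ab (-((l : ℝ) / 2)) * D (ab (-p))
      = C (p / ((l : ℝ) / 2 + p)) * D (ab (-((l : ℝ) / 2 + p))) := by
    have e : -((l : ℝ) / 2) + -p = -((l : ℝ) / 2 + p) := by ring
    rw [ab_mul_D_ab _ _ (by rw [e]; exact neg_ne_zero.2 hp), e, neg_div_neg_eq]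
  have h4 : bb ^ l = (C 2 * ab (-(1 / 2))) ^ l + (∑ i ∈ range l, bb ^ i *
      (C 2 * ab (-(1 / 2))) ^ (l - 1 - i)) * (bb - C 2 * ab (-(1 / 2))) := by rw [h1]; ring
  rw [h4, add_mul, h2, mul_assoc, h3, ← mul_assoc, ← map_mul]
  congr 1
  rw [bb_sub, mul_assoc]
  have h5 : -(ab (-(1 / 2)) * (1 - PP)) * D (ab (-p)) = C p * (X * ab (1 / 2 - p)) := by
    have e : ab (1 / 2 - p) = ab (-(1 / 2)) * (ab 1 * ab (-p)) := by
      rw [← ab_add, ← ab_add]; congr 1; ring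
    have := D_ab (-p)
    rw [e]
    calc -(ab (-(1 / 2)) * (1 - PP)) * D (ab (-p)) = - (ab (-(1 / 2)) * ((1 - PP) * D (ab (-p)))) := by
          ring
      _ = C p * (X * (ab (-(1 / 2)) * (ab 1 * ab (-p)))) := by
          rw [this]; unfold PP; rw [map_neg]; ring
  rw [h5, sum_mul]
  apply sum_congr rfl
  intro i _
  have e6 : ab (1 / 2 - p - ((l - 1 - i : ℕ) : ℝ) / 2)
      = ab (-(1 / 2)) ^ (l - 1 - i) * ab (1 / 2 - p) := by
    rw [ab_pow, ← ab_add]; congr 1; ring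
  rw [mul_pow, e6, map_mul, map_pow]
  ring

end Pool.Agent.Lib_helper91.SRCH
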