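import Pool.Agent.Lib_helper91.SRCH.H2

set_option autoImplicit false

/-! # The derivative form of the second membership, honest child, `l ≥ 21` -/

namespace Pool.Agent.Lib_helper91.SRCH

open Finset PowerSeries Pool.Agent.Lib_helper36.SRC

lemma X_ab (c : ℝ) : X * ab c = PP * ab (c - 1) := by
  unfold PP
  have : ab c = ab 1 * ab (c - 1) := by rw [← ab_add]; congr 1; ring
  rw [this]; ring

lemma D_PP : (1 - PP) * D PP = PP := by
  have h := D_ab 1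
  have hX : D X = X := by unfold D; simp
  unfold PP at *
  rw [D_mul, hX]
  rw [map_one, one_mul] at h
  linear_combination X * h

lemma bb_eq : bb = (1 + PP) * ab (-(1 / 2)) := by
  have h := bb_sub
  have e4 : (C 2 : ℝ⟦X⟧) = 2 := by
    have : (2 : ℝ⟦X⟧) = 1 + 1 := by norm_num
    rw [this, ← map_one (C (R := ℝ)), ← map_add]; norm_num
  rw [e4] at h
  linear_combination h

lemma D_C (c : ℝ) : D (C c) = 0 := by
  unfold D; simp

/-- quadratic polynomials in `x` -/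
noncomputable def qq (a b c : ℝ) : ℝ⟦X⟧ := C a + C b * PP + C c * PP ^ 2

lemma D_qq (a b c : ℝ) : (1 - PP) * D (qq a b c) = PP * (C b + C 2 * C c * PP) := by
  have h := D_PP
  have h2 : D (PP ^ 2) = C 2 * (PP * D PP) := by
    have := D_pow PP 1
    norm_num at this
    rw [this]
  unfold qq
  rw [D_add, D_add, D_C, D_C_mul, D_C_mul, h2]
  linear_combination (C b + C 2 * C c * PP) * h

/-- the geometric sum -/
noncomputable def T2 (l : ℕ) (θ : ℝ) : ℝ⟦X⟧ := ∑ i ∈ range l, C ((1 / 2) ^ (i + 1)) *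
  (bb ^ i * (X * ab (1 - θ - ((l - i : ℕ) : ℝ) / 2)))

lemma T2_eq (l : ℕ) (θ p : ℝ) (hp : p * 2 ^ (l + 1) = 1) :
    (1 - PP) * T2 l θ = PP * ab (-((l : ℝ) / 2 + θ)) - C (2 * p) * (PP * (bb ^ l * ab (-θ))) := by
  have hbp : ∀ i : ℕ, bb ^ i = (1 + PP) ^ i * ab (-((i : ℝ) / 2)) := by
    intro i
    rw [bb_eq, mul_pow, ab_pow]; congr 2; ring
  have h1 : T2 l θ = PP * ab (-((l : ℝ) / 2 + θ)) * (C (1 / 2) *
      ∑ i ∈ range l, (C (1 / 2) * (1 + PP)) ^ i) := by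
    unfold T2
    rw [mul_sum, mul_sum]
    apply sum_congr rfl
    intro i hi
    have hi' : i ≤ l := (mem_range.1 hi).le
    have e1 : ab (-((l : ℝ) / 2 + θ)) = ab (-((i : ℝ) / 2)) * ab (1 - θ - ((l - i : ℕ) : ℝ) / 2 - 1) := by
      rw [← ab_add]; congr 1; rw [Nat.cast_sub hi']; ring
    rw [X_ab, hbp, mul_pow, e1, ← map_pow, pow_succ, map_mul]
    ring
  have h2 : (∑ i ∈ range l, (C (1 / 2) * (1 + PP)) ^ i) * (C (1 / 2) * (1 + PP) - 1)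
      = (C (1 / 2) * (1 + PP)) ^ l - 1 := geom_sum_mul _ _
  have h3 : (C (1 / 2) : ℝ⟦X⟧) + C (1 / 2) = 1 := by
    rw [← map_add, ← map_one (C (R := ℝ))]; norm_num
  have h4 : (C (1 / 2) * (1 + PP)) ^ l * ab (-((l : ℝ) / 2 + θ)) = C (2 * p) * (bb ^ l * ab (-θ)) := by
    rw [hbp, mul_pow, ← map_pow]
    have e1 : ab (-((l : ℝ) / 2 + θ)) = ab (-((l : ℝ) / 2)) * ab (-θ) := by
      rw [← ab_add]; congr 1; ring
    have e2 : ((1 : ℝ) / 2) ^ l = 2 * p := by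
      have h5 : ((1 : ℝ) / 2) ^ l * 2 ^ l = 1 := by rw [← mul_pow]; norm_num
      have h6 : (2 : ℝ) ^ l ≠ 0 := by positivity
      apply mul_right_cancel₀ h6
      rw [h5]
      rw [pow_succ] at hp
      linarith
    rw [e1, e2]
    ring
  rw [h1]
  linear_combination (-(PP * ab (-((l : ℝ) / 2 + θ)))) * h2 - PP * h4
    + (PP * ab (-((l : ℝ) / 2 + θ)) * (∑ i ∈ range l, (C (1 / 2) * (1 + PP)) ^ i)) * h3

/-- **The derivative form.** -/
theorem D_B0 (j : ℕ) (θ ω p q0 q1 q2 r0 r1 r2 L0 L1 S0 S1 S2 : ℝ)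
    (hp : p * 2 ^ (j + 1 + 1) = 1) (hω : ω = ((j : ℝ) + 1) / 2 + θ)
    (hq0 : q1 - θ * q0 + p = L0) (hq1 : 2 * q2 - θ * q1 = L1 - L0) (hq2 : θ * q2 = L1)
    (hr0 : ω * r0 + r0 - r1 - 1 = S0) (hr1 : ω * (r1 - r0) + 2 * r1 - 2 * r2 = S1 - S0)
    (hr2 : ω * (r2 - r1) + 3 * r2 = S2 - S1) (hr3 : ω * r2 = S2) :
    D (C 2 * (bb ^ (j + 1) * ab (-θ)) * qq q0 q1 q2 + ab (-ω) * ((PP - 1) * qq r0 r1 r2))
      = bb ^ j * (X * (ab (1 / 2 - θ) * qq (((j : ℝ) + 1) * q0 + 2 * L0)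
          (((j : ℝ) + 1) * q1 + 2 * (L0 + L1)) (((j : ℝ) + 1) * q2 + 2 * L1)))
        + T2 (j + 1) θ + X * (ab (1 - ω) * qq S0 S1 S2) := by
  apply mul_left_cancel₀ one_sub_PP_ne
  have c2 : (C 2 : ℝ⟦X⟧) = 2 := by
    have : (2 : ℝ⟦X⟧) = 1 + 1 := by norm_num
    rw [this, ← map_one (C (R := ℝ)), ← map_add]; norm_num
  have c3 : (C 3 : ℝ⟦X⟧) = 3 := by
    have : (3 : ℝ⟦X⟧) = 1 + 1 + 1 := by norm_num
    rw [this, ← map_one (C (R := ℝ)), ← map_add, ← map_add]; norm_num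
  have hh : (C (1 / 2) : ℝ⟦X⟧) * 2 = 1 := by
    rw [← c2, ← map_mul, ← map_one (C (R := ℝ))]; norm_num
  -- images of the scalar relations
  have k0 := congrArg (C (R := ℝ)) hq0
  have k1 := congrArg (C (R := ℝ)) hq1
  have k2 := congrArg (C (R := ℝ)) hq2
  have t0 := congrArg (C (R := ℝ)) hr0
  have t1 := congrArg (C (R := ℝ)) hr1
  have t2 := congrArg (C (R := ℝ)) hr2
  have t3 := congrArg (C (R := ℝ)) hr3
  simp only [map_add, map_sub, map_mul, map_one, c2, c3] at k0 k1 k2 t0 t1 t2 t3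
  have hT := T2_eq (j + 1) θ p hp
  have hω' : (((j + 1 : ℕ) : ℝ)) / 2 + θ = ω := by rw [hω]; push_cast; ring
  rw [hω', map_mul, c2] at hT
  -- the pieces
  have ea : ab (-(1 / 2)) * ab (-θ) = ab (-(1 / 2) - θ) := by rw [← ab_add]; congr 1
  have e1 : X * ab (1 / 2 - θ) = PP * ab (-(1 / 2) - θ) := by rw [X_ab]; congr 2; ring
  have e2 : X * ab (1 - ω) = PP * ab (-ω) := by rw [X_ab]; congr 2; ring
  have eb : bb ^ (j + 1) * ab (-θ) = (1 + PP) * (bb ^ j * ab (-(1 / 2) - θ)) := by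
    rw [pow_succ, ← ea]
    nth_rewrite 2 [bb_eq]
    ring
  have dbb : D bb = C (1 / 2) * (PP * ab (-(1 / 2))) := by
    rw [D_bb, X_ab]; congr 3; norm_num
  have d1 : (1 - PP) * D (bb ^ (j + 1) * ab (-θ)) = PP * (bb ^ j * ab (-(1 / 2) - θ)) *
      (C (1 / 2) * C ((j : ℝ) + 1) * (1 - PP) - C θ * (1 + PP)) := by
    rw [D_mul, D_pow, dbb, mul_add]
    have h1 := D_ab (-θ)
    rw [map_neg] at h1
    rw [← ea]
    have h2 : bb ^ (j + 1) = bb ^ j * ((1 + PP) * ab (-(1 / 2))) := by rw [pow_succ, ← bb_eq]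
    rw [h2]
    linear_combination (bb ^ j * ((1 + PP) * ab (-(1 / 2)))) * h1
  have d2 : (1 - PP) * D (ab (-ω)) = - (C ω * (PP * ab (-ω))) := by
    rw [D_ab, map_neg]; ring
  have d3 := D_qq q0 q1 q2
  have d4 := D_qq r0 r1 r2
  have d5 : (1 - PP) * D (PP - 1) = PP := by
    have : D (PP - 1) = D PP := by
      rw [D_sub, show (1 : ℝ⟦X⟧) = C 1 by rw [map_one], D_C, sub_zero]
    rw [this, D_PP]
  rw [c2] at d3 d4
  have hD : (1 - PP) * D (C 2 * (bb ^ (j + 1) * ab (-θ)) * qq q0 q1 q2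
      + ab (-ω) * ((PP - 1) * qq r0 r1 r2))
      = 2 * (((1 - PP) * D (bb ^ (j + 1) * ab (-θ))) * qq q0 q1 q2
        + (bb ^ (j + 1) * ab (-θ)) * ((1 - PP) * D (qq q0 q1 q2)))
        + (((1 - PP) * D (ab (-ω))) * ((PP - 1) * qq r0 r1 r2)
        + ab (-ω) * (((1 - PP) * D (PP - 1)) * qq r0 r1 r2
          + (PP - 1) * ((1 - PP) * D (qq r0 r1 r2)))) := by
    rw [D_add, mul_assoc (C 2), D_C_mul, D_mul (bb ^ (j + 1) * ab (-θ)), D_mul (ab (-ω)),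
      D_mul (PP - 1), c2]
    ring
  rw [hD, d1, d2, d3, d4, d5, eb]
  have hR : ∀ u v w : ℝ⟦X⟧, (1 - PP) * (u + v + w) = (1 - PP) * u + (1 - PP) * v + (1 - PP) * w := by
    intro u v w; ring
  rw [hR, hT, eb]
  have e3 : bb ^ j * (X * (ab (1 / 2 - θ) * qq (((j : ℝ) + 1) * q0 + 2 * L0)
          (((j : ℝ) + 1) * q1 + 2 * (L0 + L1)) (((j : ℝ) + 1) * q2 + 2 * L1)))
      = PP * (bb ^ j * ab (-(1 / 2) - θ)) * qq (((j : ℝ) + 1) * q0 + 2 * L0)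
          (((j : ℝ) + 1) * q1 + 2 * (L0 + L1)) (((j : ℝ) + 1) * q2 + 2 * L1) := by
    linear_combination (bb ^ j * qq (((j : ℝ) + 1) * q0 + 2 * L0)
          (((j : ℝ) + 1) * q1 + 2 * (L0 + L1)) (((j : ℝ) + 1) * q2 + 2 * L1)) * e1
  have e4 : X * (ab (1 - ω) * qq S0 S1 S2) = PP * ab (-ω) * qq S0 S1 S2 := by
    linear_combination (qq S0 S1 S2) * e2
  rw [e3, e4]
  unfold qq
  simp only [map_add, map_mul, c2, map_one]
  set A : ℝ⟦X⟧ := bb ^ j * ab (-(1 / 2) - θ) with hA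
  set P : ℝ⟦X⟧ := PP with hP
  set W : ℝ⟦X⟧ := ab (-ω) with hW
  linear_combination (PP * A * (C (j : ℝ) + 1) * (1 - PP) * (C q0 + C q1 * PP + C q2 * PP ^ 2)) * hh
    + (2 * PP * A * (1 + PP)) * (k0 + PP * k1 - PP ^ 2 * k2)
    + (PP * W) * (t0 + PP * t1 + PP ^ 2 * t2 - PP ^ 3 * t3)

end Pool.Agent.Lib_helper91.SRCH
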