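import Pool.Agent.Lib_helper91.SRCH.Num

set_option autoImplicit false

/-! # Real inequalities for the honest child, `l ≥ 21` -/

namespace Pool.Agent.Lib_helper91.SRCH

open Finset

lemma exp_two_lt : Real.exp 2 < 7.3891 := by
  have h1 : Real.exp 1 < 2.7182818286 := Real.exp_one_lt_d9
  have h2 : Real.exp 2 = Real.exp 1 ^ 2 := by rw [← Real.exp_nat_mul]; norm_num
  rw [h2]
  have h3 : 0 < Real.exp 1 := Real.exp_pos 1
  nlinarith

lemma exp_two_gt : 7.389 < Real.exp 2 := by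
  have h1 : 2.7182818283 < Real.exp 1 := Real.exp_one_gt_d9
  have h2 : Real.exp 2 = Real.exp 1 ^ 2 := by rw [← Real.exp_nat_mul]; norm_num
  rw [h2]
  nlinarith

/-- `2u ≤ log ((1 + u)/(1 - u))` in exponential form -/
lemma exp_le_frac (v : ℝ) (h0 : 0 ≤ v) (h2 : v < 2) : Real.exp v ≤ (2 + v) / (2 - v) := by
  have hx : |v / 2| < 1 := by rw [abs_lt]; constructor <;> linarith
  have h := Real.hasSum_log_sub_log_of_abs_lt_one hx
  have h3 : v ≤ Real.log (1 + v / 2) - Real.log (1 - v / 2) := by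
    have := h.summable.sum_le_tsum (Finset.range 1) (fun i _ => by positivity)
    rw [h.tsum_eq] at this
    simp at this
    linarith
  have e : (2 + v) / (2 - v) = (1 + v / 2) / (1 - v / 2) := by
    rw [div_eq_div_iff (by linarith) (by linarith)]; ring
  have h4 : 0 < 1 - v / 2 := by linarith
  have h5 : 0 < 1 + v / 2 := by linarith
  rw [e, ← Real.log_le_log_iff (Real.exp_pos v) (by positivity), Real.log_exp,
    Real.log_div h5.ne' h4.ne']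
  exact h3

/-- `exp (2/(t+1)) ≤ (t+2)/t` -/
lemma exp_le_step (t : ℝ) (ht : 0 < t) : Real.exp (2 / (t + 1)) ≤ (t + 2) / t := by
  have h := exp_le_frac (2 / (t + 1)) (by positivity) (by rw [div_lt_iff₀ (by linarith)]; linarith)
  refine h.trans (le_of_eq ?_)
  have h1 : (2 : ℝ) - 2 / (t + 1) = 2 * t / (t + 1) := by field_simp; ring
  have h2 : (2 : ℝ) + 2 / (t + 1) = 2 * (t + 2) / (t + 1) := by field_simp; ring
  rw [h1, h2]
  field_simp

/-- the second difference of the coefficients of `exp (c x)` -/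
lemma klem (j : ℕ) (hj : 1 ≤ j) (c : ℝ) (hc : 0 ≤ c) :
    ((j : ℝ) - 1) * (Real.exp 2 * ((j : ℝ) + c) ^ (j - 1) * (((j : ℝ) + 1) * (j + 2)))
      ≤ ((j : ℝ) + 4) * ((j : ℝ) + 2 + c) ^ (j + 1) := by
  have hj1 : (1 : ℝ) ≤ j := by exact_mod_cast hj
  rcases hj.eq_or_lt with rfl | hj2
  · norm_num; positivity
  have hj2' : (2 : ℝ) ≤ j := by exact_mod_cast hj2
  set t : ℝ := (j : ℝ) + c with ht
  have ht0 : 0 < t := by linarith
  obtain ⟨k, rfl⟩ : ∃ k, j = k + 1 := ⟨j - 1, by omega⟩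
  have hk : ((k + 1 : ℕ) : ℝ) = k + 1 := by push_cast; ring
  rw [Nat.add_sub_cancel]
  set v : ℝ := 2 * (c + 2) / (t + 1) with hv
  have hv0 : 0 ≤ v := by rw [hv]; positivity
  have hk1 : (1 : ℝ) ≤ k := by rw [hk] at hj2'; linarith
  have hv2 : v < 2 := by
    rw [hv, div_lt_iff₀ (by linarith), ht, hk]; linarith
  have h1 : Real.exp v ≤ ((k : ℝ) + 1 + 2 * c + 3) / k := by
    refine (exp_le_frac v hv0 hv2).trans (le_of_eq ?_)
    have e1 : 2 - v = 2 * k / (t + 1) := by rw [hv, ht, hk]; field_simp; ring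
    have e2 : 2 + v = 2 * ((k : ℝ) + 1 + 2 * c + 3) / (t + 1) := by
      rw [hv, ht, hk]; field_simp; ring
    rw [e1, e2]; field_simp
  have h2 : Real.exp ((k : ℝ) * (2 / (t + 1))) ≤ ((t + 2) / t) ^ k := by
    rw [Real.exp_nat_mul]
    exact pow_le_pow_left₀ (Real.exp_pos _).le (exp_le_step t ht0) k
  have h3 : (k : ℝ) * (2 / (t + 1)) = 2 - v := by
    rw [hv, ht, hk]; field_simp; ring
  rw [h3, Real.exp_sub] at h2
  have h4 : Real.exp 2 * k ≤ ((k : ℝ) + 1 + 2 * c + 3) * ((t + 2) / t) ^ k := by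
    have h5 : Real.exp 2 ≤ ((t + 2) / t) ^ k * Real.exp v := by
      rwa [div_le_iff₀ (Real.exp_pos v)] at h2
    have h6 : 0 ≤ ((t + 2) / t) ^ k := by positivity
    have h7 : Real.exp v * k ≤ (k : ℝ) + 1 + 2 * c + 3 := by
      rwa [le_div_iff₀ (by linarith)] at h1
    calc Real.exp 2 * k ≤ (((t + 2) / t) ^ k * Real.exp v) * k :=
          mul_le_mul_of_nonneg_right h5 (by linarith)
      _ = ((t + 2) / t) ^ k * (Real.exp v * k) := by ring
      _ ≤ ((t + 2) / t) ^ k * ((k : ℝ) + 1 + 2 * c + 3) := mul_le_mul_of_nonneg_left h7 h6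
      _ = _ := by ring
  have htk : 0 < t ^ k := by positivity
  have h8 : Real.exp 2 * k * t ^ k ≤ ((k : ℝ) + 1 + 2 * c + 3) * (t + 2) ^ k := by
    calc Real.exp 2 * k * t ^ k ≤ (((k : ℝ) + 1 + 2 * c + 3) * ((t + 2) / t) ^ k) * t ^ k :=
          mul_le_mul_of_nonneg_right h4 htk.le
      _ = ((k : ℝ) + 1 + 2 * c + 3) * (t + 2) ^ k := by
          rw [div_pow]; field_simp
  have e3 : ((k + 1 : ℕ) : ℝ) + 2 + c = t + 2 := by rw [ht]; ring
  have e4 : (t + 2) ^ (k + 1 + 1) = (t + 2) ^ k * (t + 2) ^ 2 := by ring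
  rw [e3, e4]
  have h9 : 0 ≤ (t + 2) ^ k := by positivity
  have h10 : (((k + 1 : ℕ) : ℝ) + 1) * (((k + 1 : ℕ) : ℝ) + 2) * ((k : ℝ) + 1 + 2 * c + 3)
      ≤ (((k + 1 : ℕ) : ℝ) + 4) * (t + 2) ^ 2 := by
    rw [ht, hk]
    nlinarith [mul_nonneg hc hc, mul_nonneg hc (show (0 : ℝ) ≤ k by linarith),
      mul_nonneg (mul_nonneg hc hc) (show (0 : ℝ) ≤ k by linarith),
      mul_nonneg (show (0 : ℝ) ≤ k by linarith) (show (0 : ℝ) ≤ k by linarith),
      mul_nonneg hc (mul_nonneg (show (0 : ℝ) ≤ k by linarith) (show (0 : ℝ) ≤ k by linarith))]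
  have h11 : 0 ≤ (((k + 1 : ℕ) : ℝ) + 1) * (((k + 1 : ℕ) : ℝ) + 2) := by positivity
  calc (((k + 1 : ℕ) : ℝ) - 1) * (Real.exp 2 * t ^ k * ((((k + 1 : ℕ) : ℝ) + 1) * (((k + 1 : ℕ) : ℝ) + 2)))
      = ((((k + 1 : ℕ) : ℝ) + 1) * (((k + 1 : ℕ) : ℝ) + 2)) * (Real.exp 2 * k * t ^ k) := by
        rw [hk]; ring
    _ ≤ ((((k + 1 : ℕ) : ℝ) + 1) * (((k + 1 : ℕ) : ℝ) + 2)) *
        (((k : ℝ) + 1 + 2 * c + 3) * (t + 2) ^ k) := mul_le_mul_of_nonneg_left h8 h11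
    _ = ((((k + 1 : ℕ) : ℝ) + 1) * (((k + 1 : ℕ) : ℝ) + 2) * ((k : ℝ) + 1 + 2 * c + 3)) *
        (t + 2) ^ k := by ring
    _ ≤ ((((k + 1 : ℕ) : ℝ) + 4) * (t + 2) ^ 2) * (t + 2) ^ k :=
        mul_le_mul_of_nonneg_right h10 h9
    _ = _ := by ring

/-- the coefficients of `exp (-c x)` -/
lemma alem (j : ℕ) (hj : 1 ≤ j) (c : ℝ) (hc : 0 ≤ c) (hc1 : c < 1) :
    ((j : ℝ) + 2 - c) ^ (j + 1) ≤ Real.exp 2 * (((j : ℝ) + 1) * (j + 2)) * ((j : ℝ) - c) ^ (j - 1) := by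
  have hj1 : (1 : ℝ) ≤ j := by exact_mod_cast hj
  obtain ⟨k, rfl⟩ : ∃ k, j = k + 1 := ⟨j - 1, by omega⟩
  have hk : ((k + 1 : ℕ) : ℝ) = k + 1 := by push_cast; ring
  have hk0 : (0 : ℝ) ≤ k := Nat.cast_nonneg k
  rw [Nat.add_sub_cancel, hk]
  set t : ℝ := (k : ℝ) + 1 - c with ht
  have ht0 : 0 < t := by linarith
  have e0 : (k : ℝ) + 1 + 2 - c = t + 2 := by rw [ht]; ring
  rw [e0]
  set y : ℝ := 2 * (1 - c) / t with hy
  have hy0 : 0 ≤ y := by rw [hy]; apply div_nonneg <;> linarith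
  -- `(t+2)^k ≤ t^k exp (2 - y)`
  have h1 : (t + 2) ^ k ≤ t ^ k * Real.exp (2 - y) := by
    have h2 : t + 2 ≤ t * Real.exp (2 / t) := by
      have := Real.add_one_le_exp (2 / t)
      calc t + 2 = t * (2 / t + 1) := by field_simp; ring
        _ ≤ _ := mul_le_mul_of_nonneg_left this ht0.le
    have h3 : (t + 2) ^ k ≤ (t * Real.exp (2 / t)) ^ k := pow_le_pow_left₀ (by linarith) h2 k
    rw [mul_pow, ← Real.exp_nat_mul] at h3
    have h4 : (k : ℝ) * (2 / t) = 2 - y := by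
      rw [hy]; field_simp; rw [ht]; ring
    rw [h4] at h3
    exact h3
  have h5 : (t + 2) ^ 2 ≤ (((k : ℝ) + 1 + 1) * ((k : ℝ) + 1 + 2)) * Real.exp y := by
    have h6 : 1 + y ≤ Real.exp y := by have := Real.add_one_le_exp y; linarith
    have h7 : 0 ≤ ((k : ℝ) + 1 + 1) * ((k : ℝ) + 1 + 2) := by positivity
    refine le_trans ?_ (mul_le_mul_of_nonneg_left h6 h7)
    have h8 : ((k : ℝ) + 1 + 1) * ((k : ℝ) + 1 + 2) * y ≥ 2 * (1 - c) * ((k : ℝ) + 1 + 2) := by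
      have h9 : 2 * (1 - c) ≤ ((k : ℝ) + 1 + 1) * y := by
        rw [hy, mul_div_assoc', le_div_iff₀ ht0]
        have : 0 ≤ 2 * (1 - c) := by linarith
        nlinarith
      have h10 : 0 ≤ (k : ℝ) + 1 + 2 := by positivity
      nlinarith
    rw [ht]
    nlinarith
  have h11 : Real.exp (2 - y) * Real.exp y = Real.exp 2 := by rw [← Real.exp_add]; congr 1; ring
  have htk : 0 ≤ t ^ k := by positivity
  calc (t + 2) ^ (k + 1 + 1) = (t + 2) ^ k * (t + 2) ^ 2 := by ring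
    _ ≤ (t ^ k * Real.exp (2 - y)) * ((((k : ℝ) + 1 + 1) * ((k : ℝ) + 1 + 2)) * Real.exp y) :=
        mul_le_mul h1 h5 (by positivity) (by positivity)
    _ = (Real.exp (2 - y) * Real.exp y) * (((k : ℝ) + 1 + 1) * ((k : ℝ) + 1 + 2)) * t ^ k := by ring
    _ = _ := by rw [h11]

/-- growth of the coefficients of `exp (s x)` -/
lemma rlem (k : ℕ) (hk : 4 ≤ k) (s : ℝ) (hs0 : 0 ≤ s) (hs : s ≤ 1 / 4) :
    1.7 * (((k : ℝ) + 1) * ((k : ℝ) + s) ^ (k - 1)) ≤ ((k : ℝ) + 1 + s) ^ k := by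
  obtain ⟨i, rfl⟩ : ∃ i, k = i + 4 := ⟨k - 4, by omega⟩
  have hi : (0 : ℝ) ≤ i := Nat.cast_nonneg i
  have e : i + 4 - 1 = i + 3 := by omega
  have hk' : ((i + 4 : ℕ) : ℝ) = i + 4 := by push_cast; ring
  rw [e, hk']
  set t : ℝ := (i : ℝ) + 4 + s with ht
  have ht0 : 0 < t := by linarith
  have h1 := one_add_mul_le_pow (a := 1 / t) (by
    have : 0 < 1 / t := by positivity
    linarith) (i + 3)
  have h2 : (1.7 : ℝ) ≤ 1 + ((i + 3 : ℕ) : ℝ) * (1 / t) := by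
    have : (0.7 : ℝ) ≤ ((i + 3 : ℕ) : ℝ) * (1 / t) := by
      rw [mul_one_div, le_div_iff₀ ht0, ht]; push_cast; linarith
    linarith
  have h3 : 1.7 * t ^ (i + 3) ≤ (t + 1) ^ (i + 3) := by
    have h4 : (t + 1) ^ (i + 3) = t ^ (i + 3) * (1 + 1 / t) ^ (i + 3) := by
      rw [← mul_pow]; congr 1; field_simp
    rw [h4, mul_comm]
    exact mul_le_mul_of_nonneg_left (h2.trans h1) (by positivity)
  have e2 : (i : ℝ) + 4 + 1 + s = t + 1 := by rw [ht]; ring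
  rw [e2]
  have h5 : (i : ℝ) + 4 + 1 ≤ t + 1 := by linarith
  have h6 : 0 ≤ (t + 1) ^ (i + 3) := by positivity
  calc 1.7 * (((i : ℝ) + 4 + 1) * t ^ (i + 3)) = ((i : ℝ) + 4 + 1) * (1.7 * t ^ (i + 3)) := by ring
    _ ≤ ((i : ℝ) + 4 + 1) * (t + 1) ^ (i + 3) := mul_le_mul_of_nonneg_left h3 (by linarith)
    _ ≤ (t + 1) * (t + 1) ^ (i + 3) := mul_le_mul_of_nonneg_right h5 h6
    _ = (t + 1) ^ (i + 4) := by ring

/-- comparison of `exp (s x)` with `exp (c x)` -/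
lemma clem (k : ℕ) (hk : 1 ≤ k) (s c : ℝ) (hs0 : 0 ≤ s) (hsc : s ≤ c) (hd : c - s ≤ 0.2501) :
    0.7499 * ((k : ℝ) + c) ^ (k - 1) ≤ ((k : ℝ) + s) ^ (k - 1) := by
  have hk1 : (1 : ℝ) ≤ k := by exact_mod_cast hk
  have hc : 0 < (k : ℝ) + c := by linarith
  have h1 := one_add_mul_le_pow (a := - ((c - s) / ((k : ℝ) + c))) (by
    have : (c - s) / ((k : ℝ) + c) ≤ 1 := by rw [div_le_one hc]; linarith
    linarith) (k - 1)
  have h2 : (0.7499 : ℝ) ≤ 1 + ((k - 1 : ℕ) : ℝ) * (- ((c - s) / ((k : ℝ) + c))) := by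
    have h3 : ((k - 1 : ℕ) : ℝ) * ((c - s) / ((k : ℝ) + c)) ≤ c - s := by
      rw [← mul_div_assoc, div_le_iff₀ hc, Nat.cast_sub hk]
      push_cast
      have : 0 ≤ c - s := by linarith
      nlinarith
    linarith
  have h4 : ((k : ℝ) + s) ^ (k - 1) = ((k : ℝ) + c) ^ (k - 1) *
      (1 + - ((c - s) / ((k : ℝ) + c))) ^ (k - 1) := by
    rw [← mul_pow]; congr 1; field_simp; ring
  rw [h4, mul_comm]
  exact mul_le_mul_of_nonneg_left (h2.trans h1) (by positivity)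

/-- the size of `t^t` against the coefficients of `exp (s x)` -/
lemma ylem (t : ℕ) (ht : 9 ≤ t) (s : ℝ) (hs0 : 0 ≤ s) :
    (t : ℝ) ^ t ≤ 7.4816 * (((t : ℝ) + 1) * t * (t - 1)) * ((t : ℝ) - 2 + s) ^ (t - 3) := by
  obtain ⟨i, rfl⟩ : ∃ i, t = i + 9 := ⟨t - 9, by omega⟩
  have hi : (0 : ℝ) ≤ i := Nat.cast_nonneg i
  have e : i + 9 - 3 = i + 6 := by omega
  have hk' : ((i + 9 : ℕ) : ℝ) = i + 9 := by push_cast; ring
  rw [e, hk']
  set T : ℝ := (i : ℝ) + 9 with hT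
  set a : ℝ := T - 2 + s with ha
  have ha0 : 0 < a := by linarith
  have h1 : T ^ (i + 6) ≤ Real.exp 2 * a ^ (i + 6) := by
    have h2 : T ≤ a * Real.exp ((2 - s) / a) := by
      have := Real.add_one_le_exp ((2 - s) / a)
      calc T = a * ((2 - s) / a + 1) := by field_simp; rw [ha]; ring
        _ ≤ _ := mul_le_mul_of_nonneg_left this ha0.le
    have h3 : T ^ (i + 6) ≤ (a * Real.exp ((2 - s) / a)) ^ (i + 6) :=
      pow_le_pow_left₀ (by linarith) h2 _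
    rw [mul_pow, ← Real.exp_nat_mul] at h3
    have h4 : ((i + 6 : ℕ) : ℝ) * ((2 - s) / a) ≤ 2 := by
      rw [← mul_div_assoc, div_le_iff₀ ha0, ha, hT]; push_cast
      nlinarith
    calc T ^ (i + 6) ≤ a ^ (i + 6) * Real.exp (((i + 6 : ℕ) : ℝ) * ((2 - s) / a)) := h3
      _ ≤ a ^ (i + 6) * Real.exp 2 := mul_le_mul_of_nonneg_left (Real.exp_le_exp.2 h4) (by positivity)
      _ = _ := by ring
  have he := exp_two_lt
  have h5 : T ^ (i + 6) ≤ 7.3891 * a ^ (i + 6) := by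
    refine h1.trans (mul_le_mul_of_nonneg_right he.le (by positivity))
  have h6 : 7.3891 * T ^ 3 ≤ 7.4816 * ((T + 1) * T * (T - 1)) := by
    have : (9 : ℝ) ≤ T := by linarith
    nlinarith [mul_nonneg (show (0 : ℝ) ≤ T by linarith) (show (0 : ℝ) ≤ T - 9 by linarith),
      mul_nonneg (mul_nonneg (show (0 : ℝ) ≤ T by linarith) (show (0 : ℝ) ≤ T by linarith)) (show (0 : ℝ) ≤ T - 9 by linarith)]
  have h7 : 0 ≤ a ^ (i + 6) := by positivity
  have hT3 : 0 ≤ T ^ 3 := by positivity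
  calc T ^ (i + 9) = T ^ 3 * T ^ (i + 6) := by ring
    _ ≤ T ^ 3 * (7.3891 * a ^ (i + 6)) := mul_le_mul_of_nonneg_left h5 hT3
    _ = (7.3891 * T ^ 3) * a ^ (i + 6) := by ring
    _ ≤ (7.4816 * ((T + 1) * T * (T - 1))) * a ^ (i + 6) := mul_le_mul_of_nonneg_right h6 h7

/-- two terms of the binomial -/
lemma bin2 (N : ℕ) (u w : ℝ) (hu : 0 ≤ u) (hw : 0 ≤ w) :
    u ^ (N + 1) + ((N : ℝ) + 1) * w * u ^ N ≤ (u + w) ^ (N + 1) := by
  induction N with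
  | zero => simp
  | succ N ih =>
    have h1 : (u + w) ^ (N + 1 + 1) = (u + w) * (u + w) ^ (N + 1) := by ring
    rw [h1]
    have h2 : (u + w) * (u ^ (N + 1) + ((N : ℝ) + 1) * w * u ^ N) ≤ (u + w) * (u + w) ^ (N + 1) :=
      mul_le_mul_of_nonneg_left ih (by linarith)
    refine le_trans ?_ h2
    push_cast
    have h3 : 0 ≤ w * (((N : ℝ) + 1) * w * u ^ N) := by positivity
    have h4 : u ^ (N + 1 + 1) = u * u ^ (N + 1) := by ring
    have h5 : u ^ (N + 1) = u * u ^ N := by ring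
    rw [h4, h5] at *
    nlinarith

end Pool.Agent.Lib_helper91.SRCH
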