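import Pool.Agent.Lib_helper91.SRCH.V1
import Pool.Agent.Lib_helper91.SRCH.VNum

set_option autoImplicit false

/-! # Series bounds for the honest child, `l ≥ 21` -/

namespace Pool.Agent.Lib_helper91.SRCH

open Finset PowerSeries Pool.Agent.Lib_helper36.SRC

/-- comparison, for all `0 ≤ q ≤ 9/16` -/
lemma NN_cmp' (r q : ℝ) (hr : 0 ≤ r) (hq0 : 0 ≤ q) (hq : q ≤ 9 / 16) :
    NN (X * ab (1 - q - r) + Ex r * (X * ab (1 - q))) := by
  intro n
  rw [map_add]
  match n with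
  | 0 => simp
  | 1 =>
    have e : Ex r * (X * ab (1 - q)) = X * (Ex r * ab (1 - q)) := by ring
    rw [e, coeff_one_X_mul, coeff_one_X_mul, coeff_ab_zero, coeff_mul]
    simp [coeff_ab_zero, coeff_Ex]
  | k + 2 =>
    have h := two_terms r (1 - q) hr (by linarith) k
    rw [coeff_succ_X_mul, coeff_ab_succ]
    have hf : (0 : ℝ) < (k + 1).factorial := by exact_mod_cast (k + 1).factorial_pos
    have key : 0 ≤ (1 - q - r) * (1 - q - r + (k + 1)) ^ k
        + ((1 - q) * (1 - q + (k + 1)) ^ k + r ^ (k + 1)) := by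
      set N : ℝ := 1 - q + (k + 1) with hN
      have hk0 : (0 : ℝ) ≤ k := Nat.cast_nonneg k
      have hN0 : 0 < N := by rw [hN]; linarith
      have e1 : 1 - q - r + (k + 1) = N - r := by rw [hN]; ring
      rw [e1]
      have hc : 0 ≤ 1 - q := by linarith
      rcases Nat.eq_zero_or_pos k with rfl | hk
      · simp; linarith
      · have p1 : 0 ≤ (1 - q) * N ^ k := by positivity
        have p2 : 0 ≤ r ^ (k + 1) := by positivity
        rcases le_total r N with hrN | hrN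
        · have h1 := bern1 k (N - r) (by linarith)
          have e2 : (k : ℝ) + 1 - (N - r) = - (1 - q - r) := by rw [hN]; ring
          rw [e2] at h1
          have h2 := bern2 k hk (2 - q) (by linarith)
          have e3 : (k : ℝ) + (2 - q) = N := by rw [hN]; ring
          rw [e3] at h2
          have h3 : 1 ≤ (1 + (2 - q)) * (1 - q) := by nlinarith
          have h4 : 0 ≤ (k : ℝ) ^ k := by positivity
          have h5 : (k : ℝ) ^ k ≤ (1 - q) * N ^ k := by
            calc (k : ℝ) ^ k = (k : ℝ) ^ k * 1 := by ring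
              _ ≤ (k : ℝ) ^ k * ((1 + (2 - q)) * (1 - q)) := mul_le_mul_of_nonneg_left h3 h4
              _ = (1 - q) * ((k : ℝ) ^ k * (1 + (2 - q))) := by ring
              _ ≤ (1 - q) * N ^ k := mul_le_mul_of_nonneg_left h2 hc
          linarith
        · have h1 : |(1 - q - r) * (N - r) ^ k| ≤ r ^ (k + 1) := by
            rw [abs_mul, abs_pow, pow_succ, mul_comm (r ^ k)]
            have a1 : |1 - q - r| ≤ r := by
              rw [abs_le]; constructor
              · linarith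
              · have : 1 ≤ N := by rw [hN]; have : (1 : ℝ) ≤ k := by exact_mod_cast hk
                                   linarith
                linarith
            have a2 : |N - r| ≤ r := by
              rw [abs_le]; constructor <;> linarith
            exact mul_le_mul a1 (pow_le_pow_left₀ (abs_nonneg _) a2 k) (by positivity) hr
          have := (abs_le.1 h1).1
          linarith
    have e5 : (1 - q - r) * (1 - q - r + ((k : ℝ) + 1)) ^ k / (k + 1).factorial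
        + ((1 - q) * (1 - q + (k + 1)) ^ k + r ^ (k + 1)) / (k + 1).factorial
        = ((1 - q - r) * (1 - q - r + (k + 1)) ^ k
        + ((1 - q) * (1 - q + (k + 1)) ^ k + r ^ (k + 1))) / (k + 1).factorial := by ring
    have h6 : 0 ≤ ((1 - q - r) * (1 - q - r + (k + 1)) ^ k
        + ((1 - q) * (1 - q + (k + 1)) ^ k + r ^ (k + 1))) / (k + 1).factorial := by positivity
    linarith

lemma NN_cmp_bb' (k : ℕ) (q : ℝ) (hq0 : 0 ≤ q) (hq : q ≤ 9 / 16) :
    NN (X * ab (1 - q - (k : ℝ) / 2) + bb ^ k * (X * ab (1 - q))) := by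
  intro n
  have h1 := NN_cmp' ((k : ℝ) / 2) q (by positivity) hq0 hq n
  have h2 := LE.mul (LE_Ex_bb_pow k) (LE.refl (X * ab (1 - q))) (NN_bb.pow k)
    (NN.X.mul (NN.ab (by linarith))) n
  rw [map_add] at h1 ⊢
  linarith

lemma sum_half (l : ℕ) : ∑ i ∈ range l, ((1 : ℝ) / 2) ^ (i + 1) = 1 - (1 / 2) ^ l := by
  induction l with
  | zero => simp
  | succ l ih => rw [sum_range_succ, ih]; ring

/-- the geometric part is at least `- b^l ζ exp ((1-θ) x)` -/
lemma NN_T2 (l : ℕ) (θ : ℝ) (h0 : 0 ≤ θ) (h1 : θ ≤ 9 / 16) :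
    NN (T2 l θ + bb ^ l * (X * ab (1 - θ))) := by
  have hV : NN (bb ^ l * (X * ab (1 - θ))) := (NN_bb.pow l).mul (NN.X.mul (NN.ab (by linarith)))
  have e : T2 l θ + bb ^ l * (X * ab (1 - θ)) = ∑ i ∈ range l, C ((1 / 2) ^ (i + 1)) *
      (bb ^ i * (X * ab (1 - θ - ((l - i : ℕ) : ℝ) / 2) + bb ^ (l - i) * (X * ab (1 - θ))))
      + C ((1 / 2) ^ l) * (bb ^ l * (X * ab (1 - θ))) := by
    have e1 : ∀ i ∈ range l, C (((1 : ℝ) / 2) ^ (i + 1)) *
      (bb ^ i * (X * ab (1 - θ - ((l - i : ℕ) : ℝ) / 2) + bb ^ (l - i) * (X * ab (1 - θ))))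
      = C ((1 / 2) ^ (i + 1)) * (bb ^ i * (X * ab (1 - θ - ((l - i : ℕ) : ℝ) / 2)))
        + C ((1 / 2) ^ (i + 1)) * (bb ^ l * (X * ab (1 - θ))) := by
      intro i hi
      have hi' : i < l := mem_range.1 hi
      have e2 : bb ^ l = bb ^ i * bb ^ (l - i) := by rw [← pow_add]; congr 1; omega
      rw [e2]; ring
    rw [sum_congr rfl e1, sum_add_distrib, ← sum_mul, ← map_sum, sum_half]
    unfold T2
    rw [map_sub, map_one]
    ring
  rw [e]
  apply NN.add
  · apply NN.sum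
    intro i _
    apply NN.smul (by positivity)
    exact (NN_bb.pow i).mul (NN_cmp_bb' _ _ h0 h1)
  · exact NN.smul (by positivity) hV

/-! ### the quadratic times an exponential -/

/-- `exp (x ·) * (quadratic)` -/
noncomputable def KK (x a0 a1 a2 : ℝ) : ℝ⟦X⟧ := ab x * qq a0 a1 a2

lemma KK_eq (x a0 a1 a2 : ℝ) : KK x a0 a1 a2
    = C a0 * ab x + C a1 * (X * ab (1 + x)) + C a2 * (X * (X * ab (2 + x))) := by
  unfold KK qq PP
  have e1 : ab (1 + x) = ab 1 * ab x := ab_add _ _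
  have e2 : ab (2 + x) = ab 1 * (ab 1 * ab x) := by rw [← ab_add, ← ab_add]; congr 1; ring
  rw [e1, e2]; ring

lemma coeff_KK_zero (x a0 a1 a2 : ℝ) : coeff 0 (KK x a0 a1 a2) = a0 := by
  rw [KK_eq, map_add, map_add, coeff_C_mul, coeff_C_mul, coeff_C_mul, coeff_ab_zero]; simp

lemma coeff_ab_one (x : ℝ) : coeff 1 (ab x) = x := by
  rw [show (1 : ℕ) = 0 + 1 by rfl, coeff_ab_succ]; simp

lemma coeff_KK_one (x a0 a1 a2 : ℝ) : coeff 1 (KK x a0 a1 a2) = x * a0 + a1 := by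
  rw [KK_eq, map_add, map_add, coeff_C_mul, coeff_C_mul, coeff_C_mul, coeff_one_X_mul,
    coeff_one_X_mul, coeff_ab_zero, coeff_ab_one]
  simp; ring

lemma coeff_two_X_mul (f : ℝ⟦X⟧) : coeff 2 (X * f) = coeff 1 f := coeff_succ_X_mul 1 f

lemma coeff_three_X_mul (f : ℝ⟦X⟧) : coeff 3 (X * f) = coeff 2 f := coeff_succ_X_mul 2 f

lemma coeff_four_X_mul (f : ℝ⟦X⟧) : coeff 4 (X * f) = coeff 3 f := coeff_succ_X_mul 3 f

lemma coeff_ab_two (x : ℝ) : coeff 2 (ab x) = x * (x + 2) / 2 := by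
  rw [show (2 : ℕ) = 1 + 1 by rfl, coeff_ab_succ]; norm_num [Nat.factorial]

lemma coeff_ab_three (x : ℝ) : coeff 3 (ab x) = x * (x + 3) ^ 2 / 6 := by
  rw [show (3 : ℕ) = 2 + 1 by rfl, coeff_ab_succ]; norm_num [Nat.factorial]

lemma coeff_KK_two (x a0 a1 a2 : ℝ) :
    coeff 2 (KK x a0 a1 a2) = a0 * x * (x + 2) / 2 + a1 * (1 + x) + a2 := by
  rw [KK_eq, map_add, map_add, coeff_C_mul, coeff_C_mul, coeff_C_mul, coeff_two_X_mul,
    coeff_two_X_mul, coeff_one_X_mul, coeff_ab_zero, coeff_ab_one, coeff_ab_two]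
  ring

lemma coeff_KK_three (x a0 a1 a2 : ℝ) :
    coeff 3 (KK x a0 a1 a2) = a0 * x * (x + 3) ^ 2 / 6 + a1 * (1 + x) * (3 + x) / 2 + a2 * (2 + x) := by
  rw [KK_eq, map_add, map_add, coeff_C_mul, coeff_C_mul, coeff_C_mul, coeff_three_X_mul,
    coeff_three_X_mul, coeff_two_X_mul, coeff_ab_one, coeff_ab_two, coeff_ab_three]
  ring

/-- the general coefficient -/
lemma coeff_KK (x a0 a1 a2 : ℝ) (k : ℕ) : coeff (k + 3) (KK x a0 a1 a2)
    = (a0 * x * (x + (k + 3)) ^ (k + 2) + a1 * (1 + x) * ((k : ℝ) + 3) * (x + (k + 3)) ^ (k + 1)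
      + a2 * (2 + x) * (((k : ℝ) + 3) * (k + 2)) * (x + (k + 3)) ^ k) / (k + 3).factorial := by
  rw [KK_eq, map_add, map_add, coeff_C_mul, coeff_C_mul, coeff_C_mul, coeff_succ_X_mul,
    coeff_succ_X_mul, coeff_succ_X_mul, coeff_ab_succ, coeff_ab_succ, coeff_ab_succ]
  have f1 : (((k + 1).factorial : ℕ) : ℝ) ≠ 0 := by exact_mod_cast (k + 1).factorial_ne_zero
  have f2 : (k : ℝ) + 2 ≠ 0 := by positivity
  have f3 : (k : ℝ) + 3 ≠ 0 := by positivity
  have e1 : ((k + 2 + 1).factorial : ℝ) = ((k : ℝ) + 3) * (((k : ℝ) + 2) * (k + 1).factorial) := by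
    rw [Nat.factorial_succ, Nat.factorial_succ (k + 1)]; push_cast; ring
  have e2 : ((k + 1 + 1).factorial : ℝ) = ((k : ℝ) + 2) * (k + 1).factorial := by
    rw [Nat.factorial_succ (k + 1)]; push_cast; ring
  have e3 : ((k + 3).factorial : ℝ) = ((k : ℝ) + 3) * (((k : ℝ) + 2) * (k + 1).factorial) := e1
  have g1 : (x + (((k + 2 : ℕ) : ℝ) + 1)) = x + (k + 3) := by push_cast; ring
  have g2 : (1 + x + (((k + 1 : ℕ) : ℝ) + 1)) = x + (k + 3) := by push_cast; ring
  have g3 : (2 + x + ((k : ℝ) + 1)) = x + (k + 3) := by ring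
  rw [e1, e2, g1, g2, g3]
  field_simp

/-! ### the coefficients of `b ^ M` -/

lemma coeff_bb_one : coeff 1 bb = 1 / 2 := by
  unfold bb; rw [coeff_C_mul, coeff_kc_one]; norm_num

lemma coeff_bb_add (n : ℕ) : coeff (n + 2) bb
    = 1 / 4 * ((n : ℝ) + 3 / 2) ^ n / (n + 2).factorial := by
  unfold bb; rw [coeff_C_mul, coeff_kc]
  have : (n : ℝ) + 2 - 1 / 2 = n + 3 / 2 := by ring
  rw [this]; ring

lemma coeff_bb_two : coeff 2 bb = 1 / 8 := by
  have := coeff_bb_add 0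
  rw [show (0 + 2 : ℕ) = 2 by rfl] at this
  rw [this]; norm_num [Nat.factorial]

lemma coeff_bb_three : coeff 3 bb = 5 / 48 := by
  have := coeff_bb_add 1
  rw [show (1 + 2 : ℕ) = 3 by rfl] at this
  rw [this]; norm_num [Nat.factorial]

lemma coeff_mul_one (f g : ℝ⟦X⟧) : coeff 1 (f * g) = coeff 0 f * coeff 1 g + coeff 1 f * coeff 0 g := by
  rw [coeff_mul]; simp [Finset.Nat.antidiagonal_succ]

lemma coeff_mul_two (f g : ℝ⟦X⟧) : coeff 2 (f * g) = coeff 0 f * coeff 2 g + coeff 1 f * coeff 1 g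
    + coeff 2 f * coeff 0 g := by
  rw [coeff_mul]; simp [Finset.Nat.antidiagonal_succ]; ring

lemma coeff_mul_three (f g : ℝ⟦X⟧) : coeff 3 (f * g) = coeff 0 f * coeff 3 g + coeff 1 f * coeff 2 g
    + coeff 2 f * coeff 1 g + coeff 3 f * coeff 0 g := by
  rw [coeff_mul]; simp [Finset.Nat.antidiagonal_succ]; ring

lemma coeff_bb_pow (M : ℕ) : coeff 1 (bb ^ M) = (M : ℝ) / 2 ∧ coeff 2 (bb ^ M) = (M : ℝ) ^ 2 / 8 ∧
    coeff 3 (bb ^ M) = (M : ℝ) * ((M : ℝ) ^ 2 + 4) / 48 := by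
  induction M with
  | zero => simp [coeff_one]
  | succ M ih =>
    obtain ⟨h1, h2, h3⟩ := ih
    have h0 := coeff_bb_pow_zero M
    refine ⟨?_, ?_, ?_⟩
    · rw [pow_succ, coeff_mul_one, h0, h1, coeff_bb_zero, coeff_bb_one]; push_cast; ring
    · rw [pow_succ, coeff_mul_two, h0, h1, h2, coeff_bb_zero, coeff_bb_one, coeff_bb_two]
      push_cast; ring
    · rw [pow_succ, coeff_mul_three, h0, h1, h2, h3, coeff_bb_zero, coeff_bb_one, coeff_bb_two,
        coeff_bb_three]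
      push_cast; ring

/-- consecutive coefficients of `b` -/
lemma bb_ratio (n : ℕ) : coeff (n + 1) bb ≤ 4 * coeff (n + 2) bb := by
  match n with
  | 0 => rw [coeff_bb_one, coeff_bb_two]; norm_num
  | n + 1 =>
    rw [coeff_bb_add n, coeff_bb_add (n + 1)]
    have hn : (0 : ℝ) ≤ n := Nat.cast_nonneg n
    have f1 : (0 : ℝ) < ((n + 2).factorial : ℕ) := by exact_mod_cast (n + 2).factorial_pos
    have e1 : ((n + 1 + 2).factorial : ℝ) = ((n : ℝ) + 3) * (n + 2).factorial := by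
      rw [show n + 1 + 2 = n + 2 + 1 by ring, Nat.factorial_succ]; push_cast; ring
    rw [e1, ← mul_div_assoc, div_le_div_iff₀ f1 (by positivity)]
    have h1 : ((n : ℝ) + 3 / 2) ^ n ≤ (((n + 1 : ℕ) : ℝ) + 3 / 2) ^ n := by
      apply pow_le_pow_left₀ (by positivity); push_cast; linarith
    have h2 : 0 ≤ ((n : ℝ) + 3 / 2) ^ n := by positivity
    have h3 : (((n + 1 : ℕ) : ℝ) + 3 / 2) ^ (n + 1) = (((n + 1 : ℕ) : ℝ) + 3 / 2) ^ n * ((n : ℝ) + 5 / 2) := by
      rw [pow_succ]; push_cast; ring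
    rw [h3]
    have h4 : ((n : ℝ) + 3 / 2) ^ n * ((n : ℝ) + 3) ≤ 4 * ((((n + 1 : ℕ) : ℝ) + 3 / 2) ^ n * ((n : ℝ) + 5 / 2)) := by
      have : ((n : ℝ) + 3 / 2) ^ n * ((n : ℝ) + 3) ≤ (((n + 1 : ℕ) : ℝ) + 3 / 2) ^ n * ((n : ℝ) + 3) :=
        mul_le_mul_of_nonneg_right h1 (by positivity)
      have h5 : 0 ≤ (((n + 1 : ℕ) : ℝ) + 3 / 2) ^ n := by positivity
      nlinarith
    nlinarith

/-- **The lower bound for `b * KK`.** -/
lemma LE_bbKK (κ : ℝ⟦X⟧) (a0 k1 : ℝ) (h0 : coeff 0 κ = a0) (h1 : coeff 1 κ = k1)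
    (ha : 0 ≤ a0) (hk : 0 ≤ a0 / 4 + k1) (hκ : ∀ n, 0 ≤ coeff (n + 2) κ) :
    LE (κ + C (a0 / 2) * X) (bb * κ) := by
  rw [LE.iff_sub]
  obtain ⟨τ, hτ⟩ : ∃ τ : ℝ⟦X⟧, τ = PowerSeries.mk fun n => coeff (n + 2) κ := ⟨_, rfl⟩
  have e : κ = C a0 + C k1 * X + X * (X * τ) := by
    ext n
    match n with
    | 0 => simp [h0]
    | 1 =>
      rw [map_add, map_add, coeff_C_mul, coeff_one_X_mul, coeff_one_X, h1]
      simp [coeff_C]
    | n + 2 =>
      rw [map_add, map_add, coeff_C_mul, coeff_succ_X_mul, coeff_succ_X_mul, hτ, coeff_mk]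
      simp [coeff_C, coeff_X]
  have hτN : NN τ := fun n => by rw [hτ, coeff_mk]; exact hκ n
  have hb1 : NN (bb - 1) := by
    intro n
    match n with
    | 0 => rw [map_sub, coeff_bb_zero]; simp
    | n + 1 => rw [map_sub, coeff_one]; simp; exact NN_bb _
  have e2 : bb * κ - (κ + C (a0 / 2) * X) = ((bb - 1) * (C a0 + C k1 * X) - C (a0 / 2) * X)
      + (bb - 1) * (X * (X * τ)) := by
    nth_rewrite 1 2 [e]; ring
  rw [e2]
  apply NN.add _ (hb1.mul (NN.X.mul (NN.X.mul hτN)))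
  intro n
  have e3 : (bb - 1) * (C a0 + C k1 * X) - C (a0 / 2) * X
      = C a0 * bb - C a0 + C k1 * (X * bb) - C k1 * X - C (a0 / 2) * X := by ring
  rw [e3]
  match n with
  | 0 =>
    have hcb : constantCoeff bb = 1 := by
      rw [← coeff_zero_eq_constantCoeff_apply]; exact coeff_bb_zero
    simp [hcb]
  | 1 =>
    simp only [map_add, map_sub, coeff_C_mul, coeff_one_X_mul, coeff_bb_one, coeff_bb_zero,
      coeff_one_X]
    simp [coeff_C]; linarith
  | n + 2 =>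
    simp only [map_add, map_sub, coeff_C_mul, coeff_succ_X_mul]
    have hb := bb_ratio n
    have hbn := NN_bb (n + 2)
    have hbn1 := NN_bb (n + 1)
    have : 0 ≤ a0 * coeff (n + 2) bb + k1 * coeff (n + 1) bb := by
      rcases le_total 0 k1 with h | h
      · positivity
      · nlinarith
    simp [coeff_C, coeff_X]
    linarith

end Pool.Agent.Lib_helper91.SRCH
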