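import Pool.Agent.Lib_helper91.SRCH.VPar
import Pool.Agent.Lib_helper91.SRCH.V2

set_option autoImplicit false

/-! # The first membership and the gadget -/

namespace Pool.Agent.Lib_helper91.SRCH

open Finset PowerSeries Pool.Agent.Lib_helper36.SRC VP

section
variable (j : ℕ) (p : ℝ)

/-- the series of the child -/
noncomputable def DT : ℝ⟦X⟧ := C 2 * (bb ^ (j + 1) * ab (-p)) + ab (-(((j : ℝ) + 1) / 2 + p)) * (PP - 1)

lemma T2_TT (hp : p * 2 ^ (j + 1 + 1) = 1) : T2 (j + 1) p = C 2 * TT (j + 1) p := by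
  unfold T2 TT
  rw [mul_sum]
  apply sum_congr rfl
  intro i hi
  have hi' : i < j + 1 := mem_range.1 hi
  rw [← mul_assoc (C 2), ← map_mul]
  have e1 : ((1 : ℝ) / 2) ^ (i + 1) = 2 * (p * 2 ^ (j + 1 - 1 - i)) := by
    have h1 : (2 : ℝ) ^ (j + 1 + 1) = 2 ^ (j + 1 - 1 - i) * 2 ^ (i + 2) := by
      rw [← pow_add]; congr 1; omega
    have h2 : ((1 : ℝ) / 2) ^ (i + 1) * 2 ^ (i + 1) = 1 := by rw [← mul_pow]; norm_num
    have h3 : (2 : ℝ) ^ (i + 2) = 2 * 2 ^ (i + 1) := by ring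
    have h4 : (2 : ℝ) ^ (i + 1) ≠ 0 := by positivity
    apply mul_right_cancel₀ h4
    rw [h2, ← hp, h1, h3]; ring
  have e2 : 1 - p - ((j + 1 - i : ℕ) : ℝ) / 2 = 1 / 2 - p - ((j + 1 - 1 - i : ℕ) : ℝ) / 2 := by
    have : ((j + 1 - i : ℕ) : ℝ) = ((j + 1 - 1 - i : ℕ) : ℝ) + 1 := by
      have : j + 1 - i = (j + 1 - 1 - i) + 1 := by omega
      rw [this]; push_cast; ring
    rw [this]; ring
  rw [e1, e2]

/-- the derivative of the series of the child -/
lemma D_DT (hp : p * 2 ^ (j + 1 + 1) = 1) :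
    D (DT j p) = C ((j : ℝ) + 1) * VV (j + 1) p + C 2 * TT (j + 1) p
      + C (((j : ℝ) + 1) / 2 + p) * (X * ab (1 - (((j : ℝ) + 1) / 2 + p))) := by
  have h := D_B0 j p (((j : ℝ) + 1) / 2 + p) p 1 0 0 1 0 0 0 0 (((j : ℝ) + 1) / 2 + p) 0 0
    hp rfl (by ring) (by ring) (by ring) (by ring) (by ring) (by ring) (by ring)
  have q1 : qq 1 0 0 = 1 := by unfold qq; simp
  rw [q1, mul_one, mul_one, T2_TT j p hp] at h
  unfold DT
  rw [h]
  unfold VV qq
  have e1 : ((j : ℝ) + 1) * 1 + 2 * 0 = j + 1 := by ring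
  have e2 : ((j : ℝ) + 1) * 0 + 2 * (0 + 0) = 0 := by ring
  have e3 : ((j : ℝ) + 1) * 0 + 2 * 0 = 0 := by ring
  rw [e1, e2, e3, map_zero, Nat.add_sub_cancel]
  ring

lemma coeff_DT_zero : coeff 0 (DT j p) = 1 := by
  unfold DT
  have hb : constantCoeff bb = 1 := by
    rw [← coeff_zero_eq_constantCoeff_apply]; exact coeff_bb_zero
  have ha : ∀ c : ℝ, constantCoeff (ab c) = 1 := by
    intro c; rw [← coeff_zero_eq_constantCoeff_apply]; exact coeff_ab_zero c
  have hP : constantCoeff PP = 0 := by unfold PP; simp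
  rw [coeff_zero_eq_constantCoeff_apply]
  simp [hb, ha, hP]
  norm_num

/-- the child is good -/
lemma NN_DT (hj : 2 ≤ j) (hp : p * 2 ^ (j + 1 + 1) = 1) (hp0 : 0 ≤ p) (hp1 : p ≤ 1 / 16) :
    NN (DT j p) := by
  have hj' : (2 : ℝ) ≤ j := by exact_mod_cast hj
  have h1 : NN (D (DT j p)) := by
    have e : D (DT j p) = C ((j : ℝ) - (((j : ℝ) + 1) / 2 + p)) * VV (j + 1) p
        + (C 2 * TT (j + 1) p + VV (j + 1) p)
        + C (((j : ℝ) + 1) / 2 + p) * (X * ab (1 - (1 / 2 + p) - (j : ℝ) / 2)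
          + bb ^ j * (X * ab (1 - (1 / 2 + p)))) := by
      rw [D_DT j p hp]
      have e1 : 1 - (1 / 2 + p) - (j : ℝ) / 2 = 1 - (((j : ℝ) + 1) / 2 + p) := by ring
      have e2 : 1 - (1 / 2 + p) = 1 / 2 - p := by ring
      rw [e1, e2]
      unfold VV
      rw [Nat.add_sub_cancel, map_sub, map_add, map_one, map_add]
      ring
    rw [e]
    apply NN.add
    · apply NN.add
      · exact NN.smul (by linarith) (NN_VV _ _ (by linarith))
      · apply NN_TT _ _ hp0 hp1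
        rw [pow_succ] at hp; linarith
    · exact NN.smul (by positivity) (NN_cmp_bb _ _ (by linarith) (by linarith))
  intro n
  match n with
  | 0 => rw [coeff_DT_zero]; norm_num
  | n + 1 =>
    have h2 := h1 (n + 1)
    rw [coeff_D] at h2
    exact nonneg_of_mul_nonneg_right h2 (by positivity)

lemma coeff_PPab (c : ℝ) (n : ℕ) : coeff n (ab c * (PP - 1)) = coeff n (X * ab (c + 1)) - coeff n (ab c) := by
  have e : ab c * (PP - 1) = X * ab (c + 1) - ab c := by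
    unfold PP
    have : ab (c + 1) = ab c * ab 1 := ab_add _ _
    rw [this]; ring
  rw [e, map_sub]

lemma coeff_DT_one : coeff 1 (DT j p) = ((j : ℝ) + 1) * 3 / 2 + 1 - p := by
  obtain ⟨b1, b2, b3⟩ := coeff_bb_pow (j + 1)
  have b0 := coeff_bb_pow_zero (j + 1)
  unfold DT
  rw [map_add, coeff_C_mul, coeff_mul_one, coeff_PPab, b0, b1, coeff_ab_one, coeff_ab_zero,
    coeff_one_X_mul, coeff_ab_zero, coeff_ab_one]
  push_cast; ring

lemma coeff_DT_two : coeff 2 (DT j p)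
    = ((j : ℝ) + 1) ^ 2 / 8 + 1 - 3 / 2 * (((j : ℝ) + 1) * p) - 2 * p + p ^ 2 / 2 := by
  obtain ⟨b1, b2, b3⟩ := coeff_bb_pow (j + 1)
  have b0 := coeff_bb_pow_zero (j + 1)
  unfold DT
  rw [map_add, coeff_C_mul, coeff_mul_two, coeff_PPab, b0, b1, b2, coeff_ab_one, coeff_ab_zero,
    coeff_ab_two, coeff_two_X_mul, coeff_ab_one, coeff_ab_two]
  push_cast; ring

lemma coeff_DT_three : coeff 3 (DT j p)
    = 2 * (((j : ℝ) + 1) * (((j : ℝ) + 1) ^ 2 + 4) / 48 - p * ((j : ℝ) + 1) ^ 2 / 8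
        - p * (2 - p) / 2 * (((j : ℝ) + 1) / 2) - p * (3 - p) ^ 2 / 6)
      + ((((j : ℝ) + 1) / 2 + p - 1) * (((j : ℝ) + 1) / 2 + p - 3) / 2
        + (((j : ℝ) + 1) / 2 + p) * (((j : ℝ) + 1) / 2 + p - 3) ^ 2 / 6) := by
  obtain ⟨b1, b2, b3⟩ := coeff_bb_pow (j + 1)
  have b0 := coeff_bb_pow_zero (j + 1)
  unfold DT
  rw [map_add, coeff_C_mul, coeff_mul_three, coeff_PPab, b0, b1, b2, b3, coeff_ab_one,
    coeff_ab_zero, coeff_ab_two, coeff_ab_three, coeff_three_X_mul, coeff_ab_two, coeff_ab_three]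
  push_cast; ring

end

lemma coeff_zero_mul' (f g : ℝ⟦X⟧) : coeff 0 (f * g) = coeff 0 f * coeff 0 g := by
  rw [coeff_mul]; simp

/-- one term of a product -/
lemma coeff_mul_ge (f g : ℝ⟦X⟧) (hf : NN f) (hg : NN g) (n : ℕ) :
    coeff n f * coeff 0 g ≤ coeff n (f * g) := by
  rw [coeff_mul]
  exact single_le_sum (f := fun x : ℕ × ℕ => coeff x.1 f * coeff x.2 g)
    (fun x _ => mul_nonneg (hf _) (hg _)) (by simp : (n, 0) ∈ antidiagonal n)

section
variable (j : ℕ) (s p : ℝ)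

/-- the series of the first membership -/
noncomputable def AA : ℝ⟦X⟧ := DT j p * kc s
  + C (HH ((j : ℝ) + 1) s) * (X * ab (-(s + 1 / 4)) - C (Real.exp 2) * (X ^ 3 * ab (-(s + 1 / 4))))

/-- the series of the gadget -/
noncomputable def FF : ℝ⟦X⟧ := C (4 * s) * (DT j p * kc (-(1 / 4)))
  - C (HH ((j : ℝ) + 1) s) * (X - C (Real.exp 2) * X ^ 3)

theorem NN_FF (P : Par ((j : ℝ) + 1) s p) (hj : 2 ≤ j) (hp : p * 2 ^ (j + 1 + 1) = 1) :
    NN (FF j s p) := by
  have hl := P.hl; have h0 := P.h0; have h1 := P.h1; have hp0 := P.hp; have hps := P.p_le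
  have hH := P.HH_pos
  have hD := NN_DT j p hj hp hp0 (by linarith)
  have hk : NN (kc (-(1 / 4))) := NN.kc (by norm_num)
  have hDk := hD.mul hk
  have he := exp_two_gt
  intro n
  unfold FF
  rw [map_sub, coeff_C_mul, coeff_C_mul, map_sub, coeff_C_mul]
  have hn := hDk n
  have hn' : 0 ≤ 4 * s * coeff n (DT j p * kc (-(1 / 4))) := mul_nonneg (by linarith) hn
  by_cases h : n = 1
  · subst h
    have e2 : coeff 1 ((X : ℝ⟦X⟧) ^ 3) = 0 := by rw [coeff_X_pow]; norm_num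
    rw [coeff_mul_one, coeff_DT_zero, coeff_DT_one, coeff_kc_zero, coeff_kc_one, coeff_one_X, e2]
    have hq := qF ((j : ℝ) + 1) s hl h0 h1
    have : 4 * s * (5 / 4 * (((j : ℝ) + 1) * 3 / 2 + 999 / 1000) + 1 / 16)
        ≤ 4 * s * (1 * (-(1 / 4)) ^ 2 + (((j : ℝ) + 1) * 3 / 2 + 1 - p) * (1 - -(1 / 4))) := by
      apply mul_le_mul_of_nonneg_left _ (by linarith)
      nlinarith
    linarith
  · have e1 : coeff n (X : ℝ⟦X⟧) = 0 := by rw [coeff_X, if_neg h]
    rw [e1, coeff_X_pow]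
    have : 0 ≤ HH ((j : ℝ) + 1) s * (Real.exp 2 * (if n = 3 then (1 : ℝ) else 0)) := by
      apply mul_nonneg hH.le (mul_nonneg (by linarith) _)
      split_ifs <;> norm_num
    linarith

theorem NN_AA (P : Par ((j : ℝ) + 1) s p) (hj : 2 ≤ j) (hp : p * 2 ^ (j + 1 + 1) = 1) :
    NN (AA j s p) := by
  have hl := P.hl; have h0 := P.h0; have h1 := P.h1; have hp0 := P.hp; have hps := P.p_le
  have hlp := P.hlp
  have hH := P.HH_pos
  have hD := NN_DT j p hj hp hp0 (by linarith)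
  have hk : NN (kc s) := NN.kc (by linarith)
  have hDk := hD.mul hk
  have he := exp_two_lt
  have he2 := exp_two_gt
  set l : ℝ := (j : ℝ) + 1 with hld
  set c : ℝ := s + 1 / 4 with hc
  intro n
  unfold AA
  rw [map_add, coeff_C_mul, map_sub, coeff_C_mul, ← hc]
  have hn := hDk n
  have hge := coeff_mul_ge _ _ hD hk n
  rw [coeff_kc_zero] at hge
  have e3 : ∀ f : ℝ⟦X⟧, (X : ℝ⟦X⟧) ^ 3 * f = X * (X * (X * f)) := by intro f; ring
  rw [e3]
  match n with
  | 0 => simp at hn ⊢; linarith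
  | 1 =>
    rw [coeff_one_X_mul, coeff_one_X_mul, coeff_ab_zero]
    have : coeff 0 (X * (X * ab (-c))) = 0 := by simp
    rw [this]; linarith
  | 2 =>
    rw [coeff_two_X_mul, coeff_two_X_mul, coeff_one_X_mul, coeff_ab_one]
    have : coeff 0 (X * ab (-c)) = 0 := by simp
    rw [this]
    rw [coeff_DT_two] at hge
    have hq := qA2 l s hl h0 h1
    rw [← hc] at hq
    have h5 : (1 - s) * (l * l / 8 + 9 / 10) ≤ (l ^ 2 / 8 + 1 - 3 / 2 * (l * p) - 2 * p + p ^ 2 / 2) * (1 - s) := by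
      rw [mul_comm]
      apply mul_le_mul_of_nonneg_right _ (by linarith)
      nlinarith
    linarith
  | 3 =>
    rw [coeff_three_X_mul, coeff_three_X_mul, coeff_two_X_mul, coeff_one_X_mul, coeff_ab_two,
      coeff_ab_zero]
    rw [coeff_DT_three] at hge
    have hq := qA3 l s hl h0 h1
    rw [← hc] at hq
    have h6 : l * (l * l + 4) / 24 - l * (1 / 1000) ≤ 2 * (l * (l ^ 2 + 4) / 48 - p * l ^ 2 / 8
        - p * (2 - p) / 2 * (l / 2) - p * (3 - p) ^ 2 / 6)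
      + ((l / 2 + p - 1) * (l / 2 + p - 3) / 2
        + (l / 2 + p) * (l / 2 + p - 3) ^ 2 / 6) := by
      have g1 : 0 ≤ (l / 2 + p - 1) * (l / 2 + p - 3) / 2 := by
        have : 0 ≤ (l / 2 + p - 1) * (l / 2 + p - 3) := mul_nonneg (by linarith) (by linarith)
        linarith
      have g2 : 0 ≤ (l / 2 + p) * (l / 2 + p - 3) ^ 2 / 6 := by
        have : 0 ≤ (l / 2 + p) * (l / 2 + p - 3) ^ 2 := mul_nonneg (by linarith) (by positivity)
        linarith
      have g3 : p * l ^ 2 ≤ 1 / 10 ^ 5 * l := by nlinarith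
      have g4 : p * (2 - p) / 2 * (l / 2) ≤ 1 / 10 ^ 5 * 1 := by nlinarith
      have g5 : p * (3 - p) ^ 2 ≤ 9 / 10 ^ 6 := by nlinarith
      nlinarith
    have h5 : (1 - s) * (l * (l * l + 4) / 24 - l * (1 / 1000)) ≤ (2 * (l * (l ^ 2 + 4) / 48 - p * l ^ 2 / 8
        - p * (2 - p) / 2 * (l / 2) - p * (3 - p) ^ 2 / 6)
      + ((l / 2 + p - 1) * (l / 2 + p - 3) / 2
        + (l / 2 + p) * (l / 2 + p - 3) ^ 2 / 6)) * (1 - s) := by
      rw [mul_comm]
      exact mul_le_mul_of_nonneg_right h6 (by linarith)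
    have h7 : HH l s * (Real.exp 2 - -c * (-c + 2) / 2) ≤ HH l s * (7.3891 + c * (2 - c) / 2) := by
      apply mul_le_mul_of_nonneg_left _ hH.le
      nlinarith
    linarith
  | k + 4 =>
    rw [coeff_succ_X_mul, coeff_succ_X_mul, show k + 3 = (k + 2) + 1 by rfl, coeff_ab_succ,
      coeff_succ_X_mul, show k + 2 = (k + 1) + 1 by rfl, coeff_succ_X_mul, coeff_ab_succ]
    have h5 := alem (k + 1) (by omega) c (by linarith) (by linarith)
    rw [Nat.add_sub_cancel] at h5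
    have f1 : (0 : ℝ) < ((k + 1).factorial : ℕ) := by exact_mod_cast (k + 1).factorial_pos
    have g1 : ((k + 1 + 1 + 1).factorial : ℝ) = ((k : ℝ) + 3) * (((k : ℝ) + 2) * (k + 1).factorial) := by
      rw [Nat.factorial_succ, Nat.factorial_succ (k + 1)]; push_cast; ring
    rw [g1]
    push_cast at h5 ⊢
    have g2 : (-c + ((k : ℝ) + 1 + 1 + 1)) = k + 1 + 2 - c := by ring
    have g3 : -c + ((k : ℝ) + 1) = k + 1 - c := by ring
    rw [g2, g3]
    set A : ℝ := ((k : ℝ) + 1 + 2 - c) ^ (k + 1 + 1) with hA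
    set B : ℝ := ((k : ℝ) + 1 - c) ^ k with hB
    have g4 : -c * A / (((k : ℝ) + 3) * (((k : ℝ) + 2) * (k + 1).factorial))
        - Real.exp 2 * (-c * B / (k + 1).factorial)
        = c / (((k : ℝ) + 3) * (((k : ℝ) + 2) * (k + 1).factorial)) *
          (Real.exp 2 * (((k : ℝ) + 1 + 1) * ((k : ℝ) + 1 + 2)) * B - A) := by
      field_simp
      ring
    have g5 : 0 ≤ HH l s * (-c * A / (((k : ℝ) + 3) * (((k : ℝ) + 2) * (k + 1).factorial))
        - Real.exp 2 * (-c * B / (k + 1).factorial)) := by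
      rw [g4]
      apply mul_nonneg hH.le (mul_nonneg _ (by linarith))
      apply div_nonneg (by linarith) (by positivity)
    linarith

end

end Pool.Agent.Lib_helper91.SRCH
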