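import Pool.Agent.Lib_helper91.SRCH.VY

set_option autoImplicit false

/-! # The second membership in coefficients -/

namespace Pool.Agent.Lib_helper91.SRCH

open Finset PowerSeries Pool.Agent.Lib_helper36.SRC VP

/-- some terms of a product with an exponential -/
lemma Ex_mul_ge (m : ℝ) (hm : 0 ≤ m) (G : ℝ⟦X⟧) (hG : NN G) (N : ℕ) (t : Finset ℕ)
    (ht : ∀ a ∈ t, a ≤ N) :
    ∑ a ∈ t, m ^ a / a.factorial * coeff (N - a) G ≤ coeff N (Ex m * G) := by
  rw [coeff_mul, Finset.Nat.sum_antidiagonal_eq_sum_range_succ_mk]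
  have hsub : t ⊆ range N.succ := fun a ha => mem_range.2 (Nat.lt_succ_of_le (ht a ha))
  have h := sum_le_sum_of_subset_of_nonneg (f := fun a : ℕ => coeff a (Ex m) * coeff (N - a) G)
    hsub (fun a _ _ => mul_nonneg (NN.Ex hm _) (hG _))
  refine le_trans (le_of_eq ?_) h
  apply sum_congr rfl
  intro a _
  rw [coeff_Ex]

section
variable (i : ℕ) (s p : ℝ)

/-- the series of the second membership -/
noncomputable def BB : ℝ⟦X⟧ :=
  C 2 * (bb ^ (i + 1 + 1) * ab (-(1 / 2 - s + p))) * qq (1 / 2 + 2 * s) (1 / 2 - 3 * s) s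
    + ab (-om ((i : ℝ) + 2) s p) * ((PP - 1) * qq (1 + 4 * s) (-(5 * s)) s)
    + C (HH ((i : ℝ) + 2) s) * (X ^ 2 * ab (s + 1 / 4) - C (Real.exp 2) * (X ^ 4 * ab (s + 1 / 4)))

lemma KK_split (j : ℕ) (θ x0 x1 x2 : ℝ) :
    bb ^ j * (X * (ab (1 / 2 - θ) * qq x0 x1 x2))
      = X * (bb ^ j * KK (1 / 2 - θ) (x0 - 1) (x1 - 1) x2) + bb ^ (j + 1) * (X * ab (1 - θ)) := by
  unfold KK
  have e1 : qq x0 x1 x2 = qq (x0 - 1) (x1 - 1) x2 + (1 + PP) := by
    unfold qq; rw [map_sub, map_sub, map_one]; ring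
  have e2 : bb ^ (j + 1) * (X * ab (1 - θ)) = bb ^ j * (X * (ab (1 / 2 - θ) * (1 + PP))) := by
    have : ab (1 - θ) = ab (1 / 2) * ab (1 / 2 - θ) := by rw [← ab_add]; congr 1; ring
    have h2 : ab (-(1 / 2)) * ab (1 / 2) = 1 := by rw [← ab_add]; norm_num [ab_zero]
    rw [pow_succ, this, bb_eq]
    linear_combination (((1 + PP) * ab (-(1 / 2))) ^ j * (1 + PP) * X * ab (1 / 2 - θ)) * h2
  rw [e1, e2]; ring

/-- the coefficients from the derivative form -/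
lemma coeff_BB (hp : p * 2 ^ (i + 1 + 1 + 1) = 1) (N : ℕ) :
    ((N : ℝ) + 1) * coeff (N + 1) (BB i s p)
      = coeff N (bb ^ (i + 1) * KK (s - p) (a0 ((i : ℝ) + 2) s p) (a1 ((i : ℝ) + 2) s p) (a2 ((i : ℝ) + 2) s p))
        + coeff (N + 1) (T2 (i + 2) (1 / 2 - s + p) + bb ^ (i + 2) * (X * ab (1 - (1 / 2 - s + p))))
        + coeff N (KK (1 - om ((i : ℝ) + 2) s p) (om ((i : ℝ) + 2) s p * (1 + 4 * s) + 9 * s)
            (-(s * (5 * om ((i : ℝ) + 2) s p + 3))) (s * om ((i : ℝ) + 2) s p))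
        + ((N : ℝ) + 1) * (HH ((i : ℝ) + 2) s * (coeff (N + 1) (X ^ 2 * ab (s + 1 / 4))
            - Real.exp 2 * coeff (N + 1) (X ^ 4 * ab (s + 1 / 4)))) := by
  set θ : ℝ := 1 / 2 - s + p with hθ
  set ω : ℝ := om ((i : ℝ) + 2) s p with hω
  have hω2 : ω = (((i + 1 : ℕ) : ℝ) + 1) / 2 + θ := by
    rw [hω, hθ]; unfold om; push_cast; ring
  have h := D_B0 (i + 1) θ ω p (1 / 2 + 2 * s) (1 / 2 - 3 * s) s (1 + 4 * s) (-(5 * s)) s
    (θ * (1 / 2 - 2 * s) - 2 * s) (θ * s) (ω * (1 + 4 * s) + 9 * s) (-(s * (5 * ω + 3))) (s * ω)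
    hp hω2 (by rw [hθ]; ring) (by ring) rfl (by ring) (by ring) (by ring) (by ring)
  rw [KK_split] at h
  have e1 : (((i + 1 : ℕ) : ℝ) + 1) * (1 / 2 + 2 * s) + 2 * (θ * (1 / 2 - 2 * s) - 2 * s) - 1
      = a0 ((i : ℝ) + 2) s p := by unfold a0; rw [hθ]; push_cast; ring
  have e2 : (((i + 1 : ℕ) : ℝ) + 1) * (1 / 2 - 3 * s) + 2 * ((θ * (1 / 2 - 2 * s) - 2 * s) + θ * s) - 1
      = a1 ((i : ℝ) + 2) s p := by unfold a1; rw [hθ]; push_cast; ring
  have e3 : (((i + 1 : ℕ) : ℝ) + 1) * s + 2 * (θ * s) = a2 ((i : ℝ) + 2) s p := by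
    unfold a2; rw [hθ]; push_cast; ring
  have e4 : 1 / 2 - θ = s - p := by rw [hθ]; ring
  rw [e1, e2, e3, e4] at h
  have hN := congrArg (coeff (N + 1)) h
  rw [coeff_D] at hN
  have e5 : BB i s p = (C 2 * (bb ^ (i + 1 + 1) * ab (-θ)) * qq (1 / 2 + 2 * s) (1 / 2 - 3 * s) s
      + ab (-ω) * ((PP - 1) * qq (1 + 4 * s) (-(5 * s)) s))
      + C (HH ((i : ℝ) + 2) s) * (X ^ 2 * ab (s + 1 / 4) - C (Real.exp 2) * (X ^ 4 * ab (s + 1 / 4))) := rfl
  rw [e5, map_add, mul_add]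
  have e6 : ((N : ℝ) + 1) = ((N + 1 : ℕ) : ℝ) := by push_cast; ring
  rw [e6, hN, coeff_C_mul, map_sub, coeff_C_mul, map_add, map_add, map_add, coeff_succ_X_mul,
    coeff_succ_X_mul, map_add]
  unfold KK
  ring

lemma coeff_BB_zero : coeff 0 (BB i s p) = 0 := by
  unfold BB
  have hb : constantCoeff bb = 1 := by
    rw [← coeff_zero_eq_constantCoeff_apply]; exact coeff_bb_zero
  have ha : ∀ c : ℝ, constantCoeff (ab c) = 1 := by
    intro c; rw [← coeff_zero_eq_constantCoeff_apply]; exact coeff_ab_zero c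
  have hP : constantCoeff PP = 0 := by unfold PP; simp
  have hq : ∀ a b c : ℝ, constantCoeff (qq a b c) = a := by
    intro a b c; unfold qq; simp [hP]
  rw [coeff_zero_eq_constantCoeff_apply]
  simp [hb, ha, hP, hq]
  ring

end

/-- the coefficients of the main series -/
lemma VP.Par.kap {l s p : ℝ} (P : Par l s p) (k : ℕ) (hk : 4 ≤ k) :
    0.8 * l * coeff k (ab (s - p)) ≤ coeff k (KK (s - p) (a0 l s p) (a1 l s p) (a2 l s p)) := by
  have h0 := P.h0; have hp := P.hp; have hps := P.p_le; have hl := P.hl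
  obtain ⟨n, rfl⟩ : ∃ n, k = n + 3 := ⟨k - 3, by omega⟩
  have hn : (1 : ℝ) ≤ n := by
    have : 1 ≤ n := by omega
    exact_mod_cast this
  have h := P.pk_ge ((n : ℝ) + 3) (by linarith)
  rw [coeff_KK, show n + 3 = (n + 2) + 1 by ring, coeff_ab_succ]
  set x : ℝ := s - p with hx
  have hx0 : 0 ≤ x := by rw [hx]; linarith
  have e1 : (x + (((n + 2 : ℕ) : ℝ) + 1)) = x + (n + 3) := by push_cast; ring
  rw [e1, ← mul_div_assoc]
  apply div_le_div_of_nonneg_right _ (by positivity)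
  set y : ℝ := x + ((n : ℝ) + 3) with hy
  have e2 : (n : ℝ) + 3 + x = y := by rw [hy]; ring
  rw [e2] at h
  have hy0 : 0 ≤ y ^ n := by positivity
  have e3 : y ^ (n + 2) = y ^ n * y ^ 2 := by ring
  have e4 : y ^ (n + 1) = y ^ n * y := by ring
  rw [e3, e4]
  have h2 := mul_le_mul_of_nonneg_left h hy0
  refine le_trans (le_of_eq ?_) (le_trans h2 (le_of_eq ?_))
  · ring
  · ring

/-- growth of the coefficients -/
lemma VP.Par.grow {l s p : ℝ} (P : Par l s p) (k : ℕ) (hk : 4 ≤ k) :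
    1.7 * coeff k (ab (s - p)) ≤ coeff (k + 1) (ab (s - p)) := by
  have h0 := P.h0; have h1 := P.h1; have hp := P.hp; have hps := P.p_le
  obtain ⟨n, rfl⟩ : ∃ n, k = n + 1 := ⟨k - 1, by omega⟩
  set x : ℝ := s - p with hx
  have hx0 : 0 ≤ x := by rw [hx]; linarith
  have h := rlem (n + 1) hk x hx0 (by rw [hx]; linarith)
  rw [coeff_ab_succ, coeff_ab_succ]
  rw [Nat.add_sub_cancel] at h
  have e1 : ((n + 1 + 1).factorial : ℝ) = ((n : ℝ) + 2) * (n + 1).factorial := by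
    rw [Nat.factorial_succ (n + 1)]; push_cast; ring
  have f1 : (0 : ℝ) < ((n + 1).factorial : ℕ) := by exact_mod_cast (n + 1).factorial_pos
  rw [e1, ← mul_div_assoc, div_le_div_iff₀ f1 (by positivity)]
  push_cast at h ⊢
  have e2 : x + ((n : ℝ) + 1) = n + 1 + x := by ring
  have e3 : x + ((n : ℝ) + 1 + 1) = n + 1 + 1 + x := by ring
  rw [e2, e3]
  have e4 : (n : ℝ) + 1 + 1 = n + 2 := by ring
  rw [e4] at h ⊢
  have h3 : 0 ≤ x * ((n + 1).factorial : ℝ) := by positivity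
  have h4 := mul_le_mul_of_nonneg_left h h3
  refine le_trans (le_of_eq ?_) (le_trans h4 (le_of_eq ?_))
  · ring
  · ring

/-- `exp (c x)` against `exp (s x)` -/
lemma VP.Par.conv {l s p : ℝ} (P : Par l s p) (k : ℕ) (hk : 1 ≤ k) :
    coeff k (ab (s + 1 / 4)) * (s - p) * 0.7499 ≤ (s + 1 / 4) * coeff k (ab (s - p)) := by
  have h0 := P.h0; have h1 := P.h1; have hp := P.hp; have hps := P.p_le
  obtain ⟨n, rfl⟩ : ∃ n, k = n + 1 := ⟨k - 1, by omega⟩
  have h := clem (n + 1) hk (s - p) (s + 1 / 4) (by linarith) (by linarith) (by linarith)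
  rw [Nat.add_sub_cancel] at h
  rw [coeff_ab_succ, coeff_ab_succ]
  set x : ℝ := s - p with hx
  have hx0 : 0 ≤ x := by rw [hx]; linarith
  have f1 : (0 : ℝ) < ((n + 1).factorial : ℕ) := by exact_mod_cast (n + 1).factorial_pos
  push_cast at h
  have e2 : x + ((n : ℝ) + 1) = n + 1 + x := by ring
  have e3 : (s + 1 / 4) + ((n : ℝ) + 1) = n + 1 + (s + 1 / 4) := by ring
  rw [e2, e3]
  have h3 : 0 ≤ x * (s + 1 / 4) / ((n + 1).factorial : ℝ) := by
    apply div_nonneg (mul_nonneg hx0 (by linarith)) f1.le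
  have h4 := mul_le_mul_of_nonneg_left h h3
  refine le_trans (le_of_eq ?_) (le_trans h4 (le_of_eq ?_))
  · field_simp
  · field_simp

end Pool.Agent.Lib_helper91.SRCH
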