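import Pool.Agent.Lib_helper91.SRCH.VB

set_option autoImplicit false

/-! # The second membership, all levels -/

namespace Pool.Agent.Lib_helper91.SRCH

open Finset PowerSeries Pool.Agent.Lib_helper36.SRC VP

section
variable {l s p : ℝ} (P : Par l s p)
include P

lemma VP.Par.a0_nonneg : 0 ≤ a0 l s p := by
  have := P.a0_ge; have := P.A0_pos; linarith

lemma VP.Par.k1_two : 0 ≤ a0 l s p / 4 + ((s - p) * a0 l s p + a1 l s p) := by
  have h1 := P.a0_ge; have h2 := P.k1_ge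
  have h3 := pC1 l s P.hl P.h0 P.h1
  linarith

lemma VP.Par.kappa_nonneg (n : ℕ) :
    0 ≤ coeff (n + 2) (KK (s - p) (a0 l s p) (a1 l s p) (a2 l s p)) := by
  have hl := P.hl; have h0 := P.h0; have h1 := P.h1; have hps := P.p_le
  match n with
  | 0 =>
    rw [show 0 + 2 = 2 by rfl, coeff_KK_two]
    have := P.k2_ge; have := pK2 l s hl h0 h1
    linarith
  | 1 =>
    rw [show 1 + 2 = 3 by rfl, coeff_KK_three]
    have := P.k3_ge; have := pK3 l s hl h0 h1
    linarith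
  | n + 2 =>
    have h := P.kap (n + 2 + 2) (by omega)
    refine le_trans ?_ h
    have : 0 ≤ coeff (n + 2 + 2) (ab (s - p)) := NN.ab (by linarith) _
    apply mul_nonneg (by linarith) this

/-- the lower bound of `b * κ` -/
noncomputable def GP (l s p : ℝ) : ℝ⟦X⟧ := KK (s - p) (a0 l s p) (a1 l s p) (a2 l s p)
  + C (a0 l s p / 2) * X

lemma VP.Par.GP_zero : coeff 0 (GP l s p) = a0 l s p := by
  unfold GP; rw [map_add, coeff_KK_zero]; simp

lemma VP.Par.GP_one : coeff 1 (GP l s p) = (s - p) * a0 l s p + a1 l s p + a0 l s p / 2 := by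
  unfold GP; rw [map_add, coeff_KK_one, coeff_C_mul, coeff_one_X]; ring

lemma VP.Par.GP_add (n : ℕ) : coeff (n + 2) (GP l s p)
    = coeff (n + 2) (KK (s - p) (a0 l s p) (a1 l s p) (a2 l s p)) := by
  unfold GP; rw [map_add, coeff_C_mul, coeff_X]; simp

lemma VP.Par.NN_GP : NN (GP l s p) := by
  intro n
  match n with
  | 0 => rw [P.GP_zero]; exact P.a0_nonneg
  | 1 => rw [P.GP_one]; have := P.k1_two; have := P.a0_nonneg; linarith
  | n + 2 => rw [P.GP_add]; exact P.kappa_nonneg n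

lemma VP.Par.main_ge (i : ℕ) (hi : (i : ℝ) = l - 2) :
    LE (Ex (l / 2 - 1) * GP l s p) (bb ^ (i + 1) * KK (s - p) (a0 l s p) (a1 l s p) (a2 l s p)) := by
  have h1 : LE (GP l s p) (bb * KK (s - p) (a0 l s p) (a1 l s p) (a2 l s p)) :=
    LE_bbKK _ _ _ (coeff_KK_zero _ _ _ _) (coeff_KK_one _ _ _ _) P.a0_nonneg P.k1_two P.kappa_nonneg
  have h2 := LE.mul (LE_Ex_bb_pow i) h1 (NN_bb.pow i) P.NN_GP
  have e1 : (i : ℝ) / 2 = l / 2 - 1 := by rw [hi]; ring
  rw [e1, ← mul_assoc, ← pow_succ] at h2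
  exact h2

/-- level four and more: the parts -/
lemma VP.Par.level (i : ℕ) (hi : (i : ℝ) = l - 2) (k : ℕ) :
    0 ≤ coeff (k + 4) (bb ^ (i + 1) * KK (s - p) (a0 l s p) (a1 l s p) (a2 l s p))
      + coeff (k + 4) (KK (1 - om l s p) (om l s p * (1 + 4 * s) + 9 * s)
            (-(s * (5 * om l s p + 3))) (s * om l s p))
      - HH l s * (5 * Real.exp 2 * coeff (k + 1) (ab (s + 1 / 4))) := by
  have hl := P.hl; have h0 := P.h0; have h1 := P.h1; have hp := P.hp; have hps := P.p_le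
  have hH := P.HH_pos
  have hA0 := P.a0_ge
  have hA := P.A0_pos
  have hK1 := P.k1_ge
  have hω := P.om_ge
  have he := exp_two_lt
  set m : ℝ := l / 2 - 1 with hm
  have hm0 : 0 ≤ m := by rw [hm]; linarith
  have hG := P.NN_GP
  have hmain := P.main_ge i hi (k + 4)
  have hcc : (0 : ℝ) ≤ s + 1 / 4 := by linarith
  have hx0 : 0 ≤ s - p := by linarith
  have hu : ∀ n, 0 ≤ coeff n (ab (s - p)) := fun n => NN.ab hx0 n
  have hv : ∀ n, 0 ≤ coeff n (ab (s + 1 / 4)) := fun n => NN.ab hcc n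
  -- the moved mass
  have hcorr : HH l s * (5 * Real.exp 2 * coeff (k + 1) (ab (s + 1 / 4)))
      ≤ 5 * 7.3891 * HH l s * coeff (k + 1) (ab (s + 1 / 4)) := by
    have h2 : 0 ≤ HH l s * coeff (k + 1) (ab (s + 1 / 4)) := mul_nonneg hH.le (hv _)
    have := mul_le_mul_of_nonneg_left he.le h2
    linarith
  rcases Nat.lt_or_ge k 3 with hk | hk
  · -- levels five, six, seven
    interval_cases k
    · -- five
      have hY := P.Y_odd 1 (by decide) (by push_cast; linarith)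
      have hE := Ex_mul_ge m hm0 _ hG 4 {4} (by simp)
      rw [sum_singleton, Nat.sub_self, P.GP_zero] at hE
      have hf : ((Nat.factorial 4 : ℕ) : ℝ) = 24 := by norm_num [Nat.factorial]
      rw [hf] at hE
      have h5 := pL5 l s hl h0 h1
      rw [← hm] at h5
      have h6 : m ^ 4 / 24 * A0 l s ≤ m ^ 4 / 24 * a0 l s p := mul_le_mul_of_nonneg_left hA0 (by positivity)
      have h7 : coeff (0 + 1) (ab (s + 1 / 4)) = s + 1 / 4 := coeff_ab_one _
      rw [h7] at hcorr ⊢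
      have e1 : (0 + 4 : ℕ) = 1 + 3 := rfl
      have e2 : (1 + 3 : ℕ) = 4 := rfl
      rw [e2] at hY
      rw [show (0 + 4 : ℕ) = 4 by rfl] at hmain ⊢
      linarith
    · -- six
      have hY := P.Y_even 2 (by decide) (by norm_num) (by push_cast; linarith)
      rw [← hm] at hY
      have hE := Ex_mul_ge m hm0 _ hG 5 {5, 4} (by simp)
      rw [sum_pair (by norm_num), Nat.sub_self, show 5 - 4 = 1 by rfl, P.GP_zero, P.GP_one] at hE
      have hf : ((Nat.factorial 4 : ℕ) : ℝ) = 24 := by norm_num [Nat.factorial]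
      have hf5 : ((Nat.factorial 5 : ℕ) : ℝ) = 120 := by norm_num [Nat.factorial]
      rw [hf, hf5] at hE
      rw [show (2 + 3 : ℕ) = 5 by rfl, hf5] at hY
      have h5 := pL6 l s hl h0 h1
      rw [← hm] at h5
      have h6 : m ^ 4 / 24 * (A0 l s / 2 + K1 l s)
          ≤ m ^ 4 / 24 * ((s - p) * a0 l s p + a1 l s p + a0 l s p / 2) :=
        mul_le_mul_of_nonneg_left (by linarith) (by positivity)
      have h7 : coeff (1 + 1) (ab (s + 1 / 4)) = (s + 1 / 4) * (2 + (s + 1 / 4)) / 2 := by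
        rw [show (1 + 1 : ℕ) = 2 by rfl, coeff_ab_two]; ring
      rw [h7] at hcorr ⊢
      rw [show (1 + 4 : ℕ) = 5 by rfl] at hmain ⊢
      have e3 : m ^ 5 / 120 * a0 l s p = a0 l s p * m ^ 5 / 120 := by ring
      rw [e3] at hE
      linarith
    · -- seven
      have hY := P.Y_odd 3 (by decide) (by push_cast; linarith)
      have hE := Ex_mul_ge m hm0 _ hG 6 {5} (by simp)
      rw [sum_singleton, show 6 - 5 = 1 by rfl, P.GP_one] at hE
      have hf5 : ((Nat.factorial 5 : ℕ) : ℝ) = 120 := by norm_num [Nat.factorial]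
      rw [hf5] at hE
      have h5 := pL7 l s hl h0 h1
      rw [← hm] at h5
      have h6 : m ^ 5 / 120 * (A0 l s / 2 + K1 l s)
          ≤ m ^ 5 / 120 * ((s - p) * a0 l s p + a1 l s p + a0 l s p / 2) :=
        mul_le_mul_of_nonneg_left (by linarith) (by positivity)
      have h7 : coeff (2 + 1) (ab (s + 1 / 4)) = (s + 1 / 4) * (3 + (s + 1 / 4)) ^ 2 / 6 := by
        rw [show (2 + 1 : ℕ) = 3 by rfl, coeff_ab_three]; ring
      rw [h7] at hcorr ⊢
      rw [show (3 + 3 : ℕ) = 6 by rfl] at hY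
      rw [show (2 + 4 : ℕ) = 6 by rfl] at hmain ⊢
      linarith
  · -- eight and more
    have hk4 : 4 ≤ k + 1 := by omega
    have hE := Ex_mul_ge m hm0 _ hG (k + 4) {k + 4, 3, 2, 1, 0} (by
      intro a ha; simp only [mem_insert, mem_singleton] at ha; omega)
    have hne1 : k + 4 ∉ ({3, 2, 1, 0} : Finset ℕ) := by simp
    rw [sum_insert hne1, sum_insert (by simp), sum_insert (by simp), sum_insert (by simp),
      sum_singleton, Nat.sub_self, P.GP_zero] at hE
    have i3 : k + 4 - 3 = (k - 1) + 2 := by omega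
    have i2 : k + 4 - 2 = k + 2 := by omega
    have i1 : k + 4 - 1 = (k + 1) + 2 := by omega
    have i0 : k + 4 - 0 = (k + 2) + 2 := by omega
    rw [i3, i2, i1, i0, P.GP_add, P.GP_add, P.GP_add, P.GP_add] at hE
    have g3 := P.kap (k + 1) hk4
    have g2 := P.kap (k + 2) (by omega)
    have g1 := P.kap (k + 3) (by omega)
    have g0 := P.kap (k + 4) (by omega)
    have r2 := P.grow (k + 1) hk4
    have r1 := P.grow (k + 2) (by omega)
    have r0 := P.grow (k + 3) (by omega)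
    rw [show (k - 1) + 2 = k + 1 by omega, show (k + 1) + 2 = k + 3 by rfl,
      show (k + 2) + 2 = k + 4 by rfl] at hE
    rw [show k + 1 + 1 = k + 2 by rfl] at r2
    rw [show k + 2 + 1 = k + 3 by rfl] at r1
    rw [show k + 3 + 1 = k + 4 by rfl] at r0
    have hconv := P.conv (k + 1) (by omega)
    set U : ℝ := coeff (k + 1) (ab (s - p)) with hU
    have hU0 : 0 ≤ U := hu _
    obtain ⟨FF, hFF⟩ : ∃ FF : ℝ, FF = m ^ (k + 4) / ((k + 4).factorial : ℝ) := ⟨_, rfl⟩
    rw [← hFF] at hE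
    norm_num [Nat.factorial] at hE
    rw [← hm] at hmain
    -- the sum of the four terms
    have q3 : 0.8 * l * U ≤ coeff (k + 1) (KK (s - p) (a0 l s p) (a1 l s p) (a2 l s p)) := g3
    have hl0 : 0 ≤ 0.8 * l := by linarith
    have q2 : 0.8 * l * (1.7 * U) ≤ coeff (k + 2) (KK (s - p) (a0 l s p) (a1 l s p) (a2 l s p)) :=
      (mul_le_mul_of_nonneg_left r2 hl0).trans g2
    have r1' : 1.7 ^ 2 * U ≤ coeff (k + 3) (ab (s - p)) := by
      refine le_trans ?_ r1; nlinarith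
    have q1 : 0.8 * l * (1.7 ^ 2 * U) ≤ coeff (k + 3) (KK (s - p) (a0 l s p) (a1 l s p) (a2 l s p)) :=
      (mul_le_mul_of_nonneg_left r1' hl0).trans g1
    have r0' : 1.7 ^ 3 * U ≤ coeff (k + 4) (ab (s - p)) := by
      refine le_trans ?_ r0; nlinarith
    have q0 : 0.8 * l * (1.7 ^ 3 * U) ≤ coeff (k + 4) (KK (s - p) (a0 l s p) (a1 l s p) (a2 l s p)) :=
      (mul_le_mul_of_nonneg_left r0' hl0).trans g0
    have w3 : m ^ 3 / 6 * (0.8 * l * U)
        ≤ m ^ 3 / 6 * coeff (k + 1) (KK (s - p) (a0 l s p) (a1 l s p) (a2 l s p)) :=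
      mul_le_mul_of_nonneg_left q3 (by positivity)
    have w2 : m ^ 2 / 2 * (0.8 * l * (1.7 * U))
        ≤ m ^ 2 / 2 * coeff (k + 2) (KK (s - p) (a0 l s p) (a1 l s p) (a2 l s p)) :=
      mul_le_mul_of_nonneg_left q2 (by positivity)
    have w1 : m * (0.8 * l * (1.7 ^ 2 * U))
        ≤ m * coeff (k + 3) (KK (s - p) (a0 l s p) (a1 l s p) (a2 l s p)) :=
      mul_le_mul_of_nonneg_left q1 hm0
    have hxpos : 0 < s - p := by linarith
    set cc : ℝ := coeff (k + 1) (ab (s + 1 / 4)) with hcc2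
    have hcc0 : 0 ≤ cc := hv _
    -- `cc ≤ (s + 1/4) U / (x * 0.7499)`
    have hcc3 : cc ≤ (s + 1 / 4) * (10000 / 7499) * (U / (s - p)) := by
      rw [mul_div_assoc', le_div_iff₀ hxpos]
      nlinarith
    set V : ℝ := U / (s - p) with hV
    have hV0 : 0 ≤ V := div_nonneg hU0 hxpos.le
    have hUV : U = (s - p) * V := by rw [hV]; field_simp
    have hcorr2 : 5 * 7.3891 * HH l s * cc ≤ 5 * 7.3891 * HH l s * (s + 1 / 4) * (10000 / 7499) * V := by
      have h3 : 0 ≤ 5 * 7.3891 * HH l s := by positivity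
      have := mul_le_mul_of_nonneg_left hcc3 h3
      linarith
    have hUV2 : (s - 1 / 10 ^ 6) * V ≤ U := by
      rw [hUV]; exact mul_le_mul_of_nonneg_right (by linarith) hV0
    have hmk0 : 0 ≤ FF := by rw [hFF]; positivity
    have ha00 : 0 ≤ a0 l s p := P.a0_nonneg
    rcases le_total ((k : ℝ) + 1 + 4) (om l s p) with hn | hn
    · -- below the frame
      have hlow := pilow l s hl h0 h1
      rw [← hm] at hlow
      have hlow2 := mul_nonneg hlow hV0
      have t1 : 0.8 * l * (m ^ 3 / 6 + 1.7 * m ^ 2 / 2) * ((s - 1 / 10 ^ 6) * V)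
          ≤ 0.8 * l * (m ^ 3 / 6 + 1.7 * m ^ 2 / 2) * U :=
        mul_le_mul_of_nonneg_left hUV2 (by positivity)
      have w0 : 0 ≤ 0.8 * l * (1.7 ^ 3 * U) := by positivity
      have w1' : 0 ≤ m * (0.8 * l * (1.7 ^ 2 * U)) := by positivity
      rcases Nat.even_or_odd (k + 1) with hev | hod
      · have hY := P.Y_even (k + 1) hev (by omega) (by push_cast; linarith)
        rw [← hm, show k + 1 + 3 = k + 4 by rfl] at hY
        have e3 : a0 l s p * m ^ (k + 4) / ((k + 4).factorial : ℝ) = FF * a0 l s p := by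
          rw [hFF]; ring
        rw [e3] at hY
        linarith
      · have hY := P.Y_odd (k + 1) (Nat.not_even_iff_odd.2 hod) (by push_cast; linarith)
        rw [show k + 1 + 3 = k + 4 by rfl] at hY
        have e3 : 0 ≤ FF * a0 l s p := mul_nonneg hmk0 ha00
        linarith
    · -- above the frame
      have hk7 : 7 ≤ k + 1 := by
        by_contra hc
        push Not at hc
        have : (k : ℝ) + 1 ≤ 6 := by
          have : k + 1 ≤ 6 := by omega
          exact_mod_cast this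
        linarith
      have hY := P.Y_big (k + 1) hk7 (by push_cast; linarith)
      have hhigh := pihigh l s hl h0 h1
      rw [← hm] at hhigh
      have hhigh2 := mul_nonneg hhigh hV0
      have eV : (((k + 1 : ℕ) : ℝ) + (s - p)) ^ (k + 1 - 1) / ((k + 1).factorial : ℝ) = V := by
        rw [hV, hU, coeff_ab_succ, Nat.add_sub_cancel]
        have : (((k + 1 : ℕ) : ℝ) + (s - p)) = s - p + ((k : ℝ) + 1) := by push_cast; ring
        rw [this]; field_simp
      rw [eV, show k + 1 + 3 = k + 4 by rfl] at hY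
      have t1 : 0.8 * l * (m ^ 3 / 6 + 1.7 * m ^ 2 / 2 + 1.7 ^ 2 * m + 1.7 ^ 3) * ((s - 1 / 10 ^ 6) * V)
          ≤ 0.8 * l * (m ^ 3 / 6 + 1.7 * m ^ 2 / 2 + 1.7 ^ 2 * m + 1.7 ^ 3) * U :=
        mul_le_mul_of_nonneg_left hUV2 (by positivity)
      have e3 : 0 ≤ FF * a0 l s p := mul_nonneg hmk0 ha00
      linarith

omit P in
lemma coeff_zero_mul (f g : ℝ⟦X⟧) : coeff 0 (f * g) = coeff 0 f * coeff 0 g := by
  rw [coeff_mul]; simp

/-- level three -/
lemma VP.Par.L3 : 0 ≤ (l - 1) ^ 2 / 8 * a0 l s p + (l - 1) / 2 * ((s - p) * a0 l s p + a1 l s p)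
    + (a0 l s p * (s - p) * (s - p + 2) / 2 + a1 l s p * (1 + (s - p)) + a2 l s p)
    + ((om l s p * (1 + 4 * s) + 9 * s) * (1 - om l s p) * (1 - om l s p + 2) / 2
      + (-(s * (5 * om l s p + 3))) * (1 + (1 - om l s p)) + s * om l s p) := by
  have hl := P.hl; have h0 := P.h0; have h1 := P.h1; have hp := P.hp; have hps := P.p_le
  have hω := P.om_ge
  have ha := P.a0_nonneg
  have h4 := P.k1_two
  have hk2 := P.k2_ge; have hp2 := pK2 l s hl h0 h1
  set ω : ℝ := om l s p with hωd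
  have q1 : 0 ≤ (ω * (1 + 4 * s) + 9 * s) * ((ω - 1) * (ω - 3)) := by
    apply mul_nonneg
    · have : 0 ≤ ω * (1 + 4 * s) := mul_nonneg (by linarith) (by linarith)
      linarith
    · exact mul_nonneg (by linarith) (by linarith)
  have q2 : 0 ≤ s * (5 * ω + 3) * (ω - 2) :=
    mul_nonneg (mul_nonneg (by linarith) (by linarith)) (by linarith)
  have q3 : 0 ≤ s * ω := mul_nonneg (by linarith) (by linarith)
  have q4 : 0 ≤ (l - 1) / 2 * (a0 l s p / 4 + ((s - p) * a0 l s p + a1 l s p)) :=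
    mul_nonneg (by linarith) h4
  have q5 : 0 ≤ a0 l s p * ((l - 1) ^ 2 / 8 - (l - 1) / 8) := by
    apply mul_nonneg ha; nlinarith
  nlinarith

/-- level four -/
lemma VP.Par.L4 : 0 ≤ (l - 1) * ((l - 1) ^ 2 + 4) / 48 * a0 l s p
    + (l - 1) ^ 2 / 8 * ((s - p) * a0 l s p + a1 l s p)
    + (l - 1) / 2 * (a0 l s p * (s - p) * (s - p + 2) / 2 + a1 l s p * (1 + (s - p)) + a2 l s p)
    + (a0 l s p * (s - p) * (s - p + 3) ^ 2 / 6 + a1 l s p * (1 + (s - p)) * (3 + (s - p)) / 2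
      + a2 l s p * (2 + (s - p)))
    + ((om l s p * (1 + 4 * s) + 9 * s) * (1 - om l s p) * (1 - om l s p + 3) ^ 2 / 6
      + (-(s * (5 * om l s p + 3))) * (1 + (1 - om l s p)) * (3 + (1 - om l s p)) / 2
      + s * om l s p * (2 + (1 - om l s p)))
    + 4 * (HH l s * ((s + 1 / 4) * (s + 1 / 4 + 2) / 2 - Real.exp 2)) := by
  have hl := P.hl; have h0 := P.h0; have h1 := P.h1; have hp := P.hp; have hps := P.p_le
  have hω := P.om_ge
  have hop := P.om_le
  have he := exp_two_lt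
  have hH := P.HH_pos
  have hA0 := P.a0_ge
  have hK1 := P.k1_ge
  have hK2 := P.k2_ge
  have hK3 := P.k3_ge
  have hL := pL4 l s hl h0 h1
  set ω : ℝ := om l s p with hωd
  set o : ℝ := op l s with ho
  have hs : 0 ≤ s := by linarith
  have y1 : (ω * (1 + 4 * s) + 9 * s) * (ω - 1) * (ω - 4) ^ 2 / 6
      ≤ S0 l s * (o - 1) * (o - 4) ^ 2 / 6 := by
    have e1 : ω * (1 + 4 * s) + 9 * s ≤ S0 l s := by unfold S0; nlinarith
    have e0 : 0 ≤ ω * (1 + 4 * s) + 9 * s := by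
      have : 0 ≤ ω * (1 + 4 * s) := mul_nonneg (by linarith) (by linarith)
      linarith
    have e2 : 0 ≤ ω - 1 := by linarith
    have e3 : 0 ≤ ω - 4 := by linarith
    have e4 : ω - 1 ≤ o - 1 := by linarith
    have e5 : ω - 4 ≤ o - 4 := by linarith
    have e6 : 0 ≤ S0 l s := e0.trans e1
    have e7 : 0 ≤ S0 l s * (o - 1) := mul_nonneg e6 (by linarith)
    gcongr
  have y2 : s * (5 * ω + 3) * (ω - 2) * (ω - 4) / 2 ≤ s * (5 * o + 3) * (o - 2) * (o - 4) / 2 := by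
    have e2 : 0 ≤ ω - 2 := by linarith
    have e3 : 0 ≤ ω - 4 := by linarith
    have e4 : ω - 2 ≤ o - 2 := by linarith
    have e5 : ω - 4 ≤ o - 4 := by linarith
    have e6 : 0 ≤ 5 * o + 3 := by linarith
    have e7 : 0 ≤ o - 2 := by linarith
    have e8 : 0 ≤ 5 * ω + 3 := by linarith
    gcongr
  have y3 : s * ω * (ω - 3) ≤ s * o * (o - 3) := by
    have e2 : 0 ≤ ω - 3 := by linarith
    have e4 : ω - 3 ≤ o - 3 := by linarith
    have e5 : 0 ≤ ω := by linarith
    have e6 : 0 ≤ o := by linarith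
    gcongr
  have z1 : A0 l s * ((l - 1) * ((l - 1) ^ 2 + 4) / 48) ≤ (l - 1) * ((l - 1) ^ 2 + 4) / 48 * a0 l s p := by
    rw [mul_comm]
    apply mul_le_mul_of_nonneg_left hA0
    have : 0 ≤ l - 1 := by linarith
    positivity
  have z2 : K1 l s * ((l - 1) ^ 2 / 8) ≤ (l - 1) ^ 2 / 8 * ((s - p) * a0 l s p + a1 l s p) := by
    rw [mul_comm]
    exact mul_le_mul_of_nonneg_left hK1 (by positivity)
  have z3 : K2 l s * ((l - 1) / 2) ≤ (l - 1) / 2 * (a0 l s p * (s - p) * (s - p + 2) / 2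
      + a1 l s p * (1 + (s - p)) + a2 l s p) := by
    rw [mul_comm]
    exact mul_le_mul_of_nonneg_left hK2 (by linarith)
  have z4 : 4 * HH l s * (Real.exp 2 - (s + 1 / 4) * (s + 1 / 4 + 2) / 2)
      ≤ 4 * HH l s * (7.3891 - (s + 1 / 4) * (2 + (s + 1 / 4)) / 2) := by
    apply mul_le_mul_of_nonneg_left _ (by linarith)
    linarith
  have w1 : (ω * (1 + 4 * s) + 9 * s) * (1 - ω) * (1 - ω + 3) ^ 2 / 6
      = - ((ω * (1 + 4 * s) + 9 * s) * (ω - 1) * (ω - 4) ^ 2 / 6) := by ring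
  have w2 : (-(s * (5 * ω + 3))) * (1 + (1 - ω)) * (3 + (1 - ω)) / 2
      = - (s * (5 * ω + 3) * (ω - 2) * (ω - 4) / 2) := by ring
  have w3 : s * ω * (2 + (1 - ω)) = - (s * ω * (ω - 3)) := by ring
  rw [w1, w2, w3]
  linarith

end

/-- **All levels of the second membership.** -/
theorem NN_BB (i : ℕ) (s p : ℝ) (P : Par ((i : ℝ) + 2) s p) (hp : p * 2 ^ (i + 1 + 1 + 1) = 1) :
    NN (BB i s p) := by
  have hl := P.hl; have h0 := P.h0; have h1 := P.h1; have hp0 := P.hp; have hps := P.p_le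
  have hH := P.HH_pos
  have hT := NN_T2 (i + 2) (1 / 2 - s + p) (by linarith) (by linarith)
  intro n
  match n with
  | 0 => rw [coeff_BB_zero]
  | N + 1 =>
    have h := coeff_BB i s p hp N
    have hTN := hT (N + 1)
    have hN0 : (0 : ℝ) < (N : ℝ) + 1 := by positivity
    rw [← mul_nonneg_iff_of_pos_left hN0, h]
    set l : ℝ := (i : ℝ) + 2 with hld
    obtain ⟨b1, b2, b3⟩ := coeff_bb_pow (i + 1)
    have b0 := coeff_bb_pow_zero (i + 1)
    have hM : (((i + 1 : ℕ) : ℝ)) = l - 1 := by rw [hld]; push_cast; ring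
    rw [hM] at b1 b2 b3
    have hω := P.om_ge
    have ha := P.a0_nonneg
    match N with
    | 0 =>
      have e1 : coeff (0 + 1) ((X : ℝ⟦X⟧) ^ 2 * ab (s + 1 / 4)) = 0 := by
        rw [show (X : ℝ⟦X⟧) ^ 2 * ab (s + 1 / 4) = X * (X * ab (s + 1 / 4)) by ring, coeff_succ_X_mul]
        simp
      have e2 : coeff (0 + 1) ((X : ℝ⟦X⟧) ^ 4 * ab (s + 1 / 4)) = 0 := by
        rw [show (X : ℝ⟦X⟧) ^ 4 * ab (s + 1 / 4) = X * (X * (X ^ 2 * ab (s + 1 / 4))) by ring,
          coeff_succ_X_mul]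
        simp
      have e3 : coeff 0 (bb ^ (i + 1) * KK (s - p) (a0 l s p) (a1 l s p) (a2 l s p)) = a0 l s p := by
        rw [coeff_zero_mul, b0, coeff_KK_zero, one_mul]
      rw [e1, e2, e3, coeff_KK_zero]
      have : 0 ≤ om l s p * (1 + 4 * s) := mul_nonneg (by linarith) (by linarith)
      have h5 : 0 ≤ coeff (0 + 1) (T2 (i + 2) (1 / 2 - s + p)
        + bb ^ (i + 2) * (X * ab (1 - (1 / 2 - s + p)))) := hTN
      linarith
    | 1 =>
      have e1 : coeff (1 + 1) ((X : ℝ⟦X⟧) ^ 2 * ab (s + 1 / 4)) = 1 := by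
        rw [show (X : ℝ⟦X⟧) ^ 2 * ab (s + 1 / 4) = X * (X * ab (s + 1 / 4)) by ring, coeff_succ_X_mul,
          coeff_one_X_mul, coeff_ab_zero]
      have e2 : coeff (1 + 1) ((X : ℝ⟦X⟧) ^ 4 * ab (s + 1 / 4)) = 0 := by
        rw [show (X : ℝ⟦X⟧) ^ 4 * ab (s + 1 / 4) = X * (X * (X * (X * ab (s + 1 / 4)))) by ring,
          coeff_succ_X_mul, coeff_one_X_mul]
        simp
      rw [e1, e2, coeff_mul_one, b0, b1, coeff_KK_zero, coeff_KK_one, coeff_KK_one]
      have h5 := P.L2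
      push_cast
      linarith
    | 2 =>
      have e1 : coeff (2 + 1) ((X : ℝ⟦X⟧) ^ 2 * ab (s + 1 / 4)) = s + 1 / 4 := by
        rw [show (X : ℝ⟦X⟧) ^ 2 * ab (s + 1 / 4) = X * (X * ab (s + 1 / 4)) by ring, coeff_succ_X_mul,
          coeff_two_X_mul, coeff_ab_one]
      have e2 : coeff (2 + 1) ((X : ℝ⟦X⟧) ^ 4 * ab (s + 1 / 4)) = 0 := by
        rw [show (X : ℝ⟦X⟧) ^ 4 * ab (s + 1 / 4) = X * (X * (X * (X * ab (s + 1 / 4)))) by ring,
          coeff_succ_X_mul, coeff_two_X_mul, coeff_one_X_mul]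
        simp
      rw [e1, e2, coeff_mul_two, b0, b1, b2, coeff_KK_zero, coeff_KK_one, coeff_KK_two, coeff_KK_two]
      have h5 := P.L3
      have h6 : 0 ≤ HH l s * (s + 1 / 4) := mul_nonneg hH.le (by linarith)
      push_cast
      linarith
    | 3 =>
      have e1 : coeff (3 + 1) ((X : ℝ⟦X⟧) ^ 2 * ab (s + 1 / 4)) = (s + 1 / 4) * (s + 1 / 4 + 2) / 2 := by
        rw [show (X : ℝ⟦X⟧) ^ 2 * ab (s + 1 / 4) = X * (X * ab (s + 1 / 4)) by ring, coeff_succ_X_mul,
          coeff_three_X_mul, coeff_ab_two]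
      have e2 : coeff (3 + 1) ((X : ℝ⟦X⟧) ^ 4 * ab (s + 1 / 4)) = 1 := by
        rw [show (X : ℝ⟦X⟧) ^ 4 * ab (s + 1 / 4) = X * (X * (X * (X * ab (s + 1 / 4)))) by ring,
          coeff_succ_X_mul, coeff_three_X_mul, coeff_two_X_mul, coeff_one_X_mul, coeff_ab_zero]
      rw [e1, e2, coeff_mul_three, b0, b1, b2, b3, coeff_KK_zero, coeff_KK_one, coeff_KK_two,
        coeff_KK_three, coeff_KK_three]
      have h5 := P.L4
      push_cast
      linarith
    | k + 4 =>
      have e1 : coeff (k + 4 + 1) ((X : ℝ⟦X⟧) ^ 2 * ab (s + 1 / 4)) = coeff (k + 3) (ab (s + 1 / 4)) := by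
        rw [show (X : ℝ⟦X⟧) ^ 2 * ab (s + 1 / 4) = X * (X * ab (s + 1 / 4)) by ring, coeff_succ_X_mul,
          show k + 4 = (k + 3) + 1 by rfl, coeff_succ_X_mul]
      have e2 : coeff (k + 4 + 1) ((X : ℝ⟦X⟧) ^ 4 * ab (s + 1 / 4)) = coeff (k + 1) (ab (s + 1 / 4)) := by
        rw [show (X : ℝ⟦X⟧) ^ 4 * ab (s + 1 / 4) = X * (X * (X * (X * ab (s + 1 / 4)))) by ring,
          coeff_succ_X_mul, show k + 4 = (k + 3) + 1 by rfl, coeff_succ_X_mul,
          show k + 3 = (k + 2) + 1 by rfl, coeff_succ_X_mul,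
          show k + 2 = (k + 1) + 1 by rfl, coeff_succ_X_mul]
      rw [e1, e2]
      have h5 := P.level i (by rw [hld]; ring) k
      have h6 := corr_bound (s + 1 / 4) (by linarith) (k + 1) (by omega)
      have h7 := mul_le_mul_of_nonneg_left h6 hH.le
      rw [show k + 1 + 2 = k + 3 by rfl] at h7
      push_cast at h7 ⊢
      have e3 : ((k : ℝ) + 4 + 1) * (HH l s * (coeff (k + 3) (ab (s + 1 / 4))
          - Real.exp 2 * coeff (k + 1) (ab (s + 1 / 4))))
          = HH l s * (((k : ℝ) + 1 + 4) * (coeff (k + 3) (ab (s + 1 / 4))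
          - Real.exp 2 * coeff (k + 1) (ab (s + 1 / 4)))) := by ring
      rw [e3]
      have h8 : 0 ≤ coeff (k + 4 + 1) (T2 (i + 2) (1 / 2 - s + p)
        + bb ^ (i + 2) * (X * ab (1 - (1 / 2 - s + p)))) := hTN
      linarith

end Pool.Agent.Lib_helper91.SRCH
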