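import Pool.Agent.Lib_helper91.SRCH.VC
import Pool.Agent.Lib_helper91.SRCH.VA

set_option autoImplicit false

/-! # The certificate for the honest child with `l ≥ 21` leaves, all `0 ≤ ρ ≤ 1/8` -/

namespace Pool.Agent.Lib_helper91.SRCH

open Finset PowerSeries Pool.Agent.Lib_helper36.SRC VP

lemma S_bb : S bb = C 2 * ((1 + C (1 / 2) * (X - 1)) * Ex (-(1 / 2))) := by
  unfold bb; rw [map_mul, S_C, S_kc]

lemma S_qq (a b c : ℝ) : S (qq a b c) = C a + C b * X + C c * X ^ 2 := by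
  unfold qq; rw [map_add, map_add, map_mul, map_mul, map_pow, S_C, S_C, S_C, S_PP]

lemma Ex_cancel (a b : ℝ) (h : a + b = 0) : Ex a * Ex b = 1 := by rw [← Ex_add, h, Ex_zero]

lemma lp_small (l : ℕ) (hl : 21 ≤ l) : (l : ℝ) * (1 / 2) ^ (l + 1) ≤ 1 / 10 ^ 5 := by
  induction l, hl using Nat.le_induction with
  | base => norm_num
  | succ n hn ih =>
    have h1 : (21 : ℝ) ≤ n := by exact_mod_cast hn
    have h2 : (0 : ℝ) < (1 / 2) ^ (n + 1) := by positivity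
    rw [pow_succ]
    push_cast
    nlinarith

/-- **Certificate.** -/
theorem cert_large (l : ℕ) (hl : 21 ≤ l) (ρ : ℝ) (h0 : 0 ≤ ρ) (h1 : ρ ≤ 1 / 8) :
    ∃ (a : ℝ) (G : ℝ⟦X⟧), 0 < a ∧
      InW ((l : ℝ) / 2 + (1 / 2) ^ (l + 1) + 1 / 4 - 1 / 2) G ∧
      InW ((l : ℝ) / 2 + (1 / 2) ^ (l + 1) + 1 / 4 - ρ)
        (C a * ((1 + C (1 / 2) * (X - 1)) ^ l + C ((1 / 2) ^ (l + 1)) * (X - 1)) - G) ∧
      InW ((l : ℝ) / 2 + (1 / 2) ^ (l + 1) + 1 / 4 + ρ)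
        (C a * ((1 + C (1 / 2) * (X - 1)) * (1 + C (1 / 2) * (X - 1)) ^ l
          + C ((1 / 2) ^ (l + 1)) * (X - 1)) - X * G) := by
  obtain ⟨i, rfl⟩ : ∃ i, l = i + 2 := ⟨l - 2, by omega⟩
  have hlp := lp_small (i + 2) hl
  set p : ℝ := (1 / 2) ^ (i + 2 + 1) with hp
  set s : ℝ := 1 / 4 - ρ with hs
  have hp0 : 0 < p := by rw [hp]; positivity
  have hp2 : p * 2 ^ (i + 1 + 1 + 1) = 1 := by
    rw [hp, show i + 2 + 1 = i + 1 + 1 + 1 by ring, ← mul_pow]; norm_num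
  have hlr : (21 : ℝ) ≤ ((i + 2 : ℕ) : ℝ) := by exact_mod_cast hl
  have P : Par ((i : ℝ) + 2) s p := by
    refine ⟨?_, ?_, ?_, hp0.le, ?_⟩
    · push_cast at hlr; exact hlr
    · rw [hs]; linarith
    · rw [hs]; linarith
    · push_cast at hlp; exact hlp
  have P' : Par (((i + 1 : ℕ) : ℝ) + 1) s p := by
    have e : (((i + 1 : ℕ) : ℝ) + 1) = (i : ℝ) + 2 := by push_cast; ring
    rw [e]; exact P
  have hB := NN_BB i s p P hp2
  have hA := NN_AA (i + 1) s p P' (by omega) hp2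
  have hF := NN_FF (i + 1) s p P' (by omega) hp2
  set δ : ℝ := ((i + 2 : ℕ) : ℝ) / 2 + p with hδ
  set H : ℝ := HH ((i : ℝ) + 2) s with hH
  have hH' : HH (((i + 1 : ℕ) : ℝ) + 1) s = H := by
    rw [hH]; congr 1; push_cast; ring
  have hδ' : (((i + 1 : ℕ) : ℝ) + 1) / 2 + p = δ := by rw [hδ]; push_cast; ring
  have k0 : (C p : ℝ⟦X⟧) * (C 2 * C (2 ^ (i + 2))) = 1 := by
    rw [← map_mul, ← map_mul, ← map_one (C (R := ℝ))]; congr 1
    rw [← hp2]; ring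
  set Kl : ℝ⟦X⟧ := (1 + C (1 / 2) * (X - 1)) ^ (i + 2) with hKl
  have hbbl : ∀ d : ℝ, S (bb ^ (i + 2) * ab d) = C (2 ^ (i + 2)) * (Kl * Ex (d - ((i + 2 : ℕ) : ℝ) / 2)) := by
    intro d
    rw [map_mul, map_pow, S_bb, S_ab, mul_pow, mul_pow, Ex_pow, ← map_pow]
    have : Ex (d - ((i + 2 : ℕ) : ℝ) / 2) = Ex (((i + 2 : ℕ) : ℝ) * -(1 / 2)) * Ex d := by
      rw [← Ex_add]; congr 1; ring
    rw [this]; ring
  have hDT : S (DT (i + 1) p) = (C 2 * C (2 ^ (i + 2)) * Kl + (X - 1)) * Ex (-δ) := by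
    unfold DT
    rw [hδ', show i + 1 + 1 = i + 2 by ring, map_add, map_mul, S_C, hbbl, map_mul, map_sub, map_one,
      S_PP, S_ab]
    have : -p - ((i + 2 : ℕ) : ℝ) / 2 = -δ := by rw [hδ]; ring
    rw [this]; ring
  have hkc : S (kc (-(1 / 4))) = (1 + C (-(1 / 4)) * (X - 1)) * Ex (1 / 4) := by
    rw [S_kc, neg_neg]
  -- the gadget
  have hSF : S (FF (i + 1) s p) = C (4 * s) * (((C 2 * C (2 ^ (i + 2)) * Kl + (X - 1)) * Ex (-δ))
      * ((1 + C (-(1 / 4)) * (X - 1)) * Ex (1 / 4)))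
      - C H * (X * Ex (-1) - C (Real.exp 2) * (X ^ 3 * Ex (-3))) := by
    unfold FF
    rw [hH', map_sub S, map_mul S, map_mul S (DT (i + 1) p), hDT, hkc, map_mul S, map_sub S, map_mul S,
      S_C, S_C, S_C, S_X, S_X_pow]
    norm_num
  have hSA : S (AA (i + 1) s p) = ((C 2 * C (2 ^ (i + 2)) * Kl + (X - 1)) * Ex (-δ))
      * ((1 + C s * (X - 1)) * Ex (-s))
      + C H * (X * Ex (-1) * Ex (-(s + 1 / 4))
        - C (Real.exp 2) * (X ^ 3 * Ex (-3) * Ex (-(s + 1 / 4)))) := by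
    unfold AA
    rw [hH', map_add S, map_mul S, hDT, S_kc, map_mul S, map_sub S, map_mul S X, map_mul S (C (Real.exp 2)),
      map_mul S (X ^ 3), S_C, S_C, S_X, S_X_pow, S_ab]
    norm_num
  have hSB : S (BB i s p) = C 2 * (C (2 ^ (i + 2)) * (Kl * Ex (-(1 / 2 - s + p) - ((i + 2 : ℕ) : ℝ) / 2)))
      * (C (1 / 2 + 2 * s) + C (1 / 2 - 3 * s) * X + C s * X ^ 2)
      + Ex (-om ((i : ℝ) + 2) s p) * ((X - 1) * (C (1 + 4 * s) + C (-(5 * s)) * X + C s * X ^ 2))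
      + C H * (X ^ 2 * Ex (-2) * Ex (s + 1 / 4)
        - C (Real.exp 2) * (X ^ 4 * Ex (-4) * Ex (s + 1 / 4))) := by
    unfold BB
    rw [show i + 1 + 1 = i + 2 by ring, ← hH]
    rw [map_add S, map_add S, map_mul S, map_mul S (C 2), hbbl, S_C, S_qq, map_mul S, map_mul S (PP - 1),
      map_sub S, map_one S, S_PP, S_qq, S_ab, map_mul S, map_sub S, map_mul S (X ^ 2),
      map_mul S (C (Real.exp 2)), map_mul S (X ^ 4), S_C, S_C, S_X_pow, S_X_pow, S_ab]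
    norm_num
  set ν : ℝ := ((i + 2 : ℕ) : ℝ) / 2 + p + 1 / 4 - 1 / 2 with hν
  refine ⟨4 * s + 1, Ex ν * S (C p * FF (i + 1) s p), ?_, ?_, ?_, ?_⟩
  · rw [hs]; linarith
  · exact InW.intro (hF.smul hp0.le) rfl
  · refine InW.intro (hA.smul hp0.le) ?_
    have hfr : ((i + 2 : ℕ) : ℝ) / 2 + p + 1 / 4 - ρ = δ + s := by rw [hδ, hs]; ring
    rw [hfr, map_mul S, map_mul S, S_C, hSF, hSA]
    have hν2 : ν = δ - 1 / 4 := by rw [hν, hδ]; ring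
    rw [hν2]
    -- exponential relations
    have x1 : Ex (δ - 1 / 4) * (Ex (-δ) * Ex (1 / 4)) = 1 := by
      rw [← Ex_add, ← Ex_add, ← Ex_zero]; congr 1; ring
    have x2 : Ex (δ + s) * (Ex (-δ) * Ex (-s)) = 1 := by
      rw [← Ex_add, ← Ex_add, ← Ex_zero]; congr 1; ring
    have x3 : Ex (δ + s) * Ex (-(s + 1 / 4)) = Ex (δ - 1 / 4) := by rw [← Ex_add]; congr 1; ring
    have c1 : (C (4 * s + 1) : ℝ⟦X⟧) = 4 * C s + 1 := by
      rw [map_add, map_mul, map_one, map_ofNat]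
    have c2 : (C (4 * s) : ℝ⟦X⟧) = 4 * C s := by rw [map_mul, map_ofNat]
    have c3 : (4 : ℝ⟦X⟧) * C (-(1 / 4)) = -1 := by
      have : (4 : ℝ⟦X⟧) = C 4 := (map_ofNat (C (R := ℝ)) 4).symm
      rw [this, ← map_mul, ← map_one (C (R := ℝ)), ← map_neg]; norm_num
    rw [c1, c2]
    have hD : Kl + C p * (X - 1) = C p * (C 2 * C (2 ^ (i + 2)) * Kl + (X - 1)) := by
      linear_combination (-Kl) * k0
    rw [hD]
    generalize C 2 * C (2 ^ (i + 2)) * Kl + (X - 1) = DD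
    linear_combination (- C p * 4 * C s * DD * (1 + C (-(1 / 4)) * (X - 1))) * x1
      - (C p * DD * (1 + C s * (X - 1))) * x2
      - (C p * C H * (X * Ex (-1) - C (Real.exp 2) * X ^ 3 * Ex (-3))) * x3
      - (C p * DD * C s * (X - 1)) * c3
  · refine InW.intro (hB.smul hp0.le) ?_
    have hfr : ((i + 2 : ℕ) : ℝ) / 2 + p + 1 / 4 + ρ = om ((i : ℝ) + 2) s p := by
      rw [hs]; unfold om; push_cast; ring
    rw [hfr, map_mul S, map_mul S, S_C, hSF, hSB]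
    set ω : ℝ := om ((i : ℝ) + 2) s p with hω
    have hω2 : ω = ((i + 2 : ℕ) : ℝ) / 2 + (1 / 2 - s + p) := by rw [hω]; unfold om; push_cast; ring
    have hν2 : ν = δ - 1 / 4 := by rw [hν, hδ]; ring
    have e1 : -(1 / 2 - s + p) - ((i + 2 : ℕ) : ℝ) / 2 = -ω := by rw [hω2]; ring
    rw [hν2, e1]
    have x1 : Ex (δ - 1 / 4) * (Ex (-δ) * Ex (1 / 4)) = 1 := by
      rw [← Ex_add, ← Ex_add, ← Ex_zero]; congr 1; ring
    have x2 : Ex ω * Ex (-ω) = 1 := Ex_mul_neg ω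
    have x3 : Ex ω * (Ex (-2) * Ex (s + 1 / 4)) = Ex (δ - 1 / 4) * Ex (-1) := by
      rw [← Ex_add, ← Ex_add, ← Ex_add]; congr 1; rw [hω2, hδ]; ring
    have x4 : Ex ω * (Ex (-4) * Ex (s + 1 / 4)) = Ex (δ - 1 / 4) * Ex (-3) := by
      rw [← Ex_add, ← Ex_add, ← Ex_add]; congr 1; rw [hω2, hδ]; ring
    have c1 : (C (4 * s + 1) : ℝ⟦X⟧) = 4 * C s + 1 := by
      rw [map_add, map_mul, map_one, map_ofNat]
    have c2 : (C (4 * s) : ℝ⟦X⟧) = 4 * C s := by rw [map_mul, map_ofNat]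
    have c3 : (4 : ℝ⟦X⟧) * C (-(1 / 4)) = -1 := by
      have : (4 : ℝ⟦X⟧) = C 4 := (map_ofNat (C (R := ℝ)) 4).symm
      rw [this, ← map_mul, ← map_one (C (R := ℝ)), ← map_neg]; norm_num
    have c4 : (2 : ℝ⟦X⟧) * C (1 / 2) = 1 := by
      have : (2 : ℝ⟦X⟧) = C 2 := (map_ofNat (C (R := ℝ)) 2).symm
      rw [this, ← map_mul, ← map_one (C (R := ℝ))]; norm_num
    have c5 : (C (1 / 2 + 2 * s) : ℝ⟦X⟧) = C (1 / 2) + 2 * C s := by
      rw [map_add, map_mul, map_ofNat]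
    have c6 : (C (1 / 2 - 3 * s) : ℝ⟦X⟧) = C (1 / 2) - 3 * C s := by
      rw [map_sub, map_mul, map_ofNat]
    have c7 : (C (1 + 4 * s) : ℝ⟦X⟧) = 1 + 4 * C s := by
      rw [map_add, map_mul, map_one, map_ofNat]
    have c8 : (C (-(5 * s)) : ℝ⟦X⟧) = -(5 * C s) := by rw [map_neg, map_mul, map_ofNat]
    rw [c1, c2, c5, c6, c7, c8]
    clear_value Kl
    generalize (C (2 ^ (i + 2)) : ℝ⟦X⟧) = T at *
    have c9 : (C 2 : ℝ⟦X⟧) = 2 := map_ofNat (C (R := ℝ)) 2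
    rw [c9] at k0 ⊢
    linear_combination
      (- X * C p * 4 * C s * (2 * T * Kl + (X - 1)) * (1 + C (-(1 / 4)) * (X - 1))) * x1
      - (C p * (2 * T * Kl * (C (1 / 2) + 2 * C s + (C (1 / 2) - 3 * C s) * X + C s * X ^ 2)
        + (X - 1) * (1 + 4 * C s + -(5 * C s) * X + C s * X ^ 2))) * x2
      - (C p * C H * X ^ 2) * x3 + (C p * C H * C (Real.exp 2) * X ^ 4) * x4
      - (X * C p * (2 * T * Kl + (X - 1)) * C s * (X - 1)) * c3
      - ((4 * C s + 1) * (1 + C (1 / 2) * (X - 1)) * Kl) * k0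
      + (C p * 2 * T * Kl * (2 * C s * (X - 1) - 1)) * c4

end Pool.Agent.Lib_helper91.SRCH
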