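import Pool.Agent.Lib_helper91.SRCH.VPoly
import Pool.Agent.Lib_helper91.SRCH.VNum

set_option autoImplicit false

/-! # The parameters of the second membership -/

namespace Pool.Agent.Lib_helper91.SRCH.VP

/-- the range of the parameters -/
structure Par (l s p : ℝ) : Prop where
  hl : 21 ≤ l
  h0 : 1 / 8 ≤ s
  h1 : s ≤ 1 / 4
  hp : 0 ≤ p
  hlp : l * p ≤ 1 / 10 ^ 5

/-- first coefficient -/
noncomputable def a0 (l s p : ℝ) : ℝ :=
  l * (1 / 2 + 2 * s) + 2 * ((1 / 2 - s + p) * (1 / 2 - 2 * s) - 2 * s) - 1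
/-- second coefficient -/
noncomputable def a1 (l s p : ℝ) : ℝ :=
  l * (1 / 2 - 3 * s) + 2 * (((1 / 2 - s + p) * (1 / 2 - 2 * s) - 2 * s) + (1 / 2 - s + p) * s) - 1
/-- third coefficient -/
noncomputable def a2 (l s p : ℝ) : ℝ := l * s + 2 * ((1 / 2 - s + p) * s)
/-- the frame -/
noncomputable def om (l s p : ℝ) : ℝ := l / 2 + (1 / 2 - s + p)

section
variable {l s p : ℝ} (P : Par l s p)
include P

lemma Par.p_le : p ≤ 1 / 10 ^ 6 := by
  have h1 := P.hl; have h2 := P.hlp; have h3 := P.hp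
  nlinarith

lemma Par.a0_ge : A0 l s ≤ a0 l s p := by
  have h0 := P.h0; have h1 := P.h1; have h3 := P.hp
  unfold A0 a0; nlinarith

lemma Par.a0_le : a0 l s p ≤ A0 l s + 1 / 10 ^ 6 := by
  have h0 := P.h0; have h1 := P.h1; have h3 := P.hp; have h4 := P.p_le
  unfold A0 a0; nlinarith

lemma Par.a1_ge : A1 l s ≤ a1 l s p := by
  have h0 := P.h0; have h1 := P.h1; have h3 := P.hp
  unfold A1 a1; nlinarith

lemma Par.a2_ge : A2 l s ≤ a2 l s p := by
  have h0 := P.h0; have h1 := P.h1; have h3 := P.hp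
  unfold A2 a2; nlinarith

lemma Par.A0_pos : 10 ≤ A0 l s := by
  have := pA0 l s P.hl P.h0 P.h1; linarith

lemma Par.A0_le : A0 l s ≤ l := by
  have h0 := P.h0; have h1 := P.h1; have hl := P.hl
  unfold A0; nlinarith

lemma Par.A1_le : A1 l s ≤ l := by
  have h0 := P.h0; have h1 := P.h1; have hl := P.hl
  unfold A1; nlinarith

lemma Par.A1_le' : - l ≤ A1 l s := by
  have h0 := P.h0; have h1 := P.h1; have hl := P.hl
  unfold A1; nlinarith

lemma Par.A2_pos : 0 ≤ A2 l s := by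
  have h0 := P.h0; have h1 := P.h1; have hl := P.hl
  unfold A2; nlinarith

lemma Par.A2_le : A2 l s ≤ l := by
  have h0 := P.h0; have h1 := P.h1; have hl := P.hl
  unfold A2; nlinarith

/-- products with `p` are tiny -/
lemma Par.tiny {a : ℝ} (ha : a ≤ l) : p * a ≤ 1 / 10 ^ 5 := by
  have h2 := P.hlp; have h3 := P.hp
  nlinarith

lemma Par.k1_ge : K1 l s ≤ (s - p) * a0 l s p + a1 l s p := by
  have h0 := P.h0; have h1 := P.h1; have hp := P.hp
  have e1 := P.a0_ge; have e2 := P.a1_ge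
  have t := P.tiny P.A0_le
  have hps := P.p_le
  have h5 : (s - p) * A0 l s ≤ (s - p) * a0 l s p := mul_le_mul_of_nonneg_left e1 (by linarith)
  unfold K1
  nlinarith

lemma Par.k2_ge : K2 l s ≤ a0 l s p * (s - p) * (s - p + 2) / 2 + a1 l s p * (1 + (s - p))
    + a2 l s p := by
  have h0 := P.h0; have h1 := P.h1; have hp := P.hp
  have e1 := P.a0_ge; have e2 := P.a1_ge; have e3 := P.a2_ge
  have t := P.tiny P.A0_le
  have t1 := P.tiny P.A1_le
  have hA := P.A0_pos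
  have hps := P.p_le
  have h5 : A0 l s * ((s - p) * (s - p + 2) / 2) ≤ a0 l s p * ((s - p) * (s - p + 2) / 2) :=
    mul_le_mul_of_nonneg_right e1 (by
      have : 0 ≤ (s - p) * (s - p + 2) := mul_nonneg (by linarith) (by linarith)
      linarith)
  have h6 : A1 l s * (1 + (s - p)) ≤ a1 l s p * (1 + (s - p)) :=
    mul_le_mul_of_nonneg_right e2 (by linarith)
  have h7 : p * A0 l s * ((2 * s + 2 - p) / 2) ≤ 1 / 10 ^ 5 * (5 / 4) := by
    apply mul_le_mul t _ _ (by norm_num)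
    · linarith
    · linarith
  unfold K2
  nlinarith

lemma Par.k3_ge : K3 l s ≤ a0 l s p * (s - p) * (s - p + 3) ^ 2 / 6
    + a1 l s p * (1 + (s - p)) * (3 + (s - p)) / 2 + a2 l s p * (2 + (s - p)) := by
  have h0 := P.h0; have h1 := P.h1; have hp := P.hp
  have e1 := P.a0_ge; have e2 := P.a1_ge; have e3 := P.a2_ge
  have t := P.tiny P.A0_le
  have t1 := P.tiny P.A1_le
  have t2 := P.tiny P.A2_le
  have hA := P.A0_pos
  have hA2 := P.A2_pos
  have hps := P.p_le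
  set x : ℝ := s - p with hx
  have hx0 : 0 ≤ x := by rw [hx]; linarith
  have hx1 : x ≤ 1 / 4 := by rw [hx]; linarith
  have h5 : A0 l s * (x * (x + 3) ^ 2 / 6) ≤ a0 l s p * (x * (x + 3) ^ 2 / 6) :=
    mul_le_mul_of_nonneg_right e1 (by positivity)
  have h6 : A1 l s * ((1 + x) * (3 + x) / 2) ≤ a1 l s p * ((1 + x) * (3 + x) / 2) :=
    mul_le_mul_of_nonneg_right e2 (by positivity)
  have h8 : A2 l s * (2 + x) ≤ a2 l s p * (2 + x) := mul_le_mul_of_nonneg_right e3 (by linarith)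
  have hs : s = x + p := by rw [hx]; ring
  have d1 : s * (s + 3) ^ 2 / 6 - x * (x + 3) ^ 2 / 6 ≤ 3 * p := by
    rw [hs]; nlinarith [mul_nonneg hx0 hp, mul_nonneg hp hp, mul_nonneg (mul_nonneg hx0 hx0) hp,
      mul_nonneg hx0 (mul_nonneg hp hp), mul_nonneg hp (mul_nonneg hp hp)]
  have d1' : A0 l s * (s * (s + 3) ^ 2 / 6) ≤ A0 l s * (x * (x + 3) ^ 2 / 6) + 3 / 10 ^ 5 := by
    have : A0 l s * (s * (s + 3) ^ 2 / 6 - x * (x + 3) ^ 2 / 6) ≤ A0 l s * (3 * p) :=
      mul_le_mul_of_nonneg_left d1 (by linarith)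
    nlinarith
  have d2 : (1 + s) * (3 + s) / 2 - (1 + x) * (3 + x) / 2 = p * (4 + 2 * x + p) / 2 := by
    rw [hs]; ring
  have d2' : A1 l s * ((1 + s) * (3 + s) / 2) ≤ A1 l s * ((1 + x) * (3 + x) / 2) + 3 / 10 ^ 5 := by
    have e : A1 l s * ((1 + s) * (3 + s) / 2) = A1 l s * ((1 + x) * (3 + x) / 2)
        + (p * A1 l s) * ((4 + 2 * x + p) / 2) := by
      have : (1 + s) * (3 + s) / 2 = (1 + x) * (3 + x) / 2 + p * (4 + 2 * x + p) / 2 := by linarith
      rw [this]; ring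
    rw [e]
    have h9 : (p * A1 l s) * ((4 + 2 * x + p) / 2) ≤ 1 / 10 ^ 5 * ((4 + 2 * x + p) / 2) :=
      mul_le_mul_of_nonneg_right t1 (by linarith)
    nlinarith
  have d3 : A2 l s * (2 + s) ≤ A2 l s * (2 + x) + 1 / 10 ^ 5 := by
    rw [hs]
    have e : A2 l (x + p) * (2 + (x + p)) = A2 l (x + p) * (2 + x) + p * A2 l (x + p) := by ring
    rw [e, ← hs]; linarith
  unfold K3
  linarith

/-- the general coefficient -/
lemma Par.pk_ge (k : ℝ) (hk : 4 ≤ k) :
    0.8 * l * (s - p) * (k + (s - p)) ^ 2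
      ≤ a0 l s p * (s - p) * (k + (s - p)) ^ 2 + a1 l s p * (1 + (s - p)) * k * (k + (s - p))
        + a2 l s p * (2 + (s - p)) * k * (k - 1) := by
  have h0 := P.h0; have h1 := P.h1; have hp := P.hp; have hl := P.hl
  have e1 := P.a0_ge; have e2 := P.a1_ge; have e3 := P.a2_ge
  have t := P.tiny P.A0_le
  have t1 := P.tiny P.A1_le
  have t2 := P.tiny P.A2_le
  have hA := P.A0_pos
  have hA2 := P.A2_pos
  have hps := P.p_le
  have hF := pP l s k hk hl h0 h1
  set x : ℝ := s - p with hx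
  have hx0 : 0 ≤ x := by rw [hx]; linarith
  have hx1 : x ≤ 1 / 4 := by rw [hx]; linarith
  have hs : s = x + p := by rw [hx]; ring
  have hk0 : 0 ≤ k := by linarith
  have h5 : A0 l s * (x * (k + x) ^ 2) ≤ a0 l s p * (x * (k + x) ^ 2) :=
    mul_le_mul_of_nonneg_right e1 (by positivity)
  have h6 : A1 l s * ((1 + x) * k * (k + x)) ≤ a1 l s p * ((1 + x) * k * (k + x)) :=
    mul_le_mul_of_nonneg_right e2 (by positivity)
  have h8 : A2 l s * ((2 + x) * k * (k - 1)) ≤ a2 l s p * ((2 + x) * k * (k - 1)) :=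
    mul_le_mul_of_nonneg_right e3 (by
      have : 0 ≤ k - 1 := by linarith
      positivity)
  have d1 : s * (k + s) ^ 2 - x * (k + x) ^ 2 ≤ 2 * p * k ^ 2 := by
    have e : s * (k + s) ^ 2 - x * (k + x) ^ 2 = p * ((k + s) ^ 2 + x * (2 * k + s + x)) := by
      rw [hs]; ring
    have : (k + s) ^ 2 + x * (2 * k + s + x) ≤ 2 * k ^ 2 := by nlinarith
    rw [e]; nlinarith
  have d1' : A0 l s * (s * (k + s) ^ 2) ≤ A0 l s * (x * (k + x) ^ 2) + 2 / 10 ^ 5 * k ^ 2 := by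
    have h9 : A0 l s * (s * (k + s) ^ 2 - x * (k + x) ^ 2) ≤ A0 l s * (2 * p * k ^ 2) :=
      mul_le_mul_of_nonneg_left d1 (by linarith)
    have h10 : p * A0 l s * k ^ 2 ≤ 1 / 10 ^ 5 * k ^ 2 := mul_le_mul_of_nonneg_right t (by positivity)
    nlinarith
  have d2' : A1 l s * ((1 + s) * k * (k + s)) ≤ A1 l s * ((1 + x) * k * (k + x)) + 2 / 10 ^ 5 * k ^ 2 := by
    have e : A1 l s * ((1 + s) * k * (k + s)) = A1 l s * ((1 + x) * k * (k + x))
        + (p * A1 l s) * (k * (k + 1 + s + x)) := by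
      rw [hs]; ring
    rw [e]
    have h9 : (p * A1 l s) * (k * (k + 1 + s + x)) ≤ 1 / 10 ^ 5 * (k * (k + 1 + s + x)) :=
      mul_le_mul_of_nonneg_right t1 (by positivity)
    have h10 : k * (k + 1 + s + x) ≤ 2 * k ^ 2 := by nlinarith
    linarith
  have d3 : A2 l s * ((2 + s) * k * (k - 1)) ≤ A2 l s * ((2 + x) * k * (k - 1)) + 1 / 10 ^ 5 * k ^ 2 := by
    have e : A2 l s * ((2 + s) * k * (k - 1)) = A2 l s * ((2 + x) * k * (k - 1))
        + (p * A2 l s) * (k * (k - 1)) := by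
      rw [hs]; ring
    rw [e]
    have h9 : (p * A2 l s) * (k * (k - 1)) ≤ 1 / 10 ^ 5 * (k * (k - 1)) :=
      mul_le_mul_of_nonneg_right t2 (by
        have : 0 ≤ k - 1 := by linarith
        positivity)
    nlinarith
  have d4 : 0.8 * l * x * (k + x) ^ 2 ≤ 0.8 * l * s * (k + s) ^ 2 := by
    have hxs : x ≤ s := by rw [hx]; linarith
    gcongr
  have hk2 : 0 ≤ k ^ 2 := by positivity
  linarith

lemma Par.om_le : om l s p ≤ op l s := by
  have := P.p_le; unfold om op; linarith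

lemma Par.om_ge : 10.7 ≤ om l s p := by
  have h0 := P.h1; have h2 := P.hl; have h3 := P.hp
  unfold om; linarith

lemma Par.HH_pos : 0 < HH l s := by
  have h0 := P.h0; have h1 := P.h1; have hl := P.hl
  unfold HH
  have : 0 < l * s * (13 - 8 * s) := by
    apply mul_pos (mul_pos (by linarith) (by linarith)); linarith
  linarith

/-- level two -/
lemma Par.L2 : 0 ≤ (l - 1) / 2 * a0 l s p + ((s - p) * a0 l s p + a1 l s p)
    + ((1 - om l s p) * (om l s p * (1 + 4 * s) + 9 * s) + -(s * (5 * om l s p + 3)))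
    + 2 * HH l s := by
  have h0 := P.h0; have h1 := P.h1; have hp := P.hp; have hl := P.hl; have hlp := P.hlp
  have hps := P.p_le
  have e : (l - 1) / 2 * a0 l s p + ((s - p) * a0 l s p + a1 l s p)
    + ((1 - om l s p) * (om l s p * (1 + 4 * s) + 9 * s) + -(s * (5 * om l s p + 3)))
    + 2 * HH l s = 1 - 3 * s + 6 * s ^ 2 + p * (1 - 4 * s) - 2 * p ^ 2 - l * p * (1 + 8 * s) := by
    unfold a0 a1 om HH; ring
  rw [e]
  nlinarith [mul_nonneg hp (show (0 : ℝ) ≤ 1 - 4 * s by linarith)]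

end

end Pool.Agent.Lib_helper91.SRCH.VP
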