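import Mathlib

set_option autoImplicit false
set_option linter.unusedSimpArgs false
set_option linter.unusedVariables false

/-! # Polynomial inequalities (Bernstein form) for the honest child, `l ≥ 21` -/

namespace Pool.Agent.Lib_helper91.SRCH.VP

/-- lower bound of the first coefficient -/
noncomputable def A0 (l s : ℝ) : ℝ := l * (1 / 2 + 2 * s) - 1 / 2 - 7 * s + 4 * s * s
/-- second -/
noncomputable def A1 (l s : ℝ) : ℝ := l * (1 / 2 - 3 * s) - 1 / 2 - 6 * s + 2 * s * s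
/-- third -/
noncomputable def A2 (l s : ℝ) : ℝ := l * s + s - 2 * s * s
/-- coefficient one -/
noncomputable def K1 (l s : ℝ) : ℝ := s * A0 l s + A1 l s - 1 / 10 ^ 5
/-- coefficient two -/
noncomputable def K2 (l s : ℝ) : ℝ := A0 l s * s * (s + 2) / 2 + A1 l s * (1 + s) + A2 l s - 1 / 10 ^ 4
/-- coefficient three -/
noncomputable def K3 (l s : ℝ) : ℝ := A0 l s * s * (s + 3) ^ 2 / 6 + A1 l s * (1 + s) * (3 + s) / 2
  + A2 l s * (2 + s) - 1 / 10 ^ 4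
/-- the mass that is moved -/
noncomputable def HH (l s : ℝ) : ℝ := l * s * (13 - 8 * s) / 2 + 1 / 2
/-- upper bound of `ω` -/
noncomputable def op (l s : ℝ) : ℝ := l / 2 + 1 / 2 - s + 1 / 10 ^ 6
/-- upper bound of `S0` -/
noncomputable def S0 (l s : ℝ) : ℝ := op l s * (1 + 4 * s) + 9 * s

lemma pC1 (l s : ℝ) (hl : 21 ≤ l) (h0 : 1 / 8 ≤ s) (h1 : s ≤ 1 / 4) :
    0 ≤ A0 l s / 4 + K1 l s := by
  obtain ⟨t, ht, rfl⟩ : ∃ t : ℝ, 0 ≤ t ∧ l = t + 21 := ⟨l - 21, by linarith, by ring⟩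
  obtain ⟨τ, hτ, rfl⟩ : ∃ τ : ℝ, 0 ≤ τ ∧ s = (τ + 1) / 8 := ⟨8 * s - 1, by linarith, by ring⟩
  obtain ⟨σ, hσ, hτσ⟩ : ∃ σ : ℝ, 0 ≤ σ ∧ σ = 1 - τ := ⟨1 - τ, by linarith, rfl⟩
  have h : 0 ≤ (2728121/400000)*σ^3
        + (3078119/200000)*τ^1*σ^2
        + (1093747/100000)*τ^2*σ^1
        + (237499/100000)*τ^3
        + (13/32)*t^1*σ^3
        + (33/32)*t^1*τ^1*σ^2
        + (7/8)*t^1*τ^2*σ^1
        + (1/4)*t^1*τ^3 := by positivity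
  refine h.trans (le_of_eq ?_)
  rw [hτσ]; simp only [K1, K2, K3, S0, A0, A1, A2, HH, op]; ring

lemma pA0 (l s : ℝ) (hl : 21 ≤ l) (h0 : 1 / 8 ≤ s) (h1 : s ≤ 1 / 4) :
    0 ≤ A0 l s - 10 := by
  obtain ⟨t, ht, rfl⟩ : ∃ t : ℝ, 0 ≤ t ∧ l = t + 21 := ⟨l - 21, by linarith, by ring⟩
  obtain ⟨τ, hτ, rfl⟩ : ∃ τ : ℝ, 0 ≤ τ ∧ s = (τ + 1) / 8 := ⟨8 * s - 1, by linarith, by ring⟩
  obtain ⟨σ, hσ, hτσ⟩ : ∃ σ : ℝ, 0 ≤ σ ∧ σ = 1 - τ := ⟨1 - τ, by linarith, rfl⟩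
  have h : 0 ≤ (71/16)*σ^2
        + (107/8)*τ^1*σ^1
        + 9*τ^2
        + (3/4)*t^1*σ^2
        + (7/4)*t^1*τ^1*σ^1
        + 1*t^1*τ^2 := by positivity
  refine h.trans (le_of_eq ?_)
  rw [hτσ]; simp only [K1, K2, K3, S0, A0, A1, A2, HH, op]; ring

lemma pK2 (l s : ℝ) (hl : 21 ≤ l) (h0 : 1 / 8 ≤ s) (h1 : s ≤ 1 / 4) :
    0 ≤ K2 l s := by
  obtain ⟨t, ht, rfl⟩ : ∃ t : ℝ, 0 ≤ t ∧ l = t + 21 := ⟨l - 21, by linarith, by ring⟩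
  obtain ⟨τ, hτ, rfl⟩ : ∃ τ : ℝ, 0 ≤ τ ∧ s = (τ + 1) / 8 := ⟨8 * s - 1, by linarith, by ring⟩
  obtain ⟨σ, hσ, hτσ⟩ : ∃ σ : ℝ, 0 ≤ σ ∧ σ = 1 - τ := ⟨1 - τ, by linarith, rfl⟩
  have h : 0 ≤ (7959247/1280000)*σ^4
        + (13267869/640000)*τ^1*σ^3
        + (7862933/320000)*τ^2*σ^2
        + (1899311/160000)*τ^3*σ^1
        + (4531/2500)*τ^4
        + (187/512)*t^1*σ^4
        + (675/512)*t^1*τ^1*σ^3
        + (225/128)*t^1*τ^2*σ^2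
        + (131/128)*t^1*τ^3*σ^1
        + (7/32)*t^1*τ^4 := by positivity
  refine h.trans (le_of_eq ?_)
  rw [hτσ]; simp only [K1, K2, K3, S0, A0, A1, A2, HH, op]; ring

lemma pK3 (l s : ℝ) (hl : 21 ≤ l) (h0 : 1 / 8 ≤ s) (h1 : s ≤ 1 / 4) :
    0 ≤ K3 l s := by
  obtain ⟨t, ht, rfl⟩ : ∃ t : ℝ, 0 ≤ t ∧ l = t + 21 := ⟨l - 21, by linarith, by ring⟩
  obtain ⟨τ, hτ, rfl⟩ : ∃ τ : ℝ, 0 ≤ τ ∧ s = (τ + 1) / 8 := ⟨8 * s - 1, by linarith, by ring⟩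
  obtain ⟨σ, hσ, hτσ⟩ : ∃ σ : ℝ, 0 ≤ σ ∧ σ = 1 - τ := ⟨1 - τ, by linarith, rfl⟩
  have h : 0 ≤ (114549601/10240000)*σ^5
        + (26313369/512000)*τ^1*σ^4
        + (71432107/768000)*τ^2*σ^3
        + (5284311/64000)*τ^3*σ^2
        + (4575561/128000)*τ^4*σ^1
        + (2871827/480000)*τ^5
        + (2613/4096)*t^1*σ^5
        + (37609/12288)*t^1*τ^1*σ^4
        + (35927/6144)*t^1*τ^2*σ^3
        + (5693/1024)*t^1*τ^3*σ^2
        + (4039/1536)*t^1*τ^4*σ^1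
        + (95/192)*t^1*τ^5 := by positivity
  refine h.trans (le_of_eq ?_)
  rw [hτσ]; simp only [K1, K2, K3, S0, A0, A1, A2, HH, op]; ring

lemma pL4 (l s : ℝ) (hl : 21 ≤ l) (h0 : 1 / 8 ≤ s) (h1 : s ≤ 1 / 4) :
    0 ≤ A0 l s * ((l - 1) * ((l - 1) ^ 2 + 4) / 48) + K1 l s * ((l - 1) ^ 2 / 8) + K2 l s * ((l - 1) / 2) + K3 l s
      - (S0 l s * (op l s - 1) * (op l s - 4) ^ 2 / 6 + s * (5 * op l s + 3) * (op l s - 2) * (op l s - 4) / 2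
        + s * op l s * (op l s - 3)) - 4 * HH l s * (7.3891 - (s + 1 / 4) * (2 + (s + 1 / 4)) / 2) := by
  obtain ⟨t, ht, rfl⟩ : ∃ t : ℝ, 0 ≤ t ∧ l = t + 21 := ⟨l - 21, by linarith, by ring⟩
  obtain ⟨τ, hτ, rfl⟩ : ∃ τ : ℝ, 0 ≤ τ ∧ s = (τ + 1) / 8 := ⟨8 * s - 1, by linarith, by ring⟩
  obtain ⟨σ, hσ, hτσ⟩ : ∃ σ : ℝ, 0 ≤ σ ∧ σ = 1 - τ := ⟨1 - τ, by linarith, rfl⟩
  have h : 0 ≤ (2507561021897945281213499999/4000000000000000000000000)*σ^4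
        + (7481274905174929239424333329/4000000000000000000000000)*τ^1*σ^3
        + (23651768102708237999226499979/12000000000000000000000000)*τ^2*σ^2
        + (2011813551448491224889199997/2400000000000000000000000)*τ^3*σ^1
        + (332029759686995624962999999/3000000000000000000000000)*τ^4
        + (277344641390597624999/2000000000000000000)*t^1*σ^4
        + (3005105893859017249987/6000000000000000000)*t^1*τ^1*σ^3
        + (4107963418999419874979/6000000000000000000)*t^1*τ^2*σ^2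
        + (505730220612416899997/1200000000000000000)*t^1*τ^3*σ^1
        + (148437960312472249999/1500000000000000000)*t^1*τ^4
        + (62187435249997/8000000000000)*t^2*σ^4
        + (703624164499961/24000000000000)*t^2*τ^1*σ^3
        + (335437053249979/8000000000000)*t^2*τ^2*σ^2
        + (43199936599997/1600000000000)*t^2*τ^3*σ^1
        + (39687436999997/6000000000000)*t^2*τ^4
        + (999999/8000000)*t^3*σ^4
        + (11249987/24000000)*t^3*τ^1*σ^3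
        + (15999979/24000000)*t^3*τ^2*σ^2
        + (2049997/4800000)*t^3*τ^3*σ^1
        + (208333/2000000)*t^3*τ^4 := by positivity
  refine h.trans (le_of_eq ?_)
  rw [hτσ]; simp only [K1, K2, K3, S0, A0, A1, A2, HH, op]; ring

lemma pL5 (l s : ℝ) (hl : 21 ≤ l) (h0 : 1 / 8 ≤ s) (h1 : s ≤ 1 / 4) :
    0 ≤ (l / 2 - 1) ^ 4 / 24 * A0 l s - 5 * 7.3891 * HH l s * (s + 1 / 4) := by
  obtain ⟨t, ht, rfl⟩ : ∃ t : ℝ, 0 ≤ t ∧ l = t + 21 := ⟨l - 21, by linarith, by ring⟩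
  obtain ⟨τ, hτ, rfl⟩ : ∃ τ : ℝ, 0 ≤ τ ∧ s = (τ + 1) / 8 := ⟨8 * s - 1, by linarith, by ring⟩
  obtain ⟨σ, hσ, hτσ⟩ : ∃ σ : ℝ, 0 ≤ σ ∧ σ = 1 - τ := ⟨1 - τ, by linarith, rfl⟩
  have h : 0 ≤ (239340929/51200)*σ^3
        + (977664703/64000)*τ^1*σ^2
        + (396020629/24000)*τ^2*σ^1
        + (113386319/19200)*τ^3
        + (81642981/64000)*t^1*σ^3
        + (3241256531/768000)*t^1*τ^1*σ^2
        + (590836977/128000)*t^1*τ^2*σ^1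
        + (160462847/96000)*t^1*τ^3
        + (138263/1024)*t^2*σ^3
        + (1377215/3072)*t^2*τ^1*σ^2
        + (755573/1536)*t^2*τ^2*σ^1
        + (34295/192)*t^2*τ^3
        + (3629/512)*t^3*σ^3
        + (12065/512)*t^3*τ^1*σ^2
        + (9937/384)*t^3*τ^2*σ^1
        + (1805/192)*t^3*τ^3
        + (381/2048)*t^4*σ^3
        + (3805/6144)*t^4*τ^1*σ^2
        + (697/1024)*t^4*τ^2*σ^1
        + (95/384)*t^4*τ^3
        + (1/512)*t^5*σ^3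
        + (5/768)*t^5*τ^1*σ^2
        + (11/1536)*t^5*τ^2*σ^1
        + (1/384)*t^5*τ^3 := by positivity
  refine h.trans (le_of_eq ?_)
  rw [hτσ]; simp only [K1, K2, K3, S0, A0, A1, A2, HH, op]; ring

lemma pL6 (l s : ℝ) (hl : 21 ≤ l) (h0 : 1 / 8 ≤ s) (h1 : s ≤ 1 / 4) :
    0 ≤ (l / 2 - 1) ^ 4 / 24 * (A0 l s / 2 + K1 l s) - 5 * 7.3891 * HH l s * ((s + 1 / 4) * (2 + (s + 1 / 4)) / 2) := by
  obtain ⟨t, ht, rfl⟩ : ∃ t : ℝ, 0 ≤ t ∧ l = t + 21 := ⟨l - 21, by linarith, by ring⟩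
  obtain ⟨τ, hτ, rfl⟩ : ∃ τ : ℝ, 0 ≤ τ ∧ s = (τ + 1) / 8 := ⟨8 * s - 1, by linarith, by ring⟩
  obtain ⟨σ, hσ, hτσ⟩ : ∃ σ : ℝ, 0 ≤ σ ∧ σ = 1 - τ := ⟨1 - τ, by linarith, rfl⟩
  have h : 0 ≤ (502617477341/153600000)*σ^4
        + (1168315237901/102400000)*τ^1*σ^3
        + (754405259107/51200000)*τ^2*σ^2
        + (320132556841/38400000)*τ^3*σ^1
        + (66807004679/38400000)*τ^4
        + (71757693053/76800000)*t^1*σ^4
        + (347852782591/102400000)*t^1*τ^1*σ^3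
        + (712273085261/153600000)*t^1*τ^2*σ^2
        + (54173301353/19200000)*t^1*τ^3*σ^1
        + (3105621383/4800000)*t^1*τ^4
        + (7776161293/76800000)*t^2*σ^4
        + (9569878599/25600000)*t^2*τ^1*σ^3
        + (2494846813/4800000)*t^2*τ^2*σ^2
        + (2067851681/6400000)*t^2*τ^3*σ^1
        + (1457536417/19200000)*t^2*τ^4
        + (207871799/38400000)*t^3*σ^4
        + (258142607/12800000)*t^3*τ^1*σ^3
        + (181271799/6400000)*t^3*τ^2*σ^2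
        + (85440587/4800000)*t^3*τ^3*σ^1
        + (40612481/9600000)*t^3*τ^4
        + (22221871/153600000)*t^4*σ^4
        + (27836453/51200000)*t^4*τ^1*σ^3
        + (14799997/19200000)*t^4*τ^2*σ^2
        + (18790621/38400000)*t^4*τ^3*σ^1
        + (4512499/38400000)*t^4*τ^4
        + (19/12288)*t^5*σ^4
        + (3/512)*t^5*τ^1*σ^3
        + (103/12288)*t^5*τ^2*σ^2
        + (11/2048)*t^5*τ^3*σ^1
        + (1/768)*t^5*τ^4 := by positivity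
  refine h.trans (le_of_eq ?_)
  rw [hτσ]; simp only [K1, K2, K3, S0, A0, A1, A2, HH, op]; ring

lemma pL7 (l s : ℝ) (hl : 21 ≤ l) (h0 : 1 / 8 ≤ s) (h1 : s ≤ 1 / 4) :
    0 ≤ (l / 2 - 1) ^ 5 / 120 * (A0 l s / 2 + K1 l s) - 5 * 7.3891 * HH l s * ((s + 1 / 4) * (3 + (s + 1 / 4)) ^ 2 / 6) := by
  obtain ⟨t, ht, rfl⟩ : ∃ t : ℝ, 0 ≤ t ∧ l = t + 21 := ⟨l - 21, by linarith, by ring⟩
  obtain ⟨τ, hτ, rfl⟩ : ∃ τ : ℝ, 0 ≤ τ ∧ s = (τ + 1) / 8 := ⟨8 * s - 1, by linarith, by ring⟩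
  obtain ⟨σ, hσ, hτσ⟩ : ∃ σ : ℝ, 0 ≤ σ ∧ σ = 1 - τ := ⟨1 - τ, by linarith, rfl⟩
  have h : 0 ≤ (19346934334333/3072000000)*σ^5
        + (69774409847657/2457600000)*τ^1*σ^4
        + (20833706667769/409600000)*τ^2*σ^3
        + (13894734638083/307200000)*τ^3*σ^2
        + (1531897522201/76800000)*τ^4*σ^1
        + (446263542967/128000000)*τ^5
        + (436824744969/204800000)*t^1*σ^5
        + (1620126879611/163840000)*t^1*τ^1*σ^4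
        + (4508673669743/245760000)*t^1*τ^2*σ^3
        + (1046787096547/61440000)*t^1*τ^3*σ^2
        + (40585355593/5120000)*t^1*τ^4*σ^1
        + (113631847279/76800000)*t^1*τ^5
        + (14696827313/51200000)*t^2*σ^5
        + (1719750211/1280000)*t^2*τ^1*σ^4
        + (77425194503/30720000)*t^2*τ^2*σ^3
        + (36408401939/15360000)*t^2*τ^3*σ^2
        + (8590890641/7680000)*t^2*τ^4*σ^1
        + (2715018547/12800000)*t^2*τ^5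
        + (3135057931/153600000)*t^3*σ^5
        + (1476263653/15360000)*t^3*τ^1*σ^4
        + (5575416487/30720000)*t^3*τ^2*σ^3
        + (220059463/1280000)*t^3*τ^3*σ^2
        + (313957007/3840000)*t^3*τ^4*σ^1
        + (600162139/38400000)*t^3*τ^5
        + (83580183/102400000)*t^4*σ^5
        + (39587279/10240000)*t^4*τ^1*σ^4
        + (451380473/61440000)*t^4*τ^2*σ^3
        + (107623087/15360000)*t^4*τ^3*σ^2
        + (12887339/3840000)*t^4*τ^4*σ^1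
        + (16545827/25600000)*t^4*τ^5
        + (8911457/512000000)*t^5*σ^5
        + (4244791/51200000)*t^5*τ^1*σ^4
        + (48694367/307200000)*t^5*τ^2*σ^3
        + (5842499/38400000)*t^5*τ^3*σ^2
        + (2817187/38400000)*t^5*τ^4*σ^1
        + (1820833/128000000)*t^5*τ^5
        + (19/122880)*t^6*σ^5
        + (91/122880)*t^6*τ^1*σ^4
        + (35/24576)*t^6*τ^2*σ^3
        + (169/122880)*t^6*τ^3*σ^2
        + (41/61440)*t^6*τ^4*σ^1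
        + (1/7680)*t^6*τ^5 := by positivity
  refine h.trans (le_of_eq ?_)
  rw [hτσ]; simp only [K1, K2, K3, S0, A0, A1, A2, HH, op]; ring

lemma pP (l s : ℝ) (k : ℝ) (hk : 4 ≤ k) (hl : 21 ≤ l) (h0 : 1 / 8 ≤ s) (h1 : s ≤ 1 / 4) :
    0 ≤ A0 l s * s * (k + s) ^ 2 + A1 l s * (1 + s) * k * (k + s) + A2 l s * (2 + s) * k * (k - 1) - 1 / 10 ^ 4 * k ^ 2
      - 0.8 * l * s * (k + s) ^ 2 := by
  obtain ⟨t, ht, rfl⟩ : ∃ t : ℝ, 0 ≤ t ∧ l = t + 21 := ⟨l - 21, by linarith, by ring⟩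
  obtain ⟨u, hu, rfl⟩ : ∃ u : ℝ, 0 ≤ u ∧ k = u + 4 := ⟨k - 4, by linarith, by ring⟩
  obtain ⟨τ, hτ, rfl⟩ : ∃ τ : ℝ, 0 ≤ τ ∧ s = (τ + 1) / 8 := ⟨8 * s - 1, by linarith, by ring⟩
  obtain ⟨σ, hσ, hτσ⟩ : ∃ σ : ℝ, 0 ≤ σ ∧ σ = 1 - τ := ⟨1 - τ, by linarith, rfl⟩
  have h : 0 ≤ (462874183/5120000)*σ^5
        + (23912113/64000)*τ^1*σ^4
        + (74477677/128000)*τ^2*σ^3
        + (13058763/32000)*τ^3*σ^2
        + (7238563/64000)*τ^4*σ^1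
        + (146061/40000)*τ^5
        + (65098601/1280000)*u^1*σ^5
        + (56867001/256000)*u^1*τ^1*σ^4
        + (24129913/64000)*u^1*τ^2*σ^3
        + (4910947/16000)*u^1*τ^3*σ^2
        + (936293/8000)*u^1*τ^4*σ^1
        + (1268311/80000)*u^1*τ^5
        + (565117/80000)*u^2*σ^5
        + (128723/4000)*u^2*τ^1*σ^4
        + (926209/16000)*u^2*τ^2*σ^3
        + (409817/8000)*u^2*τ^3*σ^2
        + (88773/4000)*u^2*τ^4*σ^1
        + (18687/5000)*u^2*τ^5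
        + (55311/10240)*t^1*σ^5
        + (49497/2048)*t^1*τ^1*σ^4
        + (217229/5120)*t^1*τ^2*σ^3
        + (92917/2560)*t^1*τ^3*σ^2
        + (19169/1280)*t^1*τ^4*σ^1
        + (749/320)*t^1*τ^5
        + (7553/2560)*t^1*u^1*σ^5
        + (8731/640)*t^1*u^1*τ^1*σ^4
        + (64017/2560)*t^1*u^1*τ^2*σ^3
        + (29021/1280)*t^1*u^1*τ^3*σ^2
        + (6491/640)*t^1*u^1*τ^4*σ^1
        + (571/320)*t^1*u^1*τ^5
        + (2/5)*t^1*u^2*σ^5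
        + (19/10)*t^1*u^2*τ^1*σ^4
        + (18/5)*t^1*u^2*τ^2*σ^3
        + (17/5)*t^1*u^2*τ^3*σ^2
        + (8/5)*t^1*u^2*τ^4*σ^1
        + (3/10)*t^1*u^2*τ^5 := by positivity
  refine h.trans (le_of_eq ?_)
  rw [hτσ]; simp only [K1, K2, K3, S0, A0, A1, A2, HH, op]; ring

lemma pii (l s : ℝ) (k : ℝ) (hk : 4 ≤ k) (hl : 21 ≤ l) (h0 : 1 / 8 ≤ s) (h1 : s ≤ 1 / 4) :
    0 ≤ (k + 1) * (k * (A0 l s - s * op l s) - (1 / 2 - s + 1 / 10 ^ 6) * (A0 l s + 1 / 10 ^ 6) - s * (5 * op l s + 3))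
      - (S0 l s - A0 l s) * (op l s - 5) := by
  obtain ⟨t, ht, rfl⟩ : ∃ t : ℝ, 0 ≤ t ∧ l = t + 21 := ⟨l - 21, by linarith, by ring⟩
  obtain ⟨u, hu, rfl⟩ : ∃ u : ℝ, 0 ≤ u ∧ k = u + 4 := ⟨k - 4, by linarith, by ring⟩
  obtain ⟨τ, hτ, rfl⟩ : ∃ τ : ℝ, 0 ≤ τ ∧ s = (τ + 1) / 8 := ⟨8 * s - 1, by linarith, by ring⟩
  obtain ⟨σ, hσ, hτσ⟩ : ∃ σ : ℝ, 0 ≤ σ ∧ σ = 1 - τ := ⟨1 - τ, by linarith, rfl⟩
  have h : 0 ≤ (362015441999987/2000000000000)*σ^3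
        + (28031234668749/50000000000)*τ^1*σ^2
        + (1167686822249959/2000000000000)*τ^2*σ^1
        + (204249876249993/1000000000000)*τ^3
        + (105117170937499/1000000000000)*u^1*σ^3
        + (336781194187497/1000000000000)*u^1*τ^1*σ^2
        + (359531187999997/1000000000000)*u^1*τ^2*σ^1
        + (127874977249999/1000000000000)*u^1*τ^3
        + (104624999/8000000)*u^2*σ^3
        + (84781249/2000000)*u^2*τ^1*σ^2
        + (72999999/1600000)*u^2*τ^2*σ^1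
        + (65249999/4000000)*u^2*τ^3
        + (18562491/2000000)*t^1*σ^3
        + (5818747/200000)*t^1*τ^1*σ^2
        + (61124967/2000000)*t^1*τ^2*σ^1
        + (5374997/500000)*t^1*τ^3
        + (22374997/4000000)*t^1*u^1*σ^3
        + (7262499/400000)*t^1*u^1*τ^1*σ^2
        + (78249989/4000000)*t^1*u^1*τ^2*σ^1
        + (6999999/1000000)*t^1*u^1*τ^3
        + (11/16)*t^1*u^2*σ^3
        + (9/4)*t^1*u^2*τ^1*σ^2
        + (39/16)*t^1*u^2*τ^2*σ^1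
        + (7/8)*t^1*u^2*τ^3 := by positivity
  refine h.trans (le_of_eq ?_)
  rw [hτσ]; simp only [K1, K2, K3, S0, A0, A1, A2, HH, op]; ring

lemma pilow (l s : ℝ) (hl : 21 ≤ l) (h0 : 1 / 8 ≤ s) (h1 : s ≤ 1 / 4) :
    0 ≤ 0.8 * l * ((l / 2 - 1) ^ 3 / 6 + 1.7 * (l / 2 - 1) ^ 2 / 2) * (s - 1 / 10 ^ 6)
      - 5 * 7.3891 * HH l s * (s + 1 / 4) * (10000 / 7499) := by
  obtain ⟨t, ht, rfl⟩ : ∃ t : ℝ, 0 ≤ t ∧ l = t + 21 := ⟨l - 21, by linarith, by ring⟩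
  obtain ⟨τ, hτ, rfl⟩ : ∃ τ : ℝ, 0 ≤ τ ∧ s = (τ + 1) / 8 := ⟨8 * s - 1, by linarith, by ring⟩
  obtain ⟨σ, hσ, hτσ⟩ : ∃ σ : ℝ, 0 ≤ σ ∧ σ = 1 - τ := ⟨1 - τ, by linarith, rfl⟩
  have h : 0 ≤ (60348799964471/374950000000)*σ^3
        + (108214753517019/187475000000)*τ^1*σ^2
        + (227567129799663/374950000000)*τ^2*σ^1
        + (74517108276971/374950000000)*τ^3
        + (162973853814619/2249700000000)*t^1*σ^3
        + (644103777037607/2249700000000)*t^1*τ^1*σ^2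
        + (792358711381357/2249700000000)*t^1*τ^2*σ^1
        + (104031566104873/749900000000)*t^1*τ^3
        + (600370197/100000000)*t^2*σ^3
        + (2401485591/100000000)*t^2*τ^1*σ^2
        + (3001860591/100000000)*t^2*τ^2*σ^1
        + (1200745197/100000000)*t^2*τ^3
        + (18374853/100000000)*t^3*σ^3
        + (73499559/100000000)*t^3*τ^1*σ^2
        + (91874559/100000000)*t^3*τ^2*σ^1
        + (36749853/100000000)*t^3*τ^3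
        + (124999/60000000)*t^4*σ^3
        + (499997/60000000)*t^4*τ^1*σ^2
        + (624997/60000000)*t^4*τ^2*σ^1
        + (83333/20000000)*t^4*τ^3 := by positivity
  refine h.trans (le_of_eq ?_)
  rw [hτσ]; simp only [K1, K2, K3, S0, A0, A1, A2, HH, op]; ring

lemma pihigh (l s : ℝ) (hl : 21 ≤ l) (h0 : 1 / 8 ≤ s) (h1 : s ≤ 1 / 4) :
    0 ≤ 0.8 * l * ((l / 2 - 1) ^ 3 / 6 + 1.7 * (l / 2 - 1) ^ 2 / 2 + 1.7 ^ 2 * (l / 2 - 1) + 1.7 ^ 3) * (s - 1 / 10 ^ 6)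
      - 5 * 7.3891 * HH l s * (s + 1 / 4) * (10000 / 7499) - 7.4816 * S0 l s - s * op l s := by
  obtain ⟨t, ht, rfl⟩ : ∃ t : ℝ, 0 ≤ t ∧ l = t + 21 := ⟨l - 21, by linarith, by ring⟩
  obtain ⟨τ, hτ, rfl⟩ : ∃ τ : ℝ, 0 ≤ τ ∧ s = (τ + 1) / 8 := ⟨8 * s - 1, by linarith, by ring⟩
  obtain ⟨σ, hσ, hτσ⟩ : ∃ σ : ℝ, 0 ≤ σ ∧ σ = 1 - τ := ⟨1 - τ, by linarith, rfl⟩
  have h : 0 ≤ (3640916854230249/37495000000000)*σ^3
        + (3792746459388769/9373750000000)*τ^1*σ^2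
        + (3402558239258881/7499000000000)*τ^2*σ^1
        + (2892895383828539/18747500000000)*τ^3
        + (4107954041656753/56242500000000)*t^1*σ^3
        + (16447419976814009/56242500000000)*t^1*τ^1*σ^2
        + (20397795797407759/56242500000000)*t^1*τ^2*σ^1
        + (2693325872052251/18747500000000)*t^1*τ^3
        + (3074100407/500000000)*t^2*σ^3
        + (12296426221/500000000)*t^2*τ^1*σ^2
        + (15370551221/500000000)*t^2*τ^2*σ^1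
        + (6148225407/500000000)*t^2*τ^3
        + (18374853/100000000)*t^3*σ^3
        + (73499559/100000000)*t^3*τ^1*σ^2
        + (91874559/100000000)*t^3*τ^2*σ^1
        + (36749853/100000000)*t^3*τ^3
        + (124999/60000000)*t^4*σ^3
        + (499997/60000000)*t^4*τ^1*σ^2
        + (624997/60000000)*t^4*τ^2*σ^1
        + (83333/20000000)*t^4*τ^3 := by positivity
  refine h.trans (le_of_eq ?_)
  rw [hτσ]; simp only [K1, K2, K3, S0, A0, A1, A2, HH, op]; ring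

lemma qA2 (l s : ℝ) (hl : 21 ≤ l) (h0 : 1 / 8 ≤ s) (h1 : s ≤ 1 / 4) :
    0 ≤ (1 - s) * (l * l / 8 + 9 / 10) - (s + 1 / 4) * HH l s := by
  obtain ⟨t, ht, rfl⟩ : ∃ t : ℝ, 0 ≤ t ∧ l = t + 21 := ⟨l - 21, by linarith, by ring⟩
  obtain ⟨τ, hτ, rfl⟩ : ∃ τ : ℝ, 0 ≤ τ ∧ s = (τ + 1) / 8 := ⟨8 * s - 1, by linarith, by ring⟩
  obtain ⟨σ, hσ, hτσ⟩ : ∃ σ : ℝ, 0 ≤ σ ∧ σ = 1 - τ := ⟨1 - τ, by linarith, rfl⟩
  have h : 0 ≤ (13737/320)*σ^3
        + (14635/128)*τ^1*σ^2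
        + (3943/40)*τ^2*σ^1
        + (4373/160)*τ^3
        + (69/16)*t^1*σ^3
        + (1527/128)*t^1*τ^1*σ^2
        + (695/64)*t^1*τ^2*σ^1
        + (13/4)*t^1*τ^3
        + (7/64)*t^2*σ^3
        + (5/16)*t^2*τ^1*σ^2
        + (19/64)*t^2*τ^2*σ^1
        + (3/32)*t^2*τ^3 := by positivity
  refine h.trans (le_of_eq ?_)
  rw [hτσ]; simp only [K1, K2, K3, S0, A0, A1, A2, HH, op]; ring

lemma qA3 (l s : ℝ) (hl : 21 ≤ l) (h0 : 1 / 8 ≤ s) (h1 : s ≤ 1 / 4) :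
    0 ≤ (1 - s) * (l * (l * l + 4) / 24 - l * (1 / 1000)) - HH l s * (7.3891 + (s + 1 / 4) * (2 - (s + 1 / 4)) / 2) := by
  obtain ⟨t, ht, rfl⟩ : ∃ t : ℝ, 0 ≤ t ∧ l = t + 21 := ⟨l - 21, by linarith, by ring⟩
  obtain ⟨τ, hτ, rfl⟩ : ∃ τ : ℝ, 0 ≤ τ ∧ s = (τ + 1) / 8 := ⟨8 * s - 1, by linarith, by ring⟩
  obtain ⟨σ, hσ, hτσ⟩ : ∃ σ : ℝ, 0 ≤ σ ∧ σ = 1 - τ := ⟨1 - τ, by linarith, rfl⟩
  have h : 0 ≤ (2760457/12800)*σ^4
        + (898079967/1280000)*τ^1*σ^3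
        + (524805007/640000)*τ^2*σ^2
        + (63679819/160000)*τ^3*σ^1
        + (1023121/16000)*τ^4
        + (40904633/960000)*t^1*σ^4
        + (202466003/1280000)*t^1*τ^1*σ^3
        + (140357599/640000)*t^1*τ^2*σ^2
        + (64576333/480000)*t^1*τ^3*σ^1
        + (2463389/80000)*t^1*τ^4
        + (147/64)*t^2*σ^4
        + (567/64)*t^2*τ^1*σ^3
        + (819/64)*t^2*τ^2*σ^2
        + (525/64)*t^2*τ^3*σ^1
        + (63/32)*t^2*τ^4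
        + (7/192)*t^3*σ^4
        + (9/64)*t^3*τ^1*σ^3
        + (13/64)*t^3*τ^2*σ^2
        + (25/192)*t^3*τ^3*σ^1
        + (1/32)*t^3*τ^4 := by positivity
  refine h.trans (le_of_eq ?_)
  rw [hτσ]; simp only [K1, K2, K3, S0, A0, A1, A2, HH, op]; ring

lemma qF (l s : ℝ) (hl : 21 ≤ l) (h0 : 1 / 8 ≤ s) (h1 : s ≤ 1 / 4) :
    0 ≤ 4 * s * (5 / 4 * (l * 3 / 2 + 999 / 1000) + 1 / 16) - HH l s := by
  obtain ⟨t, ht, rfl⟩ : ∃ t : ℝ, 0 ≤ t ∧ l = t + 21 := ⟨l - 21, by linarith, by ring⟩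
  obtain ⟨τ, hτ, rfl⟩ : ∃ τ : ℝ, 0 ≤ τ ∧ s = (τ + 1) / 8 := ⟨8 * s - 1, by linarith, by ring⟩
  obtain ⟨σ, hσ, hτσ⟩ : ∃ σ : ℝ, 0 ≤ σ ∧ σ = 1 - τ := ⟨1 - τ, by linarith, rfl⟩
  have h : 0 ≤ (6549/1600)*σ^2
        + (22547/1600)*τ^1*σ^1
        + (9049/800)*τ^2
        + (3/16)*t^1*σ^2
        + (5/8)*t^1*τ^1*σ^1
        + (1/2)*t^1*τ^2 := by positivity
  refine h.trans (le_of_eq ?_)
  rw [hτσ]; simp only [K1, K2, K3, S0, A0, A1, A2, HH, op]; ring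

end Pool.Agent.Lib_helper91.SRCH.VP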