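import Pool.Agent.Lib_helper91.SRCH.VPar
import Pool.Agent.Lib_helper91.SRCH.V2

set_option autoImplicit false

/-! # Coefficient bounds: the parity part, the moved mass, the main part -/

namespace Pool.Agent.Lib_helper91.SRCH

open Finset PowerSeries Pool.Agent.Lib_helper36.SRC VP

/-- `u^(N+1) + (N+1) u^N ≤ (u+1)^(N+1)` -/
lemma bin2' (N : ℕ) (u : ℝ) (hu : 0 ≤ u) : (u + N + 1) * u ^ N ≤ (u + 1) ^ (N + 1) := by
  have := bin2 N u 1 hu (by norm_num)
  refine le_trans (le_of_eq ?_) this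
  ring

section
variable {l s p : ℝ} (P : Par l s p)
include P

/-- odd levels below the frame -/
lemma VP.Par.Y_odd (k : ℕ) (hk : ¬ Even k) (hn : (k : ℝ) + 4 ≤ om l s p) :
    0 ≤ coeff (k + 3) (KK (1 - om l s p) (om l s p * (1 + 4 * s) + 9 * s)
      (-(s * (5 * om l s p + 3))) (s * om l s p)) := by
  have h0 := P.h0
  have hω := P.om_ge
  set ω : ℝ := om l s p with hωd
  rw [coeff_KK]
  apply div_nonneg _ (by positivity)
  set u : ℝ := ω - (k + 4) with hu
  have hu0 : 0 ≤ u := by rw [hu]; linarith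
  have hko : Odd k := Nat.not_even_iff_odd.1 hk
  have e : 1 - ω + ((k : ℝ) + 3) = - u := by rw [hu]; ring
  rw [e]
  have p1 : (-u) ^ (k + 2) = - u ^ (k + 2) := by
    apply Odd.neg_pow; exact hko.add_even (by decide)
  have p2 : (-u) ^ (k + 1) = u ^ (k + 1) := by
    apply Even.neg_pow; exact hko.add_one
  have p3 : (-u) ^ k = - u ^ k := hko.neg_pow u
  rw [p1, p2, p3]
  have hs : 0 ≤ s := by linarith
  have q1 : 0 ≤ (ω * (1 + 4 * s) + 9 * s) * (ω - 1) * u ^ (k + 2) := by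
    apply mul_nonneg (mul_nonneg _ (by linarith)) (by positivity)
    have : 0 ≤ ω * (1 + 4 * s) := mul_nonneg (by linarith) (by linarith)
    linarith
  have q2 : 0 ≤ (s * (5 * ω + 3)) * (ω - 2) * ((k : ℝ) + 3) * u ^ (k + 1) := by
    apply mul_nonneg (mul_nonneg (mul_nonneg _ (by linarith)) (by positivity)) (by positivity)
    exact mul_nonneg hs (by linarith)
  have q3 : 0 ≤ (s * ω) * (ω - 3) * (((k : ℝ) + 3) * (k + 2)) * u ^ k := by
    apply mul_nonneg (mul_nonneg (mul_nonneg _ (by linarith)) (by positivity)) (by positivity)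
    exact mul_nonneg hs (by linarith)
  linarith

/-- even levels below the frame -/
lemma VP.Par.Y_even (k : ℕ) (hk : Even k) (hk2 : 2 ≤ k) (hn : (k : ℝ) + 4 ≤ om l s p) :
    - (a0 l s p * (l / 2 - 1) ^ (k + 3) / (k + 3).factorial)
      ≤ coeff (k + 3) (KK (1 - om l s p) (om l s p * (1 + 4 * s) + 9 * s)
      (-(s * (5 * om l s p + 3))) (s * om l s p)) := by
  have h0 := P.h0; have h1 := P.h1; have hl := P.hl; have hp := P.hp; have hps := P.p_le
  have hω := P.om_ge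
  have hop := P.om_le
  have ha1 := P.a0_ge
  have ha2 := P.a0_le
  have hA := P.A0_pos
  have hk2' : (2 : ℝ) ≤ k := by exact_mod_cast hk2
  have hii := pii l s ((k : ℝ) + 2) (by linarith) hl h0 h1
  set ω : ℝ := om l s p with hωd
  rw [coeff_KK, ← neg_div]
  apply div_le_div_of_nonneg_right _ (by positivity)
  set u : ℝ := ω - (k + 4) with hu
  have hu0 : 0 ≤ u := by rw [hu]; linarith
  have e : 1 - ω + ((k : ℝ) + 3) = - u := by rw [hu]; ring
  rw [e]
  have p1 : (-u) ^ (k + 2) = u ^ (k + 2) := by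
    apply Even.neg_pow; exact hk.add (by decide)
  have p2 : (-u) ^ (k + 1) = - u ^ (k + 1) := by
    apply Odd.neg_pow; exact hk.add_one
  have p3 : (-u) ^ k = u ^ k := hk.neg_pow u
  rw [p1, p2, p3]
  have hs : 0 ≤ s := by linarith
  set v : ℝ := u + 1 with hv
  have hv1 : 1 ≤ v := by rw [hv]; linarith
  -- the three bounds
  have b1 : (ω - 1) * u ^ (k + 2) ≤ v ^ (k + 3) := by
    have := bin2' (k + 2) u hu0
    have e1 : u + ((k + 2 : ℕ) : ℝ) + 1 = ω - 1 := by rw [hu]; push_cast; ring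
    rw [e1] at this
    exact this
  have b2 : (ω - 2) * u ^ (k + 1) ≤ v ^ (k + 2) := by
    have := bin2' (k + 1) u hu0
    have e1 : u + ((k + 1 : ℕ) : ℝ) + 1 = ω - 2 := by rw [hu]; push_cast; ring
    rw [e1] at this
    exact this
  have b3 : (ω - 3) * u ^ k ≤ v ^ (k + 2) := by
    have := bin2' k u hu0
    have e1 : u + (k : ℝ) + 1 = ω - 3 := by rw [hu]; ring
    rw [e1] at this
    exact this.trans (pow_le_pow_right₀ hv1 (by omega))
  have hS0 : 0 ≤ ω * (1 + 4 * s) + 9 * s := by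
    have : 0 ≤ ω * (1 + 4 * s) := mul_nonneg (by linarith) (by linarith)
    linarith
  have hS1 : 0 ≤ s * (5 * ω + 3) := mul_nonneg hs (by linarith)
  have hS2 : 0 ≤ s * ω := mul_nonneg hs (by linarith)
  have c1 : (ω * (1 + 4 * s) + 9 * s) * ((ω - 1) * u ^ (k + 2))
      ≤ (ω * (1 + 4 * s) + 9 * s) * v ^ (k + 3) := mul_le_mul_of_nonneg_left b1 hS0
  have c2 : (s * (5 * ω + 3)) * ((k : ℝ) + 3) * ((ω - 2) * u ^ (k + 1))
      ≤ (s * (5 * ω + 3)) * ((k : ℝ) + 3) * v ^ (k + 2) :=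
    mul_le_mul_of_nonneg_left b2 (by positivity)
  have c3 : (s * ω) * (((k : ℝ) + 3) * (k + 2)) * ((ω - 3) * u ^ k)
      ≤ (s * ω) * (((k : ℝ) + 3) * (k + 2)) * v ^ (k + 2) :=
    mul_le_mul_of_nonneg_left b3 (by positivity)
  -- the main part
  set θ : ℝ := 1 / 2 - s + p with hθ
  have hω2 : ω = l / 2 + θ := by rw [hωd, hθ]; rfl
  set w : ℝ := (k : ℝ) + 2 - θ with hw
  have hw0 : 0 ≤ w := by rw [hw, hθ]; linarith
  have hvw : l / 2 - 1 = v + w := by rw [hv, hw, hu, hω2]; ring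
  have m1 := bin2 (k + 2) v w (by linarith) hw0
  rw [← hvw] at m1
  have ha0 : 0 ≤ a0 l s p := by linarith
  have m2 : a0 l s p * (v ^ (k + 2) * (v + ((k : ℝ) + 3) * w)) ≤ a0 l s p * (l / 2 - 1) ^ (k + 3) := by
    apply mul_le_mul_of_nonneg_left _ ha0
    refine le_trans (le_of_eq ?_) m1
    push_cast; ring
  have hvk : 0 ≤ v ^ (k + 2) := by positivity
  have key : (ω * (1 + 4 * s) + 9 * s) * v + ((k : ℝ) + 3) * (s * (5 * ω + 3) + s * ω * ((k : ℝ) + 2))
      ≤ a0 l s p * (v + ((k : ℝ) + 3) * w) := by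
    have hvo : v ≤ op l s - 5 := by rw [hv, hu]; linarith
    have k1 : (ω * (1 + 4 * s) + 9 * s) ≤ S0 l s := by
      unfold S0; nlinarith
    have k2 : (S0 l s - A0 l s) * v ≤ (S0 l s - A0 l s) * (op l s - 5) := by
      apply mul_le_mul_of_nonneg_left hvo
      have : A0 l s ≤ S0 l s := by unfold A0 S0 op; nlinarith
      linarith
    have k3 : ((k : ℝ) + 2) * (A0 l s - s * op l s) - (1 / 2 - s + 1 / 10 ^ 6) * (A0 l s + 1 / 10 ^ 6)
        ≤ w * a0 l s p - s * ω * ((k : ℝ) + 2) := by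
      have t1 : s * ω ≤ s * op l s := mul_le_mul_of_nonneg_left hop hs
      have t2 : ((k : ℝ) + 2) * (A0 l s - s * op l s) ≤ ((k : ℝ) + 2) * (a0 l s p - s * ω) :=
        mul_le_mul_of_nonneg_left (by linarith) (by positivity)
      have t3 : θ * a0 l s p ≤ (1 / 2 - s + 1 / 10 ^ 6) * (A0 l s + 1 / 10 ^ 6) :=
        mul_le_mul (by rw [hθ]; linarith) ha2 ha0 (by linarith)
      rw [hw]; linarith
    have k4 : s * (5 * ω + 3) ≤ s * (5 * op l s + 3) := mul_le_mul_of_nonneg_left (by linarith) hs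
    have k5 : 0 ≤ ((k : ℝ) + 2 + 1) * ((w * a0 l s p - s * ω * ((k : ℝ) + 2)) - s * (5 * ω + 3))
        - (S0 l s - A0 l s) * v := by
      have : ((k : ℝ) + 2 + 1) * (((k : ℝ) + 2) * (A0 l s - s * op l s)
          - (1 / 2 - s + 1 / 10 ^ 6) * (A0 l s + 1 / 10 ^ 6) - s * (5 * op l s + 3))
          ≤ ((k : ℝ) + 2 + 1) * ((w * a0 l s p - s * ω * ((k : ℝ) + 2)) - s * (5 * ω + 3)) :=
        mul_le_mul_of_nonneg_left (by linarith) (by positivity)
      linarith
    have k6 : (ω * (1 + 4 * s) + 9 * s) * v ≤ S0 l s * v := mul_le_mul_of_nonneg_right k1 (by linarith)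
    have k7 : A0 l s * v ≤ a0 l s p * v := mul_le_mul_of_nonneg_right ha1 (by linarith)
    linarith
  have m3 : v ^ (k + 2) * ((ω * (1 + 4 * s) + 9 * s) * v + ((k : ℝ) + 3) * (s * (5 * ω + 3)
      + s * ω * ((k : ℝ) + 2))) ≤ v ^ (k + 2) * (a0 l s p * (v + ((k : ℝ) + 3) * w)) :=
    mul_le_mul_of_nonneg_left key hvk
  have e5 : v ^ (k + 3) = v ^ (k + 2) * v := by ring
  rw [e5] at c1
  nlinarith

/-- levels above the frame -/
lemma VP.Par.Y_big (k : ℕ) (hk : 7 ≤ k) (hn : om l s p ≤ (k : ℝ) + 4) :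
    - ((7.4816 * S0 l s + s * op l s) * (((k : ℝ) + (s - p)) ^ (k - 1) / k.factorial))
      ≤ coeff (k + 3) (KK (1 - om l s p) (om l s p * (1 + 4 * s) + 9 * s)
      (-(s * (5 * om l s p + 3))) (s * om l s p)) := by
  have h0 := P.h0; have h1 := P.h1; have hl := P.hl; have hp := P.hp; have hps := P.p_le
  have hω := P.om_ge
  have hop := P.om_le
  set ω : ℝ := om l s p with hωd
  rw [coeff_KK]
  set z : ℝ := 1 - ω + ((k : ℝ) + 3) with hz
  have hz0 : 0 ≤ z := by rw [hz]; linarith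
  have hs : 0 ≤ s := by linarith
  set x : ℝ := s - p with hx
  have hx0 : 0 ≤ x := by rw [hx]; linarith
  have hk7 : (7 : ℝ) ≤ k := by exact_mod_cast hk
  have b1 : (ω - 1) * z ^ (k + 2) ≤ ((k : ℝ) + 2) ^ (k + 2) := by
    have := bern1 (k + 2) z hz0
    push_cast at this
    have e1 : (k : ℝ) + 2 + 1 - z = ω - 1 := by rw [hz]; ring
    rw [e1] at this; linarith
  have b3 : (ω - 3) * z ^ k ≤ (k : ℝ) ^ k := by
    have := bern1 k z hz0
    have e1 : (k : ℝ) + 1 - z = ω - 3 := by rw [hz]; ring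
    rw [e1] at this; linarith
  have hS0 : 0 ≤ ω * (1 + 4 * s) + 9 * s := by
    have : 0 ≤ ω * (1 + 4 * s) := mul_nonneg (by linarith) (by linarith)
    linarith
  have hS1 : 0 ≤ s * (5 * ω + 3) := mul_nonneg hs (by linarith)
  have hS2 : 0 ≤ s * ω := mul_nonneg hs (by linarith)
  have k1 : (ω * (1 + 4 * s) + 9 * s) ≤ S0 l s := by
    unfold S0; nlinarith
  have k2 : s * ω ≤ s * op l s := mul_le_mul_of_nonneg_left hop hs
  -- the first
  have y1 := ylem (k + 2) (by omega) x hx0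
  have e2 : (((k + 2 : ℕ) : ℝ)) = (k : ℝ) + 2 := by push_cast; ring
  have e3 : (k + 2) - 3 = k - 1 := by omega
  rw [e2, e3] at y1
  have e4 : (k : ℝ) + 2 - 2 + x = k + x := by ring
  rw [e4] at y1
  set Z : ℝ := ((k : ℝ) + x) ^ (k - 1) with hZ
  have hZ0 : 0 ≤ Z := by positivity
  have y3 : (k : ℝ) ^ k ≤ ((k : ℝ) + 1) * Z := by
    have e5 : (k : ℝ) ^ k = k * (k : ℝ) ^ (k - 1) := by
      rw [← pow_succ']; congr 1; omega
    have : (k : ℝ) ^ (k - 1) ≤ Z := pow_le_pow_left₀ (by linarith) (by linarith) _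
    rw [e5]
    nlinarith
  have hf : ((k + 3).factorial : ℝ) = ((k : ℝ) + 3) * (((k : ℝ) + 2) * (((k : ℝ) + 1) * k.factorial)) := by
    rw [Nat.factorial_succ, Nat.factorial_succ, Nat.factorial_succ]; push_cast; ring
  have hk0 : (0 : ℝ) < k.factorial := by exact_mod_cast k.factorial_pos
  rw [hf, le_div_iff₀ (by positivity)]
  have e6 : -((7.4816 * S0 l s + s * op l s) * (Z / (k.factorial : ℝ))) *
      (((k : ℝ) + 3) * (((k : ℝ) + 2) * (((k : ℝ) + 1) * k.factorial)))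
      = -((7.4816 * S0 l s + s * op l s) * (Z * (((k : ℝ) + 3) * (((k : ℝ) + 2) * ((k : ℝ) + 1))))) := by
    field_simp
  rw [e6]
  have q2 : 0 ≤ s * (5 * ω + 3) * (ω - 2) * ((k : ℝ) + 3) * z ^ (k + 1) := by
    apply mul_nonneg (mul_nonneg (mul_nonneg hS1 (by linarith)) (by positivity)) (by positivity)
  have q1 : (ω * (1 + 4 * s) + 9 * s) * ((ω - 1) * z ^ (k + 2))
      ≤ S0 l s * (7.4816 * (((k : ℝ) + 2 + 1) * ((k : ℝ) + 2) * ((k : ℝ) + 2 - 1)) * Z) := by
    apply mul_le_mul k1 (b1.trans y1) _ (by linarith)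
    apply mul_nonneg (by linarith) (by positivity)
  have q3 : (s * ω) * (((k : ℝ) + 3) * (k + 2) * ((ω - 3) * z ^ k))
      ≤ (s * op l s) * (((k : ℝ) + 3) * (k + 2) * (((k : ℝ) + 1) * Z)) := by
    apply mul_le_mul k2 _ _ (by linarith)
    · exact mul_le_mul_of_nonneg_left (b3.trans y3) (by positivity)
    · apply mul_nonneg (by positivity)
      exact mul_nonneg (by linarith) (by positivity)
  nlinarith

end

/-- **the moved mass** -/
lemma corr_bound (c : ℝ) (hc : 0 ≤ c) (j : ℕ) (hj : 1 ≤ j) :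
    - (5 * Real.exp 2 * coeff j (ab c))
      ≤ ((j : ℝ) + 4) * (coeff (j + 2) (ab c) - Real.exp 2 * coeff j (ab c)) := by
  have h := klem j hj c hc
  obtain ⟨i, rfl⟩ : ∃ i, j = i + 1 := ⟨j - 1, by omega⟩
  rw [coeff_ab_succ, show i + 1 + 2 = (i + 2) + 1 by ring, coeff_ab_succ]
  rw [Nat.add_sub_cancel] at h
  have f1 : (0 : ℝ) < ((i + 1).factorial : ℕ) := by exact_mod_cast (i + 1).factorial_pos
  have e1 : ((i + 2 + 1).factorial : ℝ) = ((i : ℝ) + 3) * (((i : ℝ) + 2) * (i + 1).factorial) := by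
    rw [Nat.factorial_succ, Nat.factorial_succ (i + 1)]; push_cast; ring
  rw [e1]
  have e2 : (c + (((i + 2 : ℕ) : ℝ) + 1)) = i + 1 + 2 + c := by push_cast; ring
  have e3 : c + ((i : ℝ) + 1) = i + 1 + c := by ring
  rw [e2, e3]
  push_cast at h ⊢
  set A : ℝ := ((i : ℝ) + 1 + c) ^ i with hA
  set B : ℝ := ((i : ℝ) + 1 + 2 + c) ^ (i + 1 + 1) with hB
  set E2 : ℝ := Real.exp 2 with hE
  have e4 : ((i : ℝ) + 1 + 4) * (c * B / (((i : ℝ) + 3) * (((i : ℝ) + 2) * (i + 1).factorial))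
      - E2 * (c * A / (i + 1).factorial)) - -(5 * E2 * (c * A / (i + 1).factorial))
      = c / (((i : ℝ) + 3) * (((i : ℝ) + 2) * (i + 1).factorial)) *
        (((i : ℝ) + 1 + 4) * B - ((i : ℝ) + 1 - 1) * (E2 * A * (((i : ℝ) + 1 + 1) * ((i : ℝ) + 1 + 2)))) := by
    field_simp
    ring
  have : 0 ≤ c / (((i : ℝ) + 3) * (((i : ℝ) + 2) * (i + 1).factorial)) *
        (((i : ℝ) + 1 + 4) * B - ((i : ℝ) + 1 - 1) * (E2 * A * (((i : ℝ) + 1 + 1) * ((i : ℝ) + 1 + 2)))) := by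
    apply mul_nonneg (by positivity)
    linarith
  rw [← e4] at this
  linarith

end Pool.Agent.Lib_helper91.SRCH
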